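import Pool.Agent.BoltzM.Spec.Hot
import Pool.Agent.BoltzM.Pic.En

/-! Algebra of the weighted energy densities. -/

set_option autoImplicit false

open MeasureTheory Pool.Agent.BoltzM.BoltzC Finset

noncomputable section

namespace Pool.Agent.BoltzM.HE

variable [Dim]

open KK (lev_mono lev_nonneg term_le_lev)
open Pic (tint_le_one tint_le_two)

/-- The energy density as a bilinear form of the jets. -/
def jetH (n : ℕ) (θ q σ : ℝ) : (List Ix → SV) →ₗ[ℝ] (List Ix → SV) →ₗ[ℝ] ℝ :=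
  LinearMap.mk₂ ℝ (fun a b => lev n θ σ fun u m => NW (q - 2 * u.length - m) m (a u) (b u))
    (fun a a' b => by simp [lev, NW, mul_add, sum_add_distrib])
    (fun c a b => by simp [lev, NW, mul_sum, mul_left_comm])
    (fun a b b' => by simp [lev, NW, mul_add, sum_add_distrib])
    (fun c a b => by simp [lev, NW, mul_sum, mul_left_comm])

lemma bh_eq (n : ℕ) (θ q : ℝ) (σ : E3 → ℝ) (G H : E3 → SV) (x : E3) :
    bh n θ q σ G H x = jetH n θ q (σ x) (fun u => dXw u G x) fun u => dXw u H x := rfl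

lemma jetH_comm (n : ℕ) (θ q σ : ℝ) (a b : List Ix → SV) : jetH n θ q σ a b = jetH n θ q σ b a := by
  simp only [jetH, LinearMap.mk₂_apply, NW_comm _ _ (a _)]

lemma jetH_nonneg (n : ℕ) {θ : ℝ} (hθ : 0 ≤ θ) (q σ : ℝ) (a : List Ix → SV) :
    0 ≤ jetH n θ q σ a a := lev_nonneg hθ fun _ _ => NW_nonneg _ _ _

lemma wt_nonneg {θ : ℝ} (hθ : 0 ≤ θ) (σ : ℝ) (a j : ℕ) : 0 ≤ θ ^ a * σ ^ (2 * j) := by
  rw [pow_mul']; positivity

lemma lev_mono' {n : ℕ} {θ σ : ℝ} (hθ : 0 ≤ θ) {φ ψ : List Ix → ℕ → ℝ}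
    (h : ∀ u m, u.length + m ≤ n → φ u m ≤ ψ u m) : lev n θ σ φ ≤ lev n θ σ ψ :=
  sum_le_sum fun j hj => sum_le_sum fun m hm => mul_le_mul_of_nonneg_left
    (sum_le_sum fun u hu => h u m (by
      have := mem_range.1 hm; have := mem_range.1 hj; have := mem_words.1 hu; omega))
    (wt_nonneg hθ _ _ _)

lemma lev_const_mul (n : ℕ) (θ σ c : ℝ) (φ : List Ix → ℕ → ℝ) :
    lev n θ σ (fun u m => c * φ u m) = c * lev n θ σ φ := by
  simp only [lev, mul_sum, mul_left_comm]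

lemma lev_add (n : ℕ) (θ σ : ℝ) (φ ψ : List Ix → ℕ → ℝ) :
    lev n θ σ (fun u m => φ u m + ψ u m) = lev n θ σ φ + lev n θ σ ψ := by
  simp only [lev, mul_add, sum_add_distrib]

lemma lev_mono_idx {n n' : ℕ} {θ θ' σ : ℝ} (hn : n ≤ n') (hθ : 0 ≤ θ) (hθ' : θ ≤ θ')
    {φ : List Ix → ℕ → ℝ} (h : ∀ u m, 0 ≤ φ u m) : lev n θ σ φ ≤ lev n' θ' σ φ := by
  have h0 : ∀ j m, 0 ≤ θ' ^ (j + m) * σ ^ (2 * j) * ∑ u ∈ words j, φ u m :=
    fun j m => mul_nonneg (wt_nonneg (hθ.trans hθ') _ _ _) (sum_nonneg fun _ _ => h _ _)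
  refine le_trans (sum_le_sum fun j _ => ?_) (sum_le_sum_of_subset_of_nonneg
    (range_mono (Nat.succ_le_succ hn)) fun j _ _ => sum_nonneg fun m _ => h0 j m)
  refine le_trans (sum_le_sum fun m _ => ?_) (sum_le_sum_of_subset_of_nonneg
    (range_mono (show n + 1 - j ≤ n' + 1 - j by omega)) fun m _ _ => h0 j m)
  have h1 : 0 ≤ σ ^ (2 * j) := by rw [pow_mul']; positivity
  have h2 : 0 ≤ ∑ u ∈ words j, φ u m := sum_nonneg fun _ _ => h _ _
  gcongr

variable {n : ℕ} {θ q : ℝ} {ω σ : E3 → ℝ} {G G' H : E3 → SV}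

lemma bh_comm (x : E3) : bh n θ q σ G H x = bh n θ q σ H G x := jetH_comm _ _ _ _ _ _

lemma bh_nonneg (hθ : 0 ≤ θ) (x : E3) : 0 ≤ bh n θ q σ G G x := jetH_nonneg _ hθ _ _ _

lemma bh_sq_le (hθ : 0 ≤ θ) (x : E3) :
    bh n θ q σ G H x ^ 2 ≤ bh n θ q σ G G x * bh n θ q σ H H x :=
  LinearMap.BilinForm.apply_sq_le_of_symm (jetH n θ q (σ x)) (jetH_nonneg n hθ _ _)
    ⟨fun a b => jetH_comm _ _ _ _ a b⟩ _ _

lemma abs_bh_le (hθ : 0 ≤ θ) (x : E3) :
    |bh n θ q σ G H x| ≤ √(bh n θ q σ G G x) * √(bh n θ q σ H H x) := by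
  rw [← Real.sqrt_mul (bh_nonneg hθ x)]
  exact Real.abs_le_sqrt (bh_sq_le hθ x)

lemma bh_add_left (hG : Sm G) (hG' : Sm G') (x : E3) :
    bh n θ q σ (fun y => G y + G' y) H x = bh n θ q σ G H x + bh n θ q σ G' H x := by
  simp only [bh_eq, dXw_add hG hG']
  rw [← LinearMap.add_apply, ← map_add]
  rfl

lemma bh_smul_left (hG : Sm G) (c : ℝ) (x : E3) :
    bh n θ q σ (fun y => c • G y) H x = c * bh n θ q σ G H x := by
  simp only [bh_eq, dXw_const_smul hG]
  rw [← smul_eq_mul, ← LinearMap.smul_apply, ← map_smul]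
  rfl

lemma continuous_bh (hσ : Continuous σ) (hG : Sm G) (hH : Sm H) :
    Continuous (bh n θ q σ G H) := by
  unfold bh lev NW
  refine continuous_finsetSum _ fun j _ => continuous_finsetSum _ fun m _ => ?_
  refine (continuous_const.mul (hσ.pow _)).mul (continuous_finsetSum _ fun u _ => ?_)
  exact ((hG.dXw u).ip ((hH.dXw u).clm (RW _ m))).cont

lemma per_bh (hσ : Per σ) (hG : Per G) (hH : Per H) : Per (bh n θ q σ G H) := fun i x => by
  simp only [bh, hσ i x, hG.dXw _ i x, hH.dXw _ i x]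

lemma term_le_bh (hθ : 0 ≤ θ) (u : List Ix) (m : ℕ) (hum : u.length + m ≤ n) (x : E3) :
    θ ^ (u.length + m) * σ x ^ (2 * u.length) *
      NW (q - 2 * u.length - m) m (dXw u G x) (dXw u G x) ≤ bh n θ q σ G G x :=
  term_le_lev (φ := fun u m => NW (q - 2 * u.length - m) m (dXw u G x) (dXw u G x)) hθ
    (fun _ _ => NW_nonneg _ _ _) u m hum

lemma bh_mono {n' : ℕ} {θ' q' : ℝ} (hn : n ≤ n') (hθ : 0 ≤ θ) (hθ' : θ ≤ θ') (hq : q ≤ q')
    (x : E3) : bh n θ q σ G G x ≤ bh n' θ' q' σ G G x :=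
  (lev_mono hθ fun _ _ => NW_mono (by linarith) _ _).trans
    (lev_mono_idx hn hθ hθ' fun _ _ => NW_nonneg _ _ _)

/-- The velocity norms of one `x`-derivative are bounded by the density. -/
lemma bW_le_bh {p : ℝ} {m : ℕ} (u : List Ix) (hum : u.length + m ≤ n)
    (hp : p + 2 * u.length + m ≤ q) (x : E3) :
    σ x ^ (2 * u.length) * bW p m (dXw u G x) ≤ (m + 1) * bh n 1 q σ G G x := by
  rw [bW, mul_sum]
  refine (sum_le_card_nsmul _ _ (bh n 1 q σ G G x) fun l hl => ?_).trans (by simp)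
  have h1 := mem_range.1 hl
  have h2 := term_le_bh (n := n) (q := q) (σ := σ) (G := G) zero_le_one u l (by omega) x
  rw [one_pow, one_mul] at h2
  have h3 : (l : ℝ) ≤ m := Nat.cast_le.2 (by omega)
  exact (mul_le_mul_of_nonneg_left (NW_mono (by linarith) _ _)
    (by rw [pow_mul']; positivity)).trans h2

lemma cont_bh {T : Type} [TopologicalSpace T] {σ : T → E3 → ℝ} {G H : T → E3 → SV}
    (hσ : Continuous fun p : T × E3 => σ p.1 p.2) (hG : SmC G) (hH : SmC H) :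
    Continuous fun p : T × E3 => bh n θ q (σ p.1) (G p.1) (H p.1) p.2 := by
  unfold bh lev NW
  refine continuous_finsetSum _ fun j _ => continuous_finsetSum _ fun m _ => ?_
  refine (continuous_const.mul (hσ.pow _)).mul (continuous_finsetSum _ fun u _ => ?_)
  exact ((hG.dXw u).ip ((hH.dXw u).clm (RW _ m))).cont

lemma cont_EnH {ω σ : ℝ → E3 → ℝ} {G H : ℝ → E3 → SV}
    (hω : Continuous fun p : ℝ × E3 => ω p.1 p.2) (hσ : Continuous fun p : ℝ × E3 => σ p.1 p.2)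
    (hG : SmC G) (hH : SmC H) : Continuous fun s => EnH n θ q (ω s) (σ s) (G s) (H s) :=
  continuous_tint (φ := fun s x => ω s x * bh n θ q (σ s) (G s) (H s) x) (hω.mul (cont_bh hσ hG hH))

lemma cont_wbh (hω : Continuous ω) (hσ : Continuous σ) (hG : Sm G) (hH : Sm H) :
    Continuous fun x => ω x * bh n θ q σ G H x := hω.mul (continuous_bh hσ hG hH)

lemma bh_zero_left (x : E3) : bh n θ q σ (fun _ => 0) H x = 0 := by
  simp [bh, lev, NW, dXw_zero]

lemma bh_neg_left (hG : Sm G) (x : E3) : bh n θ q σ (fun y => -G y) H x = -bh n θ q σ G H x := by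
  simpa using bh_smul_left (n := n) (θ := θ) (q := q) (σ := σ) (H := H) hG (-1) x

lemma bh_sub_left (hG : Sm G) (hG' : Sm G') (x : E3) :
    bh n θ q σ (fun y => G y - G' y) H x = bh n θ q σ G H x - bh n θ q σ G' H x := by
  simp only [sub_eq_add_neg]
  rw [bh_add_left hG hG'.neg, bh_neg_left hG']

lemma two_bh_le (hθ : 0 ≤ θ) {t : ℝ} (ht : 0 < t) (x : E3) :
    2 * bh n θ q σ G H x ≤ t * bh n θ q σ H H x + bh n θ q σ G G x / t := by
  have h := bh_sq_le (n := n) (q := q) (σ := σ) (G := G) (H := H) hθ x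
  have h1 := bh_nonneg (n := n) (q := q) (σ := σ) (G := G) hθ x
  have h2 := bh_nonneg (n := n) (q := q) (σ := σ) (G := H) hθ x
  set a := bh n θ q σ G G x
  set b := bh n θ q σ H H x
  set c := bh n θ q σ G H x
  have h3 : (2 * c) ^ 2 ≤ (t * b + a / t) ^ 2 := by
    have e : (t * b + a / t) ^ 2 = (t * b - a / t) ^ 2 + 4 * (a * b) := by field_simp; ring
    nlinarith [sq_nonneg (t * b - a / t)]
  exact (abs_le_of_sq_le_sq' h3 (by positivity)).2

lemma bh_add_le (hθ : 0 ≤ θ) (hG : Sm G) (hH : Sm H) (x : E3) :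
    bh n θ q σ (fun y => G y + H y) (fun y => G y + H y) x
      ≤ 2 * bh n θ q σ G G x + 2 * bh n θ q σ H H x := by
  have h := two_bh_le (n := n) (q := q) (σ := σ) (G := G) (H := H) hθ one_pos x
  rw [bh_add_left hG hH, bh_comm (G := G), bh_comm (G := H), bh_add_left hG hH, bh_add_left hG hH,
    bh_comm (G := H) (H := G)]
  linarith

lemma bh_smul_smul (hG : Sm G) (a : ℝ) (x : E3) :
    bh n θ q σ (fun y => a • G y) (fun y => a • G y) x = a ^ 2 * bh n θ q σ G G x := by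
  rw [bh_smul_left hG, bh_comm, bh_smul_left hG]
  ring

lemma EnH_comm : EnH n θ q ω σ G H = EnH n θ q ω σ H G := tint_congr fun x => by rw [bh_comm]

lemma EnH_nonneg (hθ : 0 ≤ θ) (hω : ∀ x, 0 ≤ ω x) : 0 ≤ EnH n θ q ω σ G G :=
  tint_nonneg fun x => mul_nonneg (hω x) (bh_nonneg hθ x)

lemma EnH_zero_left : EnH n θ q ω σ (fun _ => 0) H = 0 := by simp [EnH, bh_zero_left]

lemma EnH_smul_left (hG : Sm G) (a : ℝ) : EnH n θ q ω σ (fun y => a • G y) H = a * EnH n θ q ω σ G H := by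
  rw [EnH, EnH, ← tint_const_mul]
  exact tint_congr fun x => by rw [bh_smul_left hG]; ring

lemma EnH_smul_smul (hG : Sm G) (a : ℝ) :
    EnH n θ q ω σ (fun y => a • G y) (fun y => a • G y) = a ^ 2 * EnH n θ q ω σ G G := by
  rw [EnH, EnH, ← tint_const_mul]
  exact tint_congr fun x => by rw [bh_smul_smul hG]; ring

lemma EnH_neg_neg (hG : Sm G) : EnH n θ q ω σ (fun y => -G y) (fun y => -G y) = EnH n θ q ω σ G G := by
  simpa using EnH_smul_smul (n := n) (θ := θ) (q := q) (ω := ω) (σ := σ) hG (-1)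

lemma EnH_add_left (hω : Continuous ω) (hσ : Continuous σ) (hG : Sm G) (hG' : Sm G') (hH : Sm H) :
    EnH n θ q ω σ (fun y => G y + G' y) H = EnH n θ q ω σ G H + EnH n θ q ω σ G' H := by
  rw [EnH, EnH, EnH, ← tint_add (cont_wbh hω hσ hG hH) (cont_wbh hω hσ hG' hH)]
  exact tint_congr fun x => by rw [bh_add_left hG hG']; ring

lemma EnH_sub_left (hω : Continuous ω) (hσ : Continuous σ) (hG : Sm G) (hG' : Sm G') (hH : Sm H) :
    EnH n θ q ω σ (fun y => G y - G' y) H = EnH n θ q ω σ G H - EnH n θ q ω σ G' H := by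
  rw [EnH, EnH, EnH, ← tint_sub (cont_wbh hω hσ hG hH) (cont_wbh hω hσ hG' hH)]
  exact tint_congr fun x => by rw [bh_sub_left hG hG']; ring

lemma EnH_sum_left (hω : Continuous ω) (hσ : Continuous σ) {ι : Type} (S : Finset ι)
    {G : ι → E3 → SV} (hG : ∀ i, Sm (G i)) (hH : Sm H) (a : ι → ℝ) :
    EnH n θ q ω σ (fun y => ∑ i ∈ S, a i • G i y) H = ∑ i ∈ S, a i * EnH n θ q ω σ (G i) H := by
  classical
  induction S using Finset.induction_on with
  | empty => simpa using EnH_zero_left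
  | insert i S hi ih =>
    simp only [sum_insert hi]
    rw [EnH_add_left hω hσ ((hG i).const_smul _) (Sm.sum S fun j _ => (hG j).const_smul _) hH, ih,
      EnH_smul_left (hG i)]

lemma EnH_add_le (hθ : 0 ≤ θ) (hω : Continuous ω) (hω0 : ∀ x, 0 ≤ ω x) (hσ : Continuous σ)
    (hG : Sm G) (hH : Sm H) : EnH n θ q ω σ (fun y => G y + H y) (fun y => G y + H y)
      ≤ 2 * EnH n θ q ω σ G G + 2 * EnH n θ q ω σ H H := by
  refine tint_le_two (cont_wbh hω hσ (hG.add hH) (hG.add hH)) (cont_wbh hω hσ hG hG)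
    (cont_wbh hω hσ hH hH) fun x => ?_
  have := mul_le_mul_of_nonneg_left (bh_add_le (n := n) (q := q) (σ := σ) hθ hG hH x) (hω0 x)
  linarith

lemma EnH_sub_le (hθ : 0 ≤ θ) (hω : Continuous ω) (hω0 : ∀ x, 0 ≤ ω x) (hσ : Continuous σ)
    (hG : Sm G) (hH : Sm H) : EnH n θ q ω σ (fun y => G y - H y) (fun y => G y - H y)
      ≤ 2 * EnH n θ q ω σ G G + 2 * EnH n θ q ω σ H H := by
  have := EnH_add_le (n := n) (q := q) hθ hω hω0 hσ hG hH.neg
  rw [EnH_neg_neg hH] at this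
  simpa only [sub_eq_add_neg] using this

lemma EnH_sq_le (hθ : 0 ≤ θ) (hω : Continuous ω) (hω0 : ∀ x, 0 ≤ ω x) (hσ : Continuous σ)
    (hG : Sm G) (hH : Sm H) : EnH n θ q ω σ G H ^ 2 ≤ EnH n θ q ω σ G G * EnH n θ q ω σ H H := by
  have h := abs_tint_le_sqrt (φ := fun x => ω x * bh n θ q σ G H x)
    (cont_wbh (n := n) (θ := θ) (q := q) hω hσ hG hG) (cont_wbh (n := n) (θ := θ) (q := q) hω hσ hH hH)
    (fun x => mul_nonneg (hω0 x) (bh_nonneg hθ x)) (fun x => mul_nonneg (hω0 x) (bh_nonneg hθ x))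
    fun x => by
      rw [← Real.sqrt_mul (mul_nonneg (hω0 x) (bh_nonneg hθ x))]
      refine Real.abs_le_sqrt ?_
      have := mul_le_mul_of_nonneg_left (bh_sq_le (n := n) (q := q) (σ := σ) (G := G) (H := H) hθ x)
        (sq_nonneg (ω x))
      nlinarith
  have h2 : |EnH n θ q ω σ G H| ^ 2 ≤ (√(EnH n θ q ω σ G G) * √(EnH n θ q ω σ H H)) ^ 2 :=
    pow_le_pow_left₀ (abs_nonneg _) h 2
  rwa [sq_abs, mul_pow, Real.sq_sqrt (EnH_nonneg hθ hω0), Real.sq_sqrt (EnH_nonneg hθ hω0)] at h2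

lemma EnH_le_of_le {n' : ℕ} {θ' q' a : ℝ} {ω' : E3 → ℝ} (hω : Continuous ω) (hω' : Continuous ω')
    (hσ : Continuous σ) (hG : Sm G) (hH : Sm H)
    (h : ∀ x, ω x * bh n θ q σ G G x ≤ a * (ω' x * bh n' θ' q' σ H H x)) :
    EnH n θ q ω σ G G ≤ a * EnH n' θ' q' ω' σ H H :=
  tint_le_one (cont_wbh hω hσ hG hG) (cont_wbh hω' hσ hH hH) h

lemma loH_nonneg (x : E3) : 0 ≤ loH n q σ G x := bh_nonneg zero_le_one x

lemma loH_add_le (hG : Sm G) (hH : Sm H) (x : E3) :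
    loH n q σ (fun y => G y + H y) x ≤ 2 * loH n q σ G x + 2 * loH n q σ H x :=
  bh_add_le zero_le_one hG hH x

lemma loH_mono {q' : ℝ} (hq : q ≤ q') (x : E3) : loH n q σ G x ≤ loH n q' σ G x :=
  bh_mono le_rfl zero_le_one le_rfl (by linarith) x

lemma continuous_loH (hσ : Continuous σ) (hG : Sm G) : Continuous (loH n q σ G) :=
  continuous_bh hσ hG hG

/-! ### The dissipation density -/

variable {Q : CollOp} (X : HOp Q) {r : ℕ}

lemma D_nonneg (r : ℕ) (f : SV) : 0 ≤ X.D r f := (ipW_nonneg _ _).trans (X.low r f)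

lemma D_mono (k : ℕ) : ∃ C : ℝ, 1 ≤ C ∧ ∀ r r' f, r ≤ r' → r' ≤ r + k → X.D r f ≤ C * X.D r' f := by
  obtain ⟨C, hC, h⟩ := X.mono
  have key : ∀ j r f, X.D r f ≤ C ^ j * X.D (r + j) f := fun j => by
    induction j with
    | zero => simp
    | succ j ih =>
      intro r f
      refine (ih r f).trans ?_
      rw [pow_succ, mul_assoc]
      exact mul_le_mul_of_nonneg_left (h _ f) (by positivity)
  refine ⟨C ^ k, one_le_pow₀ hC, fun r r' f h1 h2 => ?_⟩
  obtain ⟨j, rfl⟩ := Nat.exists_eq_add_of_le h1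
  exact (key j r f).trans (mul_le_mul_of_nonneg_right (pow_le_pow_right₀ hC (by omega))
    (D_nonneg X _ _))

lemma YH_nonneg (hθ : 0 ≤ θ) (x : E3) : 0 ≤ YH X n θ r σ G x :=
  lev_nonneg hθ fun _ _ => sum_nonneg fun _ _ => D_nonneg X _ _

lemma YH_add (hθ : 0 ≤ θ) (hG : Sm G) (hH : Sm H) (x : E3) :
    YH X n θ r σ (fun y => G y + H y) x ≤ 2 * YH X n θ r σ G x + 2 * YH X n θ r σ H x := by
  simp only [YH, ← lev_const_mul, ← lev_add, dXw_add hG hH, map_add, mul_sum, ← sum_add_distrib]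
  exact lev_mono hθ fun u m => sum_le_sum fun w _ => X.add _ _ _

lemma YH_smul (hG : Sm G) (a : ℝ) (x : E3) :
    YH X n θ r σ (fun y => a • G y) x = a ^ 2 * YH X n θ r σ G x := by
  simp only [YH, ← lev_const_mul, dXw_const_smul hG, map_smul, X.smul, mul_sum]

lemma cont_YH {T : Type} [TopologicalSpace T] {σ : T → E3 → ℝ} {G : T → E3 → SV}
    (hσ : Continuous fun p : T × E3 => σ p.1 p.2) (hG : SmC G) :
    Continuous fun p : T × E3 => YH X n θ r (σ p.1) (G p.1) p.2 := by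
  unfold YH lev
  refine continuous_finsetSum _ fun j _ => continuous_finsetSum _ fun m _ => ?_
  refine (continuous_const.mul (hσ.pow _)).mul (continuous_finsetSum _ fun u _ =>
    continuous_finsetSum _ fun w _ => (X.cont _).comp ((hG.dXw u).clm (apW w)).cont)

lemma continuous_YH (hσ : Continuous σ) (hG : Sm G) : Continuous (YH X n θ r σ G) := by
  unfold YH lev
  refine continuous_finsetSum _ fun j _ => continuous_finsetSum _ fun m _ => ?_
  refine (continuous_const.mul (hσ.pow _)).mul (continuous_finsetSum _ fun u _ =>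
    continuous_finsetSum _ fun w _ => (X.cont _).comp ((hG.dXw u).clm (apW w)).cont)

lemma term_le_YH (hθ : 0 ≤ θ) {u w : List Ix} (hu : u.length + w.length ≤ n) (x : E3) :
    θ ^ (u.length + w.length) * σ x ^ (2 * u.length) *
      X.D (r - (2 * u.length + w.length)) (apW w (dXw u G x)) ≤ YH X n θ r σ G x := by
  refine le_trans (mul_le_mul_of_nonneg_left ?_ (wt_nonneg hθ _ _ _)) (term_le_lev
    (φ := fun u m => ∑ w ∈ words m, X.D (r - (2 * u.length + m)) (apW w (dXw u G x))) hθ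
    (fun _ _ => sum_nonneg fun _ _ => D_nonneg X _ _) u w.length hu)
  exact single_le_sum (f := fun v => X.D (r - (2 * u.length + w.length)) (apW v (dXw u G x)))
    (fun _ _ => D_nonneg X _ _) (mem_words.2 rfl)

/-- The dissipation controls the energy with a larger weight. -/
lemma bh_le_YH (hθ : 0 ≤ θ) (hr : 2 * n ≤ r) (hq : q ≤ r + 199 / 200) (x : E3) :
    bh n θ q σ G G x ≤ YH X n θ r σ G x := by
  refine lev_mono' hθ fun u m hum => ?_
  rw [NW_eq]
  refine sum_le_sum fun w _ => le_trans (ipW_mono ?_ _) (X.low _ _)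
  rw [Nat.cast_sub (by omega)]
  push_cast
  linarith

lemma YH_mono (k : ℕ) : ∃ C : ℝ, 1 ≤ C ∧ ∀ (n r r' : ℕ) (θ : ℝ) (σ : E3 → ℝ) (G : E3 → SV) (x : E3),
    0 ≤ θ → r ≤ r' → r' ≤ r + k → YH X n θ r σ G x ≤ C * YH X n θ r' σ G x := by
  obtain ⟨C, hC, h⟩ := D_mono X k
  refine ⟨C, hC, fun n r r' θ σ G x hθ h1 h2 => ?_⟩
  rw [YH, YH, ← lev_const_mul]
  refine lev_mono hθ fun u m => ?_
  rw [mul_sum]
  exact sum_le_sum fun w _ => h _ _ _ (by omega) (by omega)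

end Pool.Agent.BoltzM.HE
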