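import Pool.Agent.BoltzM.HE.Sob

/-! The couplings between the two families of energies. -/

set_option autoImplicit false

open MeasureTheory Pool.Agent.BoltzM.BoltzC Finset

noncomputable section

namespace Pool.Agent.BoltzM

variable [Dim]

namespace HE

open KK (lev_mono lev_nonneg term_le_lev)

lemma form_list_sum_le (B : SV →ₗ[ℝ] SV →ₗ[ℝ] ℝ) (hs : ∀ a b, B a b = B b a)
    (hp : ∀ a, 0 ≤ B a a) {c : ℝ} (hc : 0 ≤ c) (l : List SV) (h : ∀ f ∈ l, B f f ≤ c) :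
    B l.sum l.sum ≤ (l.length : ℝ) ^ 2 * c := by
  induction l with
  | nil => simp
  | cons f l ih =>
    have h1 := h f (by simp)
    have h2 := ih fun g hg => h g (by simp [hg])
    have h3 : B f l.sum ^ 2 ≤ B f f * B l.sum l.sum :=
      LinearMap.BilinForm.apply_sq_le_of_symm B hp ⟨fun a b => hs a b⟩ _ _
    have h4 : B f l.sum ^ 2 ≤ ((l.length : ℝ) * c) ^ 2 := by
      refine h3.trans ((mul_le_mul h1 h2 (hp _) hc).trans (le_of_eq (by ring)))
    have h5 := (abs_le_of_sq_le_sq' h4 (by positivity)).2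
    rw [List.sum_cons, List.length_cons]
    simp only [map_add, LinearMap.add_apply, hs l.sum f]
    push_cast
    nlinarith

lemma lev_one_le {n : ℕ} {θ σ : ℝ} (hθ : 0 < θ) (hθ1 : θ ≤ 1) {φ : List Ix → ℕ → ℝ}
    (h : ∀ u m, 0 ≤ φ u m) : lev n 1 σ φ ≤ (θ ^ n)⁻¹ * lev n θ σ φ := by
  rw [le_inv_mul_iff₀ (by positivity), lev, lev, mul_sum]
  refine sum_le_sum fun j hj => ?_
  rw [mul_sum]
  refine sum_le_sum fun m hm => ?_
  have h1 := mem_range.1 hj
  have h2 := mem_range.1 hm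
  have h3 : θ ^ n ≤ θ ^ (j + m) := pow_le_pow_of_le_one hθ.le hθ1 (by omega)
  have h4 : 0 ≤ σ ^ (2 * j) := by rw [pow_mul']; positivity
  have h5 : 0 ≤ ∑ u ∈ words j, φ u m := sum_nonneg fun _ _ => h _ _
  rw [one_pow, one_mul, mul_assoc]
  gcongr

lemma lev_le_lev {n : ℕ} {θ θ' σ c : ℝ} (hθ : 0 < θ) (hθ1 : θ ≤ 1) (hθ' : 0 ≤ θ') (hθ1' : θ' ≤ 1)
    (hc : 0 ≤ c) {φ ψ : List Ix → ℕ → ℝ} (h0 : ∀ u m, 0 ≤ ψ u m)
    (h : ∀ u m, φ u m ≤ c * ψ u m) : lev n θ' σ φ ≤ c * (θ ^ n)⁻¹ * lev n θ σ ψ := by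
  refine (lev_mono hθ' h).trans ?_
  rw [lev_const_mul, mul_assoc]
  exact mul_le_mul_of_nonneg_left ((lev_mono_idx le_rfl hθ' hθ1' h0).trans
    (lev_one_le hθ hθ1 h0)) hc

/-- Multiplication by a symbol, for a general family of nonnegative forms. -/
lemma lev_smul_le (n : ℕ) (K : ℕ → ℝ) (c : ℕ → ℕ → ℝ) (hc : ∀ j m, 0 ≤ c j m) :
    ∃ C : ℝ, 0 < C ∧ ∀ (B : ℕ → ℕ → SV →ₗ[ℝ] SV →ₗ[ℝ] ℝ) (θ R : ℝ) (σ k : E3 → ℝ) (H : E3 → SV)
      (x : E3), (∀ j m a b, B j m a b = B j m b a) → (∀ j m a, 0 ≤ B j m a a) → 0 ≤ θ → θ ≤ 1 →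
      0 ≤ R → Sm k → Sm H → 0 < σ x → SymBd K 0 σ k k →
      (∀ (j m : ℕ) (u : List Ix), u.length ≤ j → j + m ≤ n →
        σ x ^ (2 * u.length) * B j m (dXw u H x) (dXw u H x) ≤ c j m * R) →
      lev n θ (σ x) (fun u m => B u.length m (dXw u (fun y => k y • H y) x)
        (dXw u (fun y => k y • H y) x)) ≤ C * k x ^ 2 * R := by
  set M := ∑ j ∈ range (n + 1), K j ^ 2 with hM
  have hM0 : 0 ≤ M := sum_nonneg fun _ _ => sq_nonneg _
  refine ⟨lev n 1 1 (fun u m => (2 ^ u.length : ℝ) ^ 2 * (M * c u.length m)) + 1, ?_, ?_⟩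
  · have := lev_nonneg (n := n) (σ := 1) zero_le_one
      (φ := fun u m => (2 ^ u.length : ℝ) ^ 2 * (M * c u.length m)) fun u m => by
        have := hc u.length m
        positivity
    linarith
  intro B θ R σ k H x hs hp hθ hθ1 hR hk hH hσ hK hB
  have hb : 0 ≤ k x ^ 2 * R := by positivity
  rw [mul_assoc, add_mul, one_mul]
  refine le_trans ?_ (le_add_of_nonneg_right hb)
  rw [lev, lev, sum_mul]
  refine sum_le_sum fun j hj => ?_
  rw [sum_mul]
  refine sum_le_sum fun m hm => ?_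
  rw [one_pow, one_pow, one_mul, one_mul, mul_sum, sum_mul]
  refine sum_le_sum fun u hu => ?_
  have hj' := mem_range.1 hj
  have hm' := mem_range.1 hm
  have hul := mem_words.1 hu
  have hcj := hc j m
  have e2 : ∀ (a : ℝ) (f : SV), B j m (a • f) (a • f) = a ^ 2 * B j m f f := fun a f => by
    simp only [map_smul, LinearMap.smul_apply, smul_eq_mul]; ring
  rw [dXw_smul hk hH, hul]
  set d := √(θ ^ (j + m)) * σ x ^ j with hd
  have hd2 : d ^ 2 = θ ^ (j + m) * σ x ^ (2 * j) := by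
    rw [hd, mul_pow, Real.sq_sqrt (by positivity), ← pow_mul, mul_comm j 2]
  rw [← hd2, ← e2, List.smul_sum, List.map_map]
  refine (form_list_sum_le (B j m) (hs j m) (hp j m) (c := M * c j m * (k x ^ 2 * R))
    (by positivity) _ ?_).trans (le_of_eq ?_)
  · intro f hf
    obtain ⟨p, hp', rfl⟩ := List.mem_map.1 hf
    have hl := length_of_mem_splits hp'
    simp only [Function.comp]
    rw [e2, e2, hd2]
    have h1 := hB j m p.2 (by omega) (by omega)
    have h2 : (σ x ^ p.1.length * |dXw p.1 k x|) ^ 2 ≤ M * k x ^ 2 := by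
      refine (pow_le_pow_left₀ (by positivity) (hK p.1 (Nat.zero_le _) x) 2).trans ?_
      rw [mul_pow]
      exact mul_le_mul_of_nonneg_right (single_le_sum (f := fun j => K j ^ 2)
        (fun _ _ => sq_nonneg _) (mem_range.2 (by omega))) (sq_nonneg _)
    have h3 : θ ^ (j + m) ≤ 1 := pow_le_one₀ hθ hθ1
    have h4 := hp j m (dXw p.2 H x)
    have e : σ x ^ (2 * j) = (σ x ^ p.1.length) ^ 2 * σ x ^ (2 * p.2.length) := by
      rw [← pow_mul, ← pow_add]; congr 1; omega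
    calc θ ^ (j + m) * σ x ^ (2 * j) * (dXw p.1 k x ^ 2 * B j m (dXw p.2 H x) (dXw p.2 H x))
        = θ ^ (j + m) * ((σ x ^ p.1.length * |dXw p.1 k x|) ^ 2 *
          (σ x ^ (2 * p.2.length) * B j m (dXw p.2 H x) (dXw p.2 H x))) := by
          rw [mul_pow, sq_abs, e]; ring
      _ ≤ 1 * (M * k x ^ 2 * (c j m * R)) := by gcongr
      _ = _ := by ring
  · rw [List.length_map, length_splits, hul]
    push_cast
    ring

lemma bh_one_le {n : ℕ} {θ q : ℝ} (hθ : 0 < θ) (hθ1 : θ ≤ 1) (σ : E3 → ℝ) (G : E3 → SV) (x : E3) :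
    bh n 1 q σ G G x ≤ (θ ^ n)⁻¹ * bh n θ q σ G G x :=
  lev_one_le hθ hθ1 fun _ _ => NW_nonneg _ _ _

lemma ip_le_dq (Q : CollOp) (f : SV) : ip f f ≤ Q.dq f := by
  obtain ⟨lam, hlam, h⟩ := Q.gap
  have h1 := nA_nonneg 0 (f - PP f)
  rw [nA_zero] at h1
  have := h f
  unfold CollOp.dq
  nlinarith

lemma dq_nonneg' (Q : CollOp) (f : SV) : 0 ≤ Q.dq f := by
  have h1 := nA_nonneg 0 f
  rw [nA_zero] at h1
  exact h1.trans (ip_le_dq Q f)

end HE

open HE in
theorem cpl (hV : VHStmt) : CplStmt where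
  sq := by
    intro K n θ θ' q hθ hθ1 hθ' hθ1' hq
    choose c hc0 hc using hV.sqA 0
    obtain ⟨C, hC, h⟩ := lev_smul_le n K (fun _ m => c m * (m + 1) * (θ' ^ n)⁻¹) fun _ m => by
      have := hc0 m
      positivity
    refine ⟨C, hC, fun σ k G hk hG hσ _ hK x => ?_⟩
    refine h (fun _ m => nB m) θ _ σ k (fun y => Sq (G y)) x (fun _ m => nB_comm m)
      (fun _ m a => by rw [nB_self]; exact nA_nonneg _ _) hθ hθ1 (bh_nonneg hθ'.le x) hk
      (hG.clm Sq) (hσ x) hK fun j m u hu hjm => ?_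
    have h1 := hc m (dXw u G x)
    rw [Jw_zero] at h1
    have h2 := SW_le_bW (2 * 0) m (dXw u G x)
    have h3 : ((u.length + m : ℕ) : ℝ) ≤ n := Nat.cast_le.2 (by omega)
    have h4 := bW_le_bh (n := n) (q := q) (σ := σ) (G := G) (p := 2 * 0 + m) (m := m) u (by omega)
      (by push_cast at h3; linarith) x
    have h5 := bh_one_le (n := n) (q := q) hθ' hθ1' σ G x
    have h6 := hc0 m
    have h7 := hσ x
    rw [dXw_clm hG, nB_self]
    calc σ x ^ (2 * u.length) * nA m (Sq (dXw u G x))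
        ≤ σ x ^ (2 * u.length) * (c m * bW (2 * 0 + m) m (dXw u G x)) := by
          gcongr
          exact h1.trans (by gcongr)
      _ = c m * (σ x ^ (2 * u.length) * bW (2 * 0 + m) m (dXw u G x)) := by ring
      _ ≤ c m * ((m + 1) * ((θ' ^ n)⁻¹ * bh n θ' q σ G G x)) :=
          mul_le_mul_of_nonneg_left (h4.trans (by gcongr)) h6.le
      _ = _ := by ring
  ds := by
    intro Q K n θ θ' q hθ hθ1 hθ' hθ1'
    choose c hc0 hc using hV.ds q
    obtain ⟨C, hC, h⟩ := lev_smul_le n K (fun _ m => c m * (θ ^ n)⁻¹) fun _ m => by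
      have := hc0 m
      positivity
    refine ⟨C, hC, fun σ k G hk hG hσ _ hK x => ?_⟩
    have hφ : ∀ (u : List Ix) (m : ℕ),
        0 ≤ ∑ w ∈ words m, Q.dq (apW w (dXw u (fun y => G y - PP (G y)) x)) :=
      fun _ _ => sum_nonneg fun _ _ => dq_nonneg' Q _
    refine h (fun j m => nW (q - 2 * j - m) m) θ' _ σ k (fun y => Ds (G y)) x
      (fun _ m => NW_comm _ m) (fun _ m => NW_nonneg _ m) hθ' hθ1' (KK.lev_nonneg hθ.le hφ) hk
      (hG.clm Ds) (hσ x) hK fun j m u hu hjm => ?_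
    have h1 := hc m (dXw u G x)
    have h2 : NW (q - 2 * j - m) m (Ds (dXw u G x)) (Ds (dXw u G x))
        ≤ NW q m (Ds (dXw u G x)) (Ds (dXw u G x)) :=
      NW_mono (by linarith [Nat.cast_nonneg (α := ℝ) j, Nat.cast_nonneg (α := ℝ) m]) _ _
    have h3 : nA m (dXw u G x - PP (dXw u G x))
        ≤ ∑ w ∈ words m, Q.dq (apW w (dXw u (fun y => G y - PP (G y)) x)) := by
      rw [dXw_sub hG (hG.clm PP), dXw_clm hG]
      exact sum_le_sum fun w _ => ip_le_dq Q _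
    have h4 := KK.term_le_lev (n := n) (σ := σ x) zero_le_one hφ u m (by omega)
    rw [one_pow, one_mul] at h4
    have h5 := lev_one_le (n := n) (σ := σ x) hθ hθ1 hφ
    have h6 := hc0 m
    have h7 := hσ x
    rw [dXw_clm hG, nW_apply]
    calc σ x ^ (2 * u.length) * NW (q - 2 * j - m) m (Ds (dXw u G x)) (Ds (dXw u G x))
        ≤ σ x ^ (2 * u.length) * (c m *
          ∑ w ∈ words m, Q.dq (apW w (dXw u (fun y => G y - PP (G y)) x))) := by
          gcongr
          exact h2.trans (h1.trans (by gcongr))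
      _ = c m * (σ x ^ (2 * u.length) *
          ∑ w ∈ words m, Q.dq (apW w (dXw u (fun y => G y - PP (G y)) x))) := by ring
      _ ≤ c m * ((θ ^ n)⁻¹ * yy Q n θ σ G x) := mul_le_mul_of_nonneg_left (h4.trans h5) h6.le
      _ = _ := by rw [mul_assoc]
  jw := by
    intro K n θ q hθ hθ1
    choose c hc0 hc using hV.jwb
    obtain ⟨C, hC, h⟩ := lev_smul_le n K
      (fun j m => c (q - 2 * j - m) m * (m + 1) * (θ ^ n)⁻¹) fun j m => by
        have := hc0 (q - 2 * j - m) m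
        positivity
    refine ⟨C, hC, fun σ k G hk hG hσ _ hK x => ?_⟩
    refine h (fun j m => nW (q - 2 * j - m) m) θ _ σ k (fun y => Jw 4 (G y)) x
      (fun _ m => NW_comm _ m) (fun _ m => NW_nonneg _ m) hθ.le hθ1 (bh_nonneg hθ.le x) hk
      (hG.clm (Jw 4)) (hσ x) hK fun j m u hu hjm => ?_
    have h1 := hc (q - 2 * j - m) m (dXw u G x)
    have h3 : (u.length : ℝ) ≤ j := Nat.cast_le.2 hu
    have h4 := bW_le_bh (n := n) (q := q + 8) (σ := σ) (G := G) (p := q - 2 * j - m + 8) (m := m)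
      u (by omega) (by linarith) x
    have h5 := bh_one_le (n := n) (q := q + 8) hθ hθ1 σ G x
    have h6 := hc0 (q - 2 * j - m) m
    have h7 := hσ x
    rw [dXw_clm hG, nW_apply]
    calc σ x ^ (2 * u.length) * NW (q - 2 * j - m) m (Jw 4 (dXw u G x)) (Jw 4 (dXw u G x))
        ≤ σ x ^ (2 * u.length) * (c (q - 2 * j - m) m * bW (q - 2 * j - m + 8) m (dXw u G x)) := by
          gcongr
      _ = c (q - 2 * j - m) m * (σ x ^ (2 * u.length) * bW (q - 2 * j - m + 8) m (dXw u G x)) := by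
          ring
      _ ≤ c (q - 2 * j - m) m * ((m + 1) * ((θ ^ n)⁻¹ * bh n θ (q + 8) σ G G x)) :=
          mul_le_mul_of_nonneg_left (h4.trans (by gcongr)) h6.le
      _ = _ := by ring
  yh := by
    intro Q X n q θ θ' hθ hθ1 hθ' hθ1'
    choose c hc0 hc using X.le_dq
    have hS : 0 < ∑ r ∈ range (q + 1), c r := sum_pos (fun r _ => hc0 r) (by simp)
    refine ⟨(∑ r ∈ range (q + 1), c r) * (θ ^ n)⁻¹, by positivity, fun σ G x => ?_⟩
    refine lev_le_lev hθ hθ1 hθ' hθ1' hS.le (fun _ _ => sum_nonneg fun _ _ => dq_nonneg' Q _)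
      fun u m => ?_
    rw [mul_sum]
    refine sum_le_sum fun w _ => (hc _ _).trans (mul_le_mul_of_nonneg_right ?_ (dq_nonneg' Q _))
    exact single_le_sum (f := c) (fun r _ => (hc0 r).le) (mem_range.2 (by omega))
  bhb := by
    intro n θ θ' q hθ hθ1 hθ' hθ1'
    obtain ⟨c, hc0, hc⟩ := hV.gauss q
    refine ⟨c * (θ ^ n)⁻¹, by positivity, fun σ G x => ?_⟩
    refine lev_le_lev hθ hθ1 hθ' hθ1' hc0.le
      (fun _ _ => by rw [← nA_eq_ip_RR]; exact nA_nonneg _ _) fun u m => ?_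
    rw [← nA_eq_ip_RR]
    exact (NW_mono (by linarith [Nat.cast_nonneg (α := ℝ) u.length, Nat.cast_nonneg (α := ℝ) m])
      _ _).trans (hc m _)

end Pool.Agent.BoltzM
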