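import Pool.Agent.BoltzM.HE.Basic
import Pool.Agent.BoltzM.Gain.Gam

/-! The pointwise collision gain of the fast part and the sign of the regularising term. -/

set_option autoImplicit false

open MeasureTheory Pool.Agent.BoltzM.BoltzC Finset

noncomputable section

namespace Pool.Agent.BoltzM

namespace GainH

open Gain HE

lemma fin_bd {ι : Type} (S : Finset ι) (c C : ι → ℝ) (hc : ∀ i ∈ S, 0 < c i) :
    ∃ a B : ℝ, 0 < a ∧ 0 ≤ B ∧ ∀ i ∈ S, a ≤ c i ∧ C i ≤ B := by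
  classical
  induction S using Finset.induction_on with
  | empty => exact ⟨1, 0, one_pos, le_rfl, by simp⟩
  | insert i S hi ih =>
    obtain ⟨a, B, ha, hB, h⟩ := ih fun j hj => hc j (mem_insert_of_mem hj)
    refine ⟨min a (c i), max B (C i), lt_min ha (hc i (mem_insert_self _ _)),
      le_max_of_le_left hB, fun j hj => ?_⟩
    rcases mem_insert.1 hj with rfl | hj
    · exact ⟨min_le_right _ _, le_max_right _ _⟩
    · exact ⟨(min_le_left _ _).trans (h j hj).1, (h j hj).2.trans (le_max_left _ _)⟩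

lemma bd_mono {t C C' a a' b b' : ℝ} (h : t ≤ C * √a * √b) (hC : 0 ≤ C) (h1 : C ≤ C') (h2 : a ≤ a')
    (h3 : b ≤ b') : t ≤ C' * √a' * √b' :=
  h.trans (mul_le_mul (mul_le_mul h1 (Real.sqrt_le_sqrt h2) (Real.sqrt_nonneg _) (hC.trans h1))
    (Real.sqrt_le_sqrt h3) (Real.sqrt_nonneg _) (mul_nonneg (hC.trans h1) (Real.sqrt_nonneg _)))

lemma bd_scale {t C a a' b M : ℝ} (h : t ≤ C * √a * √b) (hC : 0 ≤ C) (hM : 0 ≤ M)
    (h2 : a ≤ M * a') : t ≤ C * √M * √a' * √b := by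
  have := bd_mono h hC le_rfl h2 le_rfl
  rwa [Real.sqrt_mul hM, ← mul_assoc] at this

lemma off_le {τ C Kb k Z T su s₀ s₂ dk t b f : ℝ} (hτ : 0 ≤ τ) (hT : 0 ≤ T) (hC : 0 ≤ C)
    (h2 : 0 ≤ su) (h3 : 0 ≤ s₀) (h4 : 0 ≤ s₂) (hK : 0 ≤ Kb) (hk : 0 ≤ k) (hZ : 0 ≤ Z) (hf : 0 ≤ f)
    (e1 : s₀ * |dk| ≤ Kb * k) (e2 : |t| ≤ C * b * f) (e3 : T * s₂ * b ≤ τ * Z)
    (e4 : T * su * f ≤ Z) :
    |T ^ 2 * (su * (s₀ * s₂)) * (dk * t)| ≤ Kb * C * (τ * k * Z ^ 2) := by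
  rw [abs_mul, abs_mul dk, abs_of_nonneg (show 0 ≤ T ^ 2 * (su * (s₀ * s₂)) by positivity)]
  calc _ = (s₀ * |dk|) * (T * s₂) * (T * su) * |t| := by ring
    _ ≤ (Kb * k) * (T * s₂) * (T * su) * (C * b * f) := by gcongr
    _ = Kb * C * (k * ((T * s₂ * b) * (T * su * f))) := by ring
    _ ≤ Kb * C * (k * ((τ * Z) * Z)) := by gcongr
    _ = _ := by ring

variable [Dim]

lemma NW_list_sum {ι : Type} (q : ℝ) (m : ℕ) (l : List ι) (c : ι → ℝ) (f : ι → SV) (g : SV) :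
    NW q m (l.map fun i => c i • f i).sum g = (l.map fun i => c i * NW q m (f i) g).sum := by
  unfold NW
  rw [ip_list_sum]
  simp

/-- Absorption of the lower order terms for small `θ`. -/
lemma absorb (A : SV →L[ℝ] SV) (E : ℕ → ℕ → SV → ℝ) (hE : ∀ j m f, 0 ≤ E j m f) (K : ℕ → ℝ)
    (n : ℕ) (q : ℝ)
    (top : ∀ j m : ℕ, j + m ≤ n → ∃ c C : ℝ, 0 < c ∧ 0 ≤ C ∧ ∀ f, c * E j m f ≤
      NW (q - 2 * j - m) m (A f) f + C * √(∑ l ∈ range m, E j l f) * √(E j m f))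
    (off : ∀ i j m : ℕ, i < j → j + m ≤ n → ∃ C : ℝ, 0 ≤ C ∧ ∀ f g,
      |NW (q - 2 * j - m) m (A f) g| ≤ C * √(∑ l ∈ range (m + 1), E i l f) * √(E j m g)) :
    ∃ θ0 c : ℝ, 0 < θ0 ∧ θ0 ≤ 1 ∧ 0 < c ∧ ∀ θ, 0 < θ → θ ≤ θ0 →
      ∀ (σ k : E3 → ℝ) (G : E3 → SV), Sm k → Sm G → (∀ x, 0 < σ x) → (∀ x, 0 ≤ k x) →
        SymBd K 0 σ k k → ∀ x, c * k x * lev n θ (σ x) (fun u m => E u.length m (dXw u G x))
          ≤ bh n θ q σ (fun y => k y • A (G y)) G x := by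
  choose! c1 C1 hc1 hC1 top using top
  choose! C2 hC2 off using off
  obtain ⟨c, C, hc, hC, hcC⟩ := fin_bd
    ((range (n + 1) ×ˢ range (n + 1) ×ˢ range (n + 1)).filter fun p => p.2.1 + p.2.2 ≤ n)
    (fun p => c1 p.2.1 p.2.2) (fun p => max (C1 p.2.1 p.2.2) (C2 p.1 p.2.1 p.2.2))
    fun p hp => hc1 _ _ (mem_filter.1 hp).2
  have hcC' : ∀ i j m, i ≤ j → j + m ≤ n → c ≤ c1 j m ∧ C1 j m ≤ C ∧ C2 i j m ≤ C :=
    fun i j m h1 h2 => by
      have := hcC (i, j, m) (by simp only [mem_filter, mem_product, mem_range]; omega)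
      exact ⟨this.1, max_le_iff.1 this.2⟩
  obtain ⟨Kb, hKb⟩ : ∃ Kb : ℝ, Kb = ∑ i ∈ range (n + 1), |K i| := ⟨_, rfl⟩
  have hKb0 : 0 ≤ Kb := hKb ▸ sum_nonneg fun _ _ => abs_nonneg _
  obtain ⟨N, hN⟩ : ∃ N : ℝ, N = NL n := ⟨_, rfl⟩
  have hN0 : 0 ≤ N := hN ▸ NL_nonneg n
  obtain ⟨D, hD⟩ : ∃ D : ℝ, D = (2 ^ n * (Kb * C) + C) * (n + 1) := ⟨_, rfl⟩
  have hD0 : 0 ≤ D := by rw [hD]; positivity
  obtain ⟨τ0, hτ0⟩ : ∃ t : ℝ, t = c / (2 * (N * D + 1)) := ⟨_, rfl⟩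
  have hτ00 : 0 < τ0 := by rw [hτ0]; positivity
  refine ⟨min 1 (τ0 ^ 2), c / 2, lt_min one_pos (pow_pos hτ00 2), min_le_left _ _, half_pos hc, ?_⟩
  intro θ hθ hθ0 σ k G hk hG hσ hk0 hsym x
  obtain ⟨τ, hτ, rfl⟩ : ∃ τ : ℝ, 0 ≤ τ ∧ θ = τ ^ 2 :=
    ⟨√θ, Real.sqrt_nonneg _, (Real.sq_sqrt hθ.le).symm⟩
  have hτ1 : τ ≤ 1 := (sq_le_one_iff₀ hτ).1 (hθ0.trans (min_le_left _ _))
  have hτ2 : τ ≤ τ0 :=
    (pow_le_pow_iff_left₀ hτ hτ00.le two_ne_zero).1 (hθ0.trans (min_le_right _ _))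
  obtain ⟨Y, hY⟩ : ∃ Y : ℝ, Y = lev n (τ ^ 2) (σ x) fun u m => E u.length m (dXw u G x) := ⟨_, rfl⟩
  have hY0 : 0 ≤ Y := hY ▸ KK.lev_nonneg (sq_nonneg τ) fun _ _ => hE _ _ _
  have hkx := hk0 x
  have hs := (hσ x).le
  obtain ⟨Z, hZ⟩ : ∃ Z : ℝ, Z = √((n + 1) * Y) := ⟨_, rfl⟩
  have hZ0 : 0 ≤ Z := hZ ▸ Real.sqrt_nonneg _
  have hZ2 : Z ^ 2 = (n + 1) * Y := by rw [hZ, Real.sq_sqrt (by positivity)]
  have one : ∀ (u : List Ix) (m : ℕ), u.length + m ≤ n →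
      (τ ^ 2) ^ (u.length + m) * σ x ^ (2 * u.length) * E u.length m (dXw u G x) ≤ Y :=
    fun u m hu => hY ▸ single_le_lev (sq_nonneg τ)
      (φ := fun u m => E u.length m (dXw u G x)) (fun _ _ => hE _ _ _) hu
  have e4 : ∀ (u : List Ix) (m : ℕ), u.length + m ≤ n →
      τ ^ (u.length + m) * σ x ^ u.length * √(E u.length m (dXw u G x)) ≤ Z := fun u m hu => by
    rw [hZ]
    refine mul_sqrt_le (by positivity) ((le_of_eq_of_le (by ring) (one u m hu)).trans ?_)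
    have : (0 : ℝ) ≤ n := Nat.cast_nonneg n
    nlinarith
  have e3 : ∀ (v : List Ix) (a α : ℕ), v.length + a ≤ α → α ≤ n →
      τ ^ α * σ x ^ v.length * √(∑ l ∈ range a, E v.length l (dXw v G x)) ≤ τ * Z :=
    fun v a α h1 h2 => by
    rw [hZ, ← Real.sqrt_sq hτ, ← Real.sqrt_mul (sq_nonneg τ), Real.sqrt_sq hτ]
    refine mul_sqrt_le (by positivity) ?_
    rw [mul_sum]
    refine (sum_le_card_nsmul _ _ (τ ^ 2 * Y) fun l hl => ?_).trans ?_
    · have h3 := mem_range.1 hl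
      refine le_trans ?_ (mul_le_mul_of_nonneg_left (one v l (by omega)) (sq_nonneg τ))
      have h4 : (τ ^ 2) ^ α ≤ τ ^ 2 * (τ ^ 2) ^ (v.length + l) := by
        rw [← pow_succ']
        exact pow_le_pow_of_le_one (sq_nonneg τ) (pow_le_one₀ hτ hτ1) (by omega)
      have h5 := hE v.length l (dXw v G x)
      calc _ = (τ ^ 2) ^ α * (σ x ^ (2 * v.length) * E v.length l (dXw v G x)) := by ring
        _ ≤ τ ^ 2 * (τ ^ 2) ^ (v.length + l) *
            (σ x ^ (2 * v.length) * E v.length l (dXw v G x)) := by gcongr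
        _ = _ := by ring
    · rw [card_range, nsmul_eq_mul]
      have h3 : (a : ℝ) ≤ n + 1 := by exact_mod_cast (show a ≤ n + 1 by omega)
      have h4 : 0 ≤ τ ^ 2 * Y := by positivity
      nlinarith
  obtain ⟨P, hP⟩ : ∃ P : ℝ, P = τ * k x * Z ^ 2 := ⟨_, rfl⟩
  have hP0 : 0 ≤ P := by rw [hP]; positivity
  have hB0 : 0 ≤ Kb * C * P := by positivity
  have main : c * k x * lev n (τ ^ 2) (σ x) (fun u m => E u.length m (dXw u G x)) ≤
      bh n (τ ^ 2) q σ (fun y => k y • A (G y)) G x + NL n * (2 ^ n * (Kb * C * P) + C * P) := by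
    refine lev_le_add fun u m hu => ?_
    have hT : 0 ≤ τ ^ (u.length + m) := pow_nonneg hτ _
    have hW : (τ ^ 2) ^ (u.length + m) = (τ ^ (u.length + m)) ^ 2 := by ring
    rw [dXw_smul hk (hG.clm A), NW_list_sum, ← List.sum_map_mul_left, hW]
    simp only [dXw_clm hG A]
    have h1 := abs_sum_splits_sub_le u (f := fun p => (τ ^ (u.length + m)) ^ 2 *
        σ x ^ (2 * u.length) * (dXw p.1 k x *
          NW (q - 2 * u.length - m) m (A (dXw p.2 G x)) (dXw u G x))) hB0 fun p hp hlt => by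
      have hpow : σ x ^ (2 * u.length) =
          σ x ^ u.length * (σ x ^ p.1.length * σ x ^ p.2.length) := by
        rw [← pow_add, ← pow_add]; congr 1; omega
      rw [hpow, hP]
      exact off_le hτ hT hC (pow_nonneg hs _) (pow_nonneg hs _) (pow_nonneg hs _) hKb0 hkx hZ0
        (Real.sqrt_nonneg _) (hKb ▸ sym_le hk0 hsym (by omega) x)
        (bd_mono (off _ _ _ hlt hu _ _) (hC2 _ _ _ hlt hu) (hcC' _ _ _ hlt.le hu).2.2 le_rfl le_rfl)
        (e3 _ _ _ (by omega) hu) (e4 u m hu)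
    have h1' : (2 : ℝ) ^ u.length * (Kb * C * P) ≤ 2 ^ n * (Kb * C * P) :=
      mul_le_mul_of_nonneg_right (pow_le_pow_right₀ one_le_two (by omega)) hB0
    have h5 := (abs_le.1 h1).1
    simp only [dXw_nil] at h5
    obtain ⟨h6, h7, -⟩ := hcC' 0 u.length m (Nat.zero_le _) hu
    have h8 := (mul_le_mul_of_nonneg_right h6 (hE _ _ (dXw u G x))).trans (top _ _ hu (dXw u G x))
    have h9 := bd_mono (le_refl (C1 u.length m * √(∑ l ∈ range m, E u.length l (dXw u G x)) *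
      √(E u.length m (dXw u G x)))) (hC1 _ _ hu) h7 le_rfl le_rfl
    have h10 := mul_le_mul (e3 u m _ le_rfl hu) (e4 u m hu) (by positivity) (by positivity)
    have h11 := mul_le_mul_of_nonneg_left h10 (mul_nonneg hC hkx)
    have h12 := mul_le_mul_of_nonneg_left (h8.trans (add_le_add le_rfl h9))
      (show 0 ≤ k x * ((τ ^ (u.length + m)) ^ 2 * σ x ^ (2 * u.length)) by positivity)
    have h13 : C * k x * (τ * Z * Z) = C * P := by rw [hP]; ring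
    have h14 : σ x ^ (2 * u.length) = σ x ^ u.length * σ x ^ u.length := by ring
    rw [h14] at h5 h12 ⊢
    linarith
  rw [← hY, ← hN] at main
  rw [← hY]
  have h1 : N * D * τ ≤ c / 2 := by
    have h2 : τ0 * (2 * (N * D + 1)) = c := by rw [hτ0]; field_simp
    have h3 := mul_le_mul_of_nonneg_left hτ2 (mul_nonneg hN0 hD0)
    linarith
  have h2 := mul_le_mul_of_nonneg_right h1 (mul_nonneg hkx hY0)
  have h3 : N * (2 ^ n * (Kb * C * P) + C * P) = N * D * τ * (k x * Y) := by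
    rw [hP, hZ2, hD]; ring
  linarith

/-! ### The velocity estimates -/

lemma ipW_add (q : ℝ) (f f' g : SV) : ipW q (f + f') g = ipW q f g + ipW q f' g := by simp [ipW]

lemma ipW_smul (q c : ℝ) (f g : SV) : ipW q (c • f) g = c * ipW q f g := by simp [ipW]

lemma ipW_neg (q : ℝ) (f g : SV) : ipW q (-f) g = -ipW q f g := by simp [ipW]

lemma ipW_Sq_nonneg (q : ℝ) (f : SV) : 0 ≤ ipW q (Sq f) f := by
  rw [ipW_eq]
  refine integral_nonneg fun v => mul_nonneg (by positivity) ?_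
  rw [Sq_apply, mul_assoc]
  exact mul_nonneg (sqM_pos v).le (mul_self_nonneg _)

variable {Q : CollOp} (X : HOp Q)

/-- The dissipation at level `m`. -/
def DW (r m : ℕ) (f : SV) : ℝ := ∑ w ∈ words m, X.D r (apW w f)

lemma DW_nonneg (r m : ℕ) (f : SV) : 0 ≤ DW X r m f := sum_nonneg fun _ _ => D_nonneg X _ _

lemma D_le_DW (r : ℕ) (w : List Ix) (f : SV) : X.D r (apW w f) ≤ DW X r w.length f :=
  single_le_sum (f := fun v => X.D r (apW v f)) (fun _ _ => D_nonneg X _ _) (mem_words.2 rfl)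

lemma D_le_sum (r : ℕ) {w : List Ix} {m : ℕ} (h : w.length < m) (f : SV) :
    X.D r (apW w f) ≤ ∑ l ∈ range m, DW X r l f :=
  (D_le_DW X r w f).trans (single_le_sum (f := fun l => DW X r l f)
    (fun _ _ => DW_nonneg X _ _ _) (mem_range.2 h))

lemma ipW_le_D (r : ℕ) (f : SV) : ipW r f f ≤ X.D r f :=
  (ipW_mono (by linarith) f).trans (X.low r f)

lemma NW_le_DW (r m : ℕ) (f : SV) : NW r m f f ≤ DW X r m f := by
  rw [NW_eq]
  exact sum_le_sum fun _ _ => ipW_le_D X r _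

lemma G_bd {r : ℕ} (hr : X.q0 ≤ r) (a : SV) : ∃ C : ℝ, 0 ≤ C ∧ ∀ f g,
    |ipW r (Q.G a f) g| ≤ C * √(X.D (r + 1) f) * √(X.D r g) := by
  obtain ⟨C0, hC0, h0⟩ := X.mono
  obtain ⟨C1, hC1, h1⟩ := X.t1 r hr
  obtain ⟨C2, hC2, h2⟩ := X.t2 r hr
  have hC0' : 0 ≤ C0 := zero_le_one.trans hC0
  refine ⟨C1 * (√(bW X.p X.p a) + √(bW (r + X.p) X.p a) * √C0)
    + C2 * (√C0 * √(bW (r + X.p) X.p a)), by positivity, fun f g => ?_⟩
  have h3 : √(X.D r f) ≤ √C0 * √(X.D (r + 1) f) := by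
    rw [← Real.sqrt_mul hC0']; exact Real.sqrt_le_sqrt (h0 r f)
  have h4 : trf X.p r a f ≤ √(bW (r + X.p) X.p a) * (√C0 * √(X.D (r + 1) f)) :=
    (min_le_right _ _).trans (mul_le_mul_of_nonneg_left
      ((Real.sqrt_le_sqrt (ipW_le_D X r f)).trans h3) (Real.sqrt_nonneg _))
  have h5 := (Real.sqrt_le_sqrt (X.low r f)).trans h3
  rw [Q.G_eq, ipW_add]
  calc _ ≤ |ipW r (Q.G1 a f) g| + |ipW r (Q.G1 f a) g| := abs_add_le _ _
    _ ≤ C1 * (√(bW X.p X.p a) * √(X.D (r + 1) f)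
          + √(bW (r + X.p) X.p a) * (√C0 * √(X.D (r + 1) f))) * √(X.D r g)
        + C2 * (√C0 * √(X.D (r + 1) f) * √(bW (r + X.p) X.p a)) * √(X.D r g) :=
        add_le_add ((h1 a f g).trans (by gcongr)) ((h2 f a g).trans (by gcongr))
    _ = _ := by ring

lemma comm_L {r : ℕ} (hr : X.q0 ≤ r) (m : ℕ) : ∃ C : ℝ, 0 ≤ C ∧ ∀ f g,
    |NW r m (Q.L f) g - ∑ w ∈ words m, ipW r (Q.L (apW w f)) (apW w g)|
      ≤ C * √(∑ l ∈ range m, DW X (r + 1) l f) * √(DW X r m g) := by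
  choose C hC h using fun v : List Ix => G_bd X hr (apW v sqMS)
  obtain ⟨a, B, -, hB, hb⟩ := fin_bd ((range (m + 1)).biUnion words) (fun _ => 1) C
    fun _ _ => one_pos
  refine ⟨(dd : ℝ) ^ m * (2 ^ m * B), by positivity, fun f g => ?_⟩
  rw [NW_eq, ← sum_sub_distrib, mul_assoc, mul_assoc, mul_assoc, ← mul_assoc B]
  refine abs_sum_words_le le_rfl (by positivity) fun w hw => ?_
  have h1 := abs_sum_splits_sub_le w
    (f := fun p => ipW r (Q.G (apW p.1 sqMS) (apW p.2 f)) (apW w g))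
    (B := B * √(∑ l ∈ range m, DW X (r + 1) l f) * √(DW X r m g)) (by positivity)
    fun p hp hlt => bd_mono (h p.1 _ _) (hC _)
      (hb _ (mem_biUnion.2 ⟨p.1.length, mem_range.2 (by omega), mem_words.2 rfl⟩)).2
      (D_le_sum X _ (by omega) f) (hw ▸ D_le_DW X r w g)
  rw [Q.L_eq, Q.L_eq, map_neg, ipW_neg, ipW_neg, neg_sub_neg, abs_sub_comm, apW_G, ipW,
    ip_list_sum, ← hw]
  rw [← hw] at h1
  exact h1

lemma comm_A (hV : VHStmt) {r : ℕ} (hr : X.q0 ≤ r) {N : ℝ} (hN : 0 ≤ N) (m : ℕ) :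
    ∃ C : ℝ, 0 ≤ C ∧ ∀ f g, |NW r m (Q.L f + N • Sq f) g -
      ∑ w ∈ words m, ipW r (Q.L (apW w f) + N • Sq (apW w f)) (apW w g)|
        ≤ C * √(∑ l ∈ range m, DW X (r + 1) l f) * √(DW X r m g) := by
  obtain ⟨C1, hC1, h1⟩ := comm_L X hr m
  obtain ⟨C2, hC2, h2⟩ := hV.sqc r ((r + 1 : ℕ) : ℝ) m
  refine ⟨C1 + N * C2, by positivity, fun f g => ?_⟩
  have h3 := mul_le_mul_of_nonneg_left (bd_mono (h2 f g) hC2.le le_rfl
    (sum_le_sum fun l _ => NW_le_DW X (r + 1) l f) (NW_le_DW X r m g)) hN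
  have e : NW r m (Q.L f + N • Sq f) g -
      ∑ w ∈ words m, ipW r (Q.L (apW w f) + N • Sq (apW w f)) (apW w g) =
      (NW r m (Q.L f) g - ∑ w ∈ words m, ipW r (Q.L (apW w f)) (apW w g)) +
        N * (NW r m (Sq f) g - ∑ w ∈ words m, ipW r (Sq (apW w f)) (apW w g)) := by
    simp only [ipW_add, ipW_smul, sum_add_distrib, ← mul_sum, NW, map_add, map_smul,
      LinearMap.add_apply, LinearMap.smul_apply, smul_eq_mul]
    ring
  rw [e]
  refine (abs_add_le _ _).trans ?_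
  rw [abs_mul, abs_of_nonneg hN]
  linarith [h1 f g]

lemma A_bd (hV : VHStmt) {r : ℕ} (hr : X.q0 ≤ r) {N : ℝ} (hN : 0 ≤ N) : ∃ C : ℝ, 0 ≤ C ∧ ∀ f g,
    |ipW r (Q.L f + N • Sq f) g| ≤ C * √(X.D (r + 1) f) * √(X.D r g) := by
  obtain ⟨C1, hC1, h1⟩ := G_bd X hr sqMS
  obtain ⟨C2, hC2, h2⟩ := hV.sqb r ((r + 1 : ℕ) : ℝ) 0
  refine ⟨C1 + N * (1 * √C2), by positivity, fun f g => ?_⟩
  have h3 : |ipW r (Sq f) g| ≤ 1 * √(NW r 0 (Sq f) (Sq f)) * √(X.D r g) :=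
    bd_mono (a := NW r 0 (Sq f) (Sq f)) (b := NW r 0 g g)
      (by rw [one_mul]; exact hV.cs r r r 0 (by linarith) _ _) zero_le_one le_rfl le_rfl
      (ipW_le_D X r g)
  have h4 : bW ((r + 1 : ℕ) : ℝ) 0 f ≤ X.D (r + 1) f := by
    rw [bW, zero_add, sum_range_one]
    exact ipW_le_D X (r + 1) f
  have h5 := mul_le_mul_of_nonneg_left (bd_scale h3 zero_le_one hC2.le
    ((h2 f).trans (mul_le_mul_of_nonneg_left h4 hC2.le))) hN
  rw [ipW_add, ipW_smul, Q.L_eq, ipW_neg]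
  refine (abs_add_le _ _).trans ?_
  rw [abs_mul, abs_of_nonneg hN, abs_neg]
  linarith [h1 f g]

lemma off_A (hV : VHStmt) {r : ℕ} (hr : X.q0 ≤ r) {N : ℝ} (hN : 0 ≤ N) (m : ℕ) :
    ∃ C : ℝ, 0 ≤ C ∧ ∀ f g, |NW r m (Q.L f + N • Sq f) g|
      ≤ C * √(∑ l ∈ range (m + 1), DW X (r + 1) l f) * √(DW X r m g) := by
  obtain ⟨C1, hC1, h1⟩ := comm_A X hV hr hN m
  obtain ⟨C2, hC2, h2⟩ := A_bd X hV hr hN
  refine ⟨C1 + (dd : ℝ) ^ m * C2, by positivity, fun f g => ?_⟩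
  have h3 := bd_mono (h1 f g) hC1 le_rfl (sum_le_sum_of_subset_of_nonneg
    (range_mono (Nat.le_succ m)) fun l _ _ => DW_nonneg X (r + 1) l f) le_rfl
  have h4 := abs_sum_words_le (le_refl m)
    (f := fun w => ipW r (Q.L (apW w f) + N • Sq (apW w f)) (apW w g))
    (B := C2 * √(∑ l ∈ range (m + 1), DW X (r + 1) l f) * √(DW X r m g)) (by positivity)
    fun w hw => bd_mono (h2 _ _) hC2 le_rfl (D_le_sum X _ (by omega) f) (hw ▸ D_le_DW X r w g)
  have h5 := abs_sub_abs_le_abs_sub (NW r m (Q.L f + N • Sq f) g)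
    (∑ w ∈ words m, ipW r (Q.L (apW w f) + N • Sq (apW w f)) (apW w g))
  linarith

end GainH

open GainH HE

variable [Dim]

theorem gainH (hV : VHStmt) : GainHStmt := by
  intro Q X K n q hq
  choose! c N1 hc hN1 coer using X.coer
  obtain ⟨a, N0, -, hN0, hb⟩ := fin_bd (range (q + 1)) (fun _ => 1) N1 fun _ _ => one_pos
  refine ⟨N0, fun N hN => ?_⟩
  have hN' := hN0.trans hN
  obtain ⟨M, hM, hD⟩ := D_mono X q
  have hM0 : 0 ≤ M := zero_le_one.trans hM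
  have cast : ∀ j m : ℕ, j + m ≤ n → (q : ℝ) - 2 * j - m = ((q - (2 * j + m) : ℕ) : ℝ) :=
    fun j m h => by
      rw [Nat.cast_sub (by omega)]
      push_cast
      ring
  have low : ∀ (i j m a : ℕ) (f : SV), j + m ≤ n → 2 * i + a ≤ 2 * j + m →
      ∑ l ∈ range a, DW X (q - (2 * j + m) + 1) l f ≤
        M * ∑ l ∈ range a, DW X (q - (2 * i + l)) l f := fun i j m a f h1 h2 => by
    rw [mul_sum]
    refine sum_le_sum fun l hl => ?_
    have h3 := mem_range.1 hl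
    rw [DW, DW, mul_sum]
    exact sum_le_sum fun w _ => hD _ _ _ (by omega) (by omega)
  refine absorb (Q.L + N • Sq) (fun j m f => DW X (q - (2 * j + m)) m f)
    (fun _ _ _ => DW_nonneg X _ _ _) K n q (fun j m h => ?_) fun i j m hi h => ?_
  · have hr : X.q0 ≤ q - (2 * j + m) := by omega
    obtain ⟨C, hC, h1⟩ := comm_A X hV hr hN' m
    refine ⟨c _, C * √M, hc _ hr, by positivity, fun f => ?_⟩
    have h2 := (abs_le.1 (bd_scale (h1 f f) hC hM0 (low j j m m f h le_rfl))).1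
    have h3 : c (q - (2 * j + m)) * DW X (q - (2 * j + m)) m f ≤ ∑ w ∈ words m,
        ipW (q - (2 * j + m) : ℕ) (Q.L (apW w f) + N • Sq (apW w f)) (apW w f) := by
      rw [DW, mul_sum]
      refine sum_le_sum fun w _ => (coer _ hr _).trans ?_
      rw [ipW_add, ipW_add, ipW_smul, ipW_smul]
      exact add_le_add le_rfl (mul_le_mul_of_nonneg_right
        ((hb _ (mem_range.2 (by omega))).2.trans hN) (ipW_Sq_nonneg _ _))
    rw [cast j m h]
    change _ ≤ NW _ m (Q.L f + N • Sq f) f + _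
    linarith
  · have hr : X.q0 ≤ q - (2 * j + m) := by omega
    obtain ⟨C, hC, h1⟩ := off_A X hV hr hN' m
    refine ⟨C * √M, by positivity, fun f g => ?_⟩
    rw [cast j m h]
    exact bd_scale (h1 f g) hC hM0 (low i j m (m + 1) f h (by omega))

theorem jwH (hV : VHStmt) : JwHStmt := by
  intro K n q
  obtain ⟨θ0, c, h0, -, hc, h⟩ := absorb (Jw 4) (fun j m f => NW (q - 2 * j - m + 4) m f f)
    (fun _ _ _ => NW_nonneg _ _ _) K n q
    (fun j m _ => by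
      obtain ⟨C, hC, h1⟩ := hV.jwc (q - 2 * j - m) m
      refine ⟨1, C, one_pos, hC.le, fun f => ?_⟩
      have h2 := bd_mono (h1 f f) hC.le le_rfl (sum_le_sum fun l hl =>
        NW_mono (q' := q - 2 * j - l + 4) (by
          have : (l : ℝ) ≤ m := Nat.cast_le.2 (mem_range.1 hl).le
          linarith) l f) le_rfl
      linarith [(abs_le.1 h2).1])
    (fun i j m hi _ => by
      obtain ⟨C, hC, h1⟩ := hV.jwc (q - 2 * j - m) m
      refine ⟨C + 1, by positivity, fun f g => ?_⟩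
      have hi' : (i : ℝ) ≤ j := Nat.cast_le.2 hi.le
      have h2 : ∑ l ∈ range (m + 1), NW (q - 2 * j - m + 4) l f f ≤
          ∑ l ∈ range (m + 1), NW (q - 2 * i - l + 4) l f f := sum_le_sum fun l hl =>
        NW_mono (by
          have : (l : ℝ) ≤ m := Nat.cast_le.2 (Nat.lt_succ_iff.1 (mem_range.1 hl))
          linarith) l f
      have h3 := bd_mono (h1 f g) hC.le le_rfl ((sum_le_sum_of_subset_of_nonneg
        (range_mono (Nat.le_succ m)) fun l _ _ => NW_nonneg _ l f).trans h2) le_rfl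
      have h4 := (hV.cs (q - 2 * j - m + 4) _ _ m (by linarith) f g).trans
        (mul_le_mul_of_nonneg_right (Real.sqrt_le_sqrt ((NW_le_bW _ (le_refl m) f).trans h2))
          (Real.sqrt_nonneg (NW (q - 2 * j - m + 4) m g g)))
      have h5 := abs_sub_abs_le_abs_sub (NW (q - 2 * j - m) m (Jw 4 f) g)
        (NW (q - 2 * j - m + 4) m f g)
      linarith)
  exact ⟨θ0, h0, fun θ hθ hθ0 σ k G hk hG hσ hk0 hs x => le_trans
    (mul_nonneg (mul_nonneg hc.le (hk0 x)) (KK.lev_nonneg hθ.le fun _ _ => NW_nonneg _ _ _))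
    (h θ hθ hθ0 σ k G hk hG hσ hk0 hs x)⟩

end Pool.Agent.BoltzM
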