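import Pool.Agent.BoltzM.Spec.Hot
import Pool.Agent.BoltzM.Gain.Gam

/-! The pointwise trilinear estimates `GamHStmt`. -/

set_option autoImplicit false

open Pool.Agent.BoltzM.BoltzC Finset

noncomputable section

namespace Pool.Agent.BoltzM

open Gain

variable [Dim]

namespace GamH

lemma abs_sum_splits {n : ℕ} {u : List Ix} (hu : u.length ≤ n) {f : List Ix × List Ix → ℝ} {B : ℝ}
    (hB : 0 ≤ B) (h : ∀ p, p.1.length + p.2.length = u.length → (p.1 = [] → p.2 = u) → |f p| ≤ B) :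
    |((splits u).map f).sum| ≤ 2 ^ n * B := by
  refine le_trans (b := 2 ^ u.length * B) ?_ (by gcongr; norm_num)
  clear hu
  induction u generalizing f with
  | nil => simpa [splits] using h ([], []) rfl fun _ => rfl
  | cons i u ih =>
    have h1 := ih (f := fun p => f (i :: p.1, p.2)) fun p hp _ =>
      h _ (by simp; omega) (by simp)
    have h2 := ih (f := fun p => f (p.1, i :: p.2)) fun p hp hq =>
      h _ (by simp; omega) fun h0 => congrArg (i :: ·) (hq h0)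
    simp only [splits, List.map_append, List.map_map, List.sum_append, List.length_cons, pow_succ]
    refine (abs_add_le _ _).trans ?_
    simp only [Function.comp_def]
    linarith

lemma apW_G1 (Q : CollOp) (w : List Ix) (f g : SV) :
    apW w (Q.G1 f g) = ((splits w).map fun p => Q.G1 (apW p.1 f) (apW p.2 g)).sum := by
  induction w with
  | nil => simp [splits]
  | cons j w ih =>
    rw [apW_cons, ih, map_list_sum]
    simp [splits, Function.comp_def, Q.leib1, List.sum_map_add]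

lemma ip_G1_RW (Q : CollOp) (r : ℝ) (a b g : SV) (m : ℕ) :
    ip (Q.G1 a b) (RW r m g) = ∑ w ∈ words m, ((splits w).map fun p =>
      ipW r (Q.G1 (apW p.1 a) (apW p.2 b)) (apW w g)).sum := by
  refine (NW_eq r m _ g).trans (sum_congr rfl fun w _ => ?_)
  rw [apW_G1, ipW, ip_list_sum]
  rfl

lemma NW_apW_le (r : ℝ) (l : ℕ) (w : List Ix) (f : SV) :
    NW r l (apW w f) (apW w f) ≤ NW r (w.length + l) f f := by
  induction w generalizing l with
  | nil => simp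
  | cons j w ih =>
    refine le_trans ?_ ((ih (l + 1)).trans (le_of_eq ?_))
    · rw [NW_eq, NW_eq, sum_words_succ, apW_cons]
      simp only [apW_ap, apW_cons]
      exact single_le_sum (f := fun i => ∑ v ∈ words l,
        ipW r (ap i (apW v (apW w f))) (ap i (apW v (apW w f))))
        (fun _ _ => sum_nonneg fun _ _ => ipW_nonneg _ _) (mem_univ j)
    · rw [List.length_cons, Nat.add_right_comm, Nat.add_assoc]

lemma lo_le {n q p r : ℕ} {σ : E3 → ℝ} (hσ : ∀ x, 0 < σ x) (G : E3 → SV) (x : E3)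
    {u w : List Ix} (hu : u.length + w.length + p ≤ n - dd)
    (hr : r + 2 * dd + 2 * u.length + w.length + p ≤ q) :
    σ x ^ u.length * √(bW r p (apW w (dXw u G x))) ≤ (p + 1) * √(loH n q σ G x) := by
  have hs := hσ x
  have h0 : ∀ l ∈ range (p + 1), σ x ^ (2 * u.length)
      * NW r l (apW w (dXw u G x)) (apW w (dXw u G x)) ≤ loH n q σ G x := by
    intro l hl
    have hl' := mem_range.1 hl
    have h := single_le_lev (n := n - dd) (σ := σ x) zero_le_one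
      (φ := fun u m => NW ((q : ℝ) - 2 * dd - 2 * u.length - m) m (dXw u G x) (dXw u G x))
      (fun _ _ => NW_nonneg _ _ _) (u := u) (m := w.length + l) (by omega)
    rw [one_pow, one_mul] at h
    refine le_trans (mul_le_mul_of_nonneg_left ((NW_apW_le _ l w _).trans (NW_mono ?_ _ _))
      (by positivity)) h
    have : ((r + 2 * dd + 2 * u.length + (w.length + l) : ℕ) : ℝ) ≤ q := Nat.cast_le.2 (by omega)
    push_cast at this ⊢
    linarith
  have h1 : 0 ≤ loH n q σ G x := le_trans (mul_nonneg (by positivity) (NW_nonneg _ _ _))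
    (h0 0 (by simp))
  have h2 : (1 : ℝ) ≤ p + 1 := by linarith [Nat.cast_nonneg (α := ℝ) p]
  rw [← Real.sqrt_sq (show (0 : ℝ) ≤ p + 1 by linarith), ← Real.sqrt_mul (sq_nonneg _)]
  refine mul_sqrt_le (by positivity) ?_
  rw [← pow_mul, mul_comm u.length 2, bW, mul_sum]
  refine (sum_le_card_nsmul _ _ _ h0).trans ?_
  rw [card_range, nsmul_eq_mul]
  push_cast
  exact mul_le_mul_of_nonneg_right (by nlinarith) h1

variable {Q : CollOp} (X : HOp Q)

lemma D_nn (q : ℕ) (f : SV) : 0 ≤ X.D q f := (ipW_nonneg _ f).trans (X.low q f)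

lemma D_le : ∀ q : ℕ, ∃ M : ℝ, 1 ≤ M ∧ ∀ i i', i ≤ i' → i' ≤ q → ∀ f,
    √(X.D i f) ≤ M * √(X.D i' f) := by
  obtain ⟨C, hC, h⟩ := X.mono
  have key : ∀ i d f, X.D i f ≤ C ^ d * X.D (i + d) f := by
    intro i d f
    induction d with
    | zero => simp
    | succ d ih =>
      rw [pow_succ, mul_assoc]
      exact ih.trans (mul_le_mul_of_nonneg_left (h _ f) (by positivity))
  refine fun q => ⟨C ^ q, one_le_pow₀ hC, fun i i' hi hq f => ?_⟩
  obtain ⟨d, rfl⟩ := Nat.exists_eq_add_of_le hi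
  rw [← Real.sqrt_sq (show (0 : ℝ) ≤ C ^ q by positivity), ← Real.sqrt_mul (sq_nonneg _)]
  refine Real.sqrt_le_sqrt ((key i d f).trans (mul_le_mul_of_nonneg_right ?_ (D_nn X _ f)))
  rw [← pow_mul]
  exact pow_le_pow_right₀ hC (by omega)

lemma hi_le {n a q : ℕ} {θ : ℝ} (hθ : 0 ≤ θ) (hθ1 : θ ≤ 1) {σ : E3 → ℝ} (hσ : ∀ x, 0 < σ x)
    (G : E3 → SV) (x : E3) {u w : List Ix} (hu : u.length + w.length ≤ n)
    (ha : u.length + w.length ≤ 2 * a) :
    θ ^ a * σ x ^ u.length * √(X.D (q - (2 * u.length + w.length)) (apW w (dXw u G x)))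
      ≤ √(YH X n θ q σ G x) := by
  have := hσ x
  have h := single_le_lev (n := n) (σ := σ x) hθ
    (φ := fun u m => ∑ w ∈ words m, X.D (q - (2 * u.length + m)) (apW w (dXw u G x)))
    (fun _ _ => sum_nonneg fun _ _ => D_nn X _ _) hu
  refine mul_sqrt_le (by positivity) (le_trans ?_ h)
  rw [mul_pow, ← pow_mul, ← pow_mul, mul_comm u.length 2]
  refine mul_le_mul (mul_le_mul_of_nonneg_right (pow_le_pow_of_le_one hθ hθ1 (by omega))
    (by positivity)) ?_ (D_nn X _ _) (by positivity)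
  exact single_le_sum (f := fun v => X.D (q - (2 * u.length + w.length)) (apW v (dXw u G x)))
    (fun _ _ => D_nn X _ _) (mem_words.2 rfl)

lemma trf_nonneg (p : ℕ) (q : ℝ) (a f : SV) : 0 ≤ trf p q a f :=
  le_min (by positivity) (by positivity)

/-- the three estimates at one weight -/
def Est (q : ℕ) (C : ℝ) : Prop :=
  (∀ a f, |ipW q (Q.G1 a f) f|
    ≤ C * (√(bW X.p X.p a) * √(X.D q f) + trf X.p q a f) * √(X.D q f)) ∧
  (∀ a f g, |ipW q (Q.G1 a f) g|
    ≤ C * (√(bW X.p X.p a) * √(X.D (q + 1) f) + trf X.p q a f) * √(X.D q g)) ∧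
  ∀ a f g, |ipW q (Q.G1 a f) g|
    ≤ C * (√(ipW (q + 199 / 200) a a) * √(bW (q + X.p) X.p f)) * √(X.D q g)

lemma Est.mono {q : ℕ} {C C' : ℝ} (h : Est X q C) (hC : C ≤ C') : Est X q C' := by
  refine ⟨fun a f => (h.1 a f).trans ?_, fun a f g => (h.2.1 a f g).trans ?_,
    fun a f g => (h.2.2 a f g).trans ?_⟩
  all_goals
    have := trf_nonneg X.p q a f
    gcongr

lemma unif (q : ℕ) : ∃ C : ℝ, 0 < C ∧ ∀ i, X.q0 ≤ i → i ≤ q → Est X i C := by
  have one : ∀ i, X.q0 ≤ i → ∃ C : ℝ, 0 < C ∧ Est X i C := by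
    intro i hi
    obtain ⟨C1, p1, h1⟩ := X.t1d i hi
    obtain ⟨C2, p2, h2⟩ := X.t1 i hi
    obtain ⟨C3, p3, h3⟩ := X.t2 i hi
    refine ⟨C1 + C2 + C3, by positivity, fun a f => (h1 a f).trans ?_,
      fun a f g => (h2 a f g).trans ?_, fun a f g => (h3 a f g).trans ?_⟩
    all_goals
      have := trf_nonneg X.p i a f
      gcongr
      linarith
  choose! C hC h using one
  refine ⟨∑ i ∈ range (q + 1), |C i| + 1, by positivity, fun i h0 hi => (h i h0).mono X ?_⟩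
  have := single_le_sum (f := fun i => |C i|) (fun _ _ => abs_nonneg _)
    (mem_range.2 (show i < q + 1 by omega))
  linarith [le_abs_self (C i)]

omit [Dim] in
lemma pair_le {θn s₁ s₂ a b M P L Y b' : ℝ} (h0 : 0 ≤ θn) (h1 : 0 ≤ s₁) (h2 : 0 ≤ s₂) (ha : 0 ≤ a)
    (hb : 0 ≤ b) (hM : 0 ≤ M) (e1 : s₁ * a ≤ P * L) (e2 : b ≤ M * b') (e3 : θn * s₂ * b' ≤ Y) :
    θn * (s₁ * s₂) * (a * b) ≤ M * P * (L * Y) := by
  have h3 : 0 ≤ P * L := le_trans (by positivity) e1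
  calc _ = (s₁ * a) * (θn * s₂ * b) := by ring
    _ ≤ (P * L) * (θn * s₂ * (M * b')) := by gcongr
    _ = M * (P * L) * (θn * s₂ * b') := by ring
    _ ≤ M * (P * L) * Y := by gcongr
    _ = _ := by ring

/-- one term of the expansion -/
lemma term {n q q' : ℕ} {θ C M : ℝ} (hn : 3 * dd + 3 * X.p ≤ n) (hq : 2 * n + X.q0 ≤ q)
    (hθ : 0 ≤ θ) (hθ1 : θ ≤ 1) (hC : 0 ≤ C) (hM : 1 ≤ M) (hq1 : q ≤ q') (hq2 : q' ≤ q + 1)
    (hD : ∀ i i', i ≤ i' → i' ≤ q + 1 → ∀ f, √(X.D i f) ≤ M * √(X.D i' f))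
    {σ : E3 → ℝ} (hσ : ∀ x, 0 < σ x) (a f : E3 → SV) (x : E3) (g : SV) {u₁ u₂ w₁ w₂ : List Ix}
    {i : ℕ} (hE : Est X i C) (hu : u₁.length + u₂.length + (w₁.length + w₂.length) ≤ n)
    (hi : i + (2 * (u₁.length + u₂.length) + (w₁.length + w₂.length)) ≤ q)
    (hd : i + 1 + (2 * u₂.length + w₂.length) ≤ q' ∨ g = apW w₂ (dXw u₂ f x)) :
    θ ^ n * (σ x ^ u₁.length * σ x ^ u₂.length)
        * |ipW i (Q.G1 (apW w₁ (dXw u₁ a x)) (apW w₂ (dXw u₂ f x))) g|
      ≤ C * (2 * (M * (X.p + 1))) * (√(loH n q σ a x) * √(YH X n θ q' σ f x)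
        + √(YH X n θ q σ a x) * √(loH n q σ f x)) * √(X.D i g) := by
  have hp := X.p_le
  have hs := (hσ x).le
  have hM0 : 0 ≤ M := by linarith
  have t0 := pow_nonneg hθ n
  have t1 := pow_nonneg hs u₁.length
  have t2 := pow_nonneg hs u₂.length
  have hA := hi_le X (n := n) (a := n) (q := q) hθ hθ1 hσ a x (u := u₁) (w := w₁) (by omega)
    (by omega)
  have hF := hi_le X (n := n) (a := n) (q := q') hθ hθ1 hσ f x (u := u₂) (w := w₂) (by omega)
    (by omega)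
  have lA := fun r => lo_le (n := n) (q := q) (p := X.p) (r := r) hσ a x (u := u₁) (w := w₁)
  have lF := fun r => lo_le (n := n) (q := q) (p := X.p) (r := r) hσ f x (u := u₂) (w := w₂)
  have p1 : 0 ≤ M * (X.p + 1) * (√(loH n q σ a x) * √(YH X n θ q' σ f x)) := by positivity
  have p2 : 0 ≤ M * (X.p + 1) * (√(YH X n θ q σ a x) * √(loH n q σ f x)) := by positivity
  generalize apW w₁ (dXw u₁ a x) = A at *
  generalize apW w₂ (dXw u₂ f x) = F at *
  generalize √(loH n q σ a x) = La at *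
  generalize √(YH X n θ q' σ f x) = Yf at *
  generalize √(YH X n θ q σ a x) = Ya at *
  generalize √(loH n q σ f x) = Lf at *
  have dA : √(ipW (i + 199 / 200) A A) ≤ M * √(X.D (q - (2 * u₁.length + w₁.length)) A) :=
    (Real.sqrt_le_sqrt (X.low i A)).trans (hD _ _ (by omega) (by omega) A)
  have dF : √(ipW i F F) ≤ M * √(X.D (q' - (2 * u₂.length + w₂.length)) F) :=
    (Real.sqrt_le_sqrt ((ipW_mono (by linarith) F).trans (X.low i F))).trans
      (hD _ _ (by omega) (by omega) F)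
  have c1 : ∀ {r : ℕ} {b : ℝ}, u₁.length + w₁.length + X.p ≤ n - dd →
      r + 2 * dd + 2 * u₁.length + w₁.length + X.p ≤ q → 0 ≤ b →
      b ≤ M * √(X.D (q' - (2 * u₂.length + w₂.length)) F) →
      θ ^ n * (σ x ^ u₁.length * σ x ^ u₂.length) * (√(bW r X.p A) * b)
        ≤ M * (X.p + 1) * (La * Yf) := fun h1 h2 hb h3 =>
    pair_le t0 t1 t2 (Real.sqrt_nonneg _) hb hM0 (lA _ h1 h2) h3 hF
  have c2 : ∀ {r : ℕ}, u₂.length + w₂.length + X.p ≤ n - dd →
      r + 2 * dd + 2 * u₂.length + w₂.length + X.p ≤ q →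
      θ ^ n * (σ x ^ u₁.length * σ x ^ u₂.length) * (√(ipW (i + 199 / 200) A A) * √(bW r X.p F))
        ≤ M * (X.p + 1) * (Ya * Lf) := fun h1 h2 => by
    rw [mul_comm (σ x ^ u₁.length), mul_comm √(ipW _ A A), mul_comm Ya]
    exact pair_le t0 t2 t1 (Real.sqrt_nonneg _) (Real.sqrt_nonneg _) hM0 (lF _ h1 h2) dA hA
  have fin : ∀ {t T : ℝ}, t ≤ C * T * √(X.D i g) →
      θ ^ n * (σ x ^ u₁.length * σ x ^ u₂.length) * T
        ≤ 2 * (M * (X.p + 1)) * (La * Yf + Ya * Lf) →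
      θ ^ n * (σ x ^ u₁.length * σ x ^ u₂.length) * t
        ≤ C * (2 * (M * (X.p + 1))) * (La * Yf + Ya * Lf) * √(X.D i g) := by
    intro t T h1 h2
    calc _ ≤ θ ^ n * (σ x ^ u₁.length * σ x ^ u₂.length) * (C * T * √(X.D i g)) := by gcongr
      _ = C * (θ ^ n * (σ x ^ u₁.length * σ x ^ u₂.length) * T) * √(X.D i g) := by ring
      _ ≤ C * (2 * (M * (X.p + 1)) * (La * Yf + Ya * Lf)) * √(X.D i g) := by gcongr
      _ = _ := by ring
  rcases le_or_gt (u₁.length + w₁.length + X.p) (n - dd) with h1 | h1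
  · obtain ⟨i', hi', ht⟩ : ∃ i', i' ≤ q' - (2 * u₂.length + w₂.length) ∧ |ipW i (Q.G1 A F) g|
        ≤ C * (√(bW X.p X.p A) * √(X.D i' F) + trf X.p i A F) * √(X.D i g) := by
      rcases hd with hd | rfl
      · exact ⟨i + 1, by omega, hE.2.1 A F g⟩
      · exact ⟨i, by omega, hE.1 A g⟩
    refine fin ht ?_
    have e1 := c1 (r := X.p) h1 (by omega) (Real.sqrt_nonneg _) (hD _ _ hi' (by omega) F)
    rw [mul_add, trf]
    rcases le_or_gt (u₂.length + w₂.length + X.p) (n - dd) with h2 | h2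
    · have e2 := (mul_le_mul_of_nonneg_left
        (min_le_left _ (√(bW (i + X.p) X.p A) * √(ipW i F F)))
        (mul_nonneg t0 (mul_nonneg t1 t2))).trans (c2 (r := X.p) h2 (by omega))
      linarith
    · have e3 := c1 (r := i + X.p) h1 (by omega) (Real.sqrt_nonneg _) dF
      rw [Nat.cast_add] at e3
      have e2 := (mul_le_mul_of_nonneg_left
        (min_le_right (√(ipW (i + 199 / 200) A A) * √(bW X.p X.p F)) _)
        (mul_nonneg t0 (mul_nonneg t1 t2))).trans e3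
      linarith
  · refine fin (hE.2.2 A F g) ?_
    have e3 := c2 (r := i + X.p) (by omega) (by omega)
    rw [Nat.cast_add] at e3
    linarith

lemma core (K : ℕ → ℝ) {n q : ℕ} {θ : ℝ} (hn : 3 * dd + 3 * X.p ≤ n) (hq : 2 * n + X.q0 ≤ q)
    (hθ : 0 < θ) (hθ1 : θ ≤ 1) : ∃ C : ℝ, 0 < C ∧ ∀ (q' : ℕ) (σ k : E3 → ℝ) (a f g : E3 → SV),
      Sm k → Sm a → Sm f → (∀ x, 0 < σ x) → (∀ x, 0 ≤ k x) → SymBd K 0 σ k k →
      (q' = q + 1 ∨ q' = q ∧ g = f) → ∀ x,
        |bh n θ q σ (fun y => k y • Q.G1 (a y) (f y)) g x| ≤ C * k x *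
          (√(loH n q σ a x) * √(YH X n θ q' σ f x) + √(YH X n θ q σ a x) * √(loH n q σ f x))
            * √(YH X n θ q σ g x) := by
  obtain ⟨C0, hC0, hE⟩ := unif X q
  obtain ⟨M, hM, hD⟩ := D_le X (q + 1)
  obtain ⟨C, hCd⟩ : ∃ C : ℝ, C = C0 * (2 * (M * (X.p + 1))) := ⟨_, rfl⟩
  have hC : 0 ≤ C := by rw [hCd]; positivity
  obtain ⟨Kb, hKb⟩ : ∃ Kb : ℝ, Kb = ∑ i ∈ range (n + 1), |K i| := ⟨_, rfl⟩
  have hKb0 : 0 ≤ Kb := hKb ▸ sum_nonneg fun _ _ => abs_nonneg _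
  obtain ⟨N, hN⟩ : ∃ N : ℝ, N = NL n := ⟨_, rfl⟩
  have hN0 : 0 ≤ N := hN ▸ NL_nonneg n
  refine ⟨N * (2 ^ n * (2 ^ n * ((dd : ℝ) ^ n * (2 ^ n * (Kb * C / θ ^ n))))) + 1,
    by positivity, ?_⟩
  intro q' σ k a f g hk ha hf hσ hk0 hsym hd x
  obtain ⟨S, hS⟩ : ∃ S : ℝ, S = √(loH n q σ a x) * √(YH X n θ q' σ f x)
    + √(YH X n θ q σ a x) * √(loH n q σ f x) := ⟨_, rfl⟩
  obtain ⟨y, hy⟩ : ∃ y : ℝ, y = √(YH X n θ q σ g x) := ⟨_, rfl⟩
  rw [← hS, ← hy]
  have hS0 : 0 ≤ S := by rw [hS]; positivity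
  have hy0 : 0 ≤ y := hy ▸ Real.sqrt_nonneg _
  have hkx := hk0 x
  have hs := (hσ x).le
  have hP : 0 ≤ k x * S * y := by positivity
  obtain ⟨B, hB⟩ : ∃ B : ℝ, B = Kb * C / θ ^ n * (k x * S * y) := ⟨_, rfl⟩
  have hB0 : 0 ≤ B := by rw [hB]; positivity
  have t2 : (0 : ℝ) ≤ 2 ^ n := pow_nonneg zero_le_two _
  have t3 : (0 : ℝ) ≤ (dd : ℝ) ^ n := pow_nonneg dr_pos.le _
  have hB1 := mul_nonneg t2 hB0
  have hB2 := mul_nonneg t3 hB1
  have main : |bh n θ q σ (fun y => k y • Q.G1 (a y) (f y)) g x| ≤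
      NL n * (2 ^ n * (2 ^ n * ((dd : ℝ) ^ n * (2 ^ n * B)))) := by
    refine abs_lev_le fun u m hu => ?_
    rw [NW, dXw_smul hk (Sm.bilin Q.G1 Q.cont1 ha hf), ip_list_sum, ← List.sum_map_mul_left]
    refine abs_sum_splits (by omega) (mul_nonneg t2 hB2) fun s hs1 hs2 => ?_
    rw [dXw_bilin Q.G1 Q.cont1 ha hf, map_smul, LinearMap.smul_apply, smul_eq_mul, ip_list_sum,
      ← mul_assoc, ← List.sum_map_mul_left]
    refine abs_sum_splits (by omega) hB2 fun r hr1 hr2 => ?_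
    rw [ip_G1_RW, mul_sum]
    refine abs_sum_words_le (by omega) hB1 fun w hw => ?_
    rw [← List.sum_map_mul_left]
    refine abs_sum_splits (by omega) hB0 fun p hp1 hp2 => ?_
    have h1 := sym_le hk0 hsym (u := s.1) (n := n) (by omega) x
    have h2 := hi_le X (n := n) (a := u.length + m) (q := q) hθ.le hθ1 hσ g x (u := u) (w := w)
      (by omega) (by omega)
    have hpow : σ x ^ (2 * u.length) =
        σ x ^ u.length * (σ x ^ s.1.length * (σ x ^ r.1.length * σ x ^ r.2.length)) := by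
      rw [← pow_add, ← pow_add, ← pow_add]; congr 1; omega
    have hc : (q : ℝ) - 2 * u.length - m = (q - (2 * u.length + w.length) : ℕ) := by
      rw [Nat.cast_sub (by omega), hw]; push_cast; ring
    rw [hpow, hB, hc]
    refine term_le₂ hC (pow_pos hθ n) (pow_nonneg hθ.le _) (pow_nonneg hs _) (pow_nonneg hs _)
      (mul_nonneg (pow_nonneg hs _) (pow_nonneg hs _)) hKb0 hkx hS0 (hKb ▸ h1) ?_ (hy ▸ h2)
    rw [hCd, hS]
    refine term X hn hq hθ.le hθ1 hC0.le hM (by omega) (by omega) hD hσ a f x _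
      (hE _ (by omega) (by omega)) (by omega) (by omega) ?_
    rcases hd with hd | ⟨hd, rfl⟩
    · exact Or.inl (by omega)
    · by_cases h0 : s.1.length + r.1.length + p.1.length = 0
      · rw [hp2 (List.length_eq_zero_iff.1 (by omega)), hr2 (List.length_eq_zero_iff.1 (by omega)),
          hs2 (List.length_eq_zero_iff.1 (by omega))]
        exact Or.inr rfl
      · exact Or.inl (by omega)
  refine main.trans ?_
  rw [← hN, hB]
  calc _ = N * (2 ^ n * (2 ^ n * ((dd : ℝ) ^ n * (2 ^ n * (Kb * C / θ ^ n))))) *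
        (k x * S * y) := by ring
    _ ≤ _ := by linarith

end GamH

theorem gamH : GamHStmt := by
  intro Q X K n q θ hn hq hθ hθ1
  obtain ⟨C, hC, h⟩ := GamH.core X K hn hq hθ hθ1
  exact ⟨C, hC, fun σ k a f g hk ha hf _ hσ hk0 hs x =>
    ⟨h q σ k a f f hk ha hf hσ hk0 hs (Or.inr ⟨rfl, rfl⟩) x,
      h (q + 1) σ k a f g hk ha hf hσ hk0 hs (Or.inl rfl) x⟩⟩

end Pool.Agent.BoltzM
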