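import Pool.Agent.BoltzM.Spec.Hot
import Pool.Agent.BoltzM.En.Split

/-!
The transport inequality for the weighted energies at one point, as an inequality between jets.
-/

set_option autoImplicit false

open MeasureTheory Pool.Agent.BoltzM.BoltzC Finset

noncomputable section

namespace Pool.Agent.BoltzM.HT

variable [Dim]

/-- Index set of the velocity terms. -/
abbrev TI : Type := Ix ⊕ (Ix × Ix) ⊕ (Ix × Ix)

/-- The operators of the velocity terms. -/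
def opT : TI → SV →L[ℝ] SV
  | Sum.inl l => ap l
  | Sum.inr (Sum.inl p) => (mulV p.1).comp (ap p.2)
  | Sum.inr (Sum.inr p) => (mulV p.1).comp ((mulV p.2).comp (ap p.2))

/-- The coefficients of the velocity terms. -/
def tv (F : Fld) : TI → E3 → ℝ
  | Sum.inl l => F.b0 l
  | Sum.inr (Sum.inl p) => F.b1 p.1 p.2
  | Sum.inr (Sum.inr p) => F.b2 p.1

lemma vel_eq (F : Fld) (x : E3) (f : SV) : F.vel x f = -∑ α, tv F α x • opT α f := by
  simp [Fld.vel, tv, opT, Fintype.sum_sum_type, Fintype.sum_prod_type, add_assoc]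

lemma NW_le_SW (a : ℝ) (m : ℕ) (f : SV) : NW a m f f ≤ SW a m f := by
  have := single_le_sum (f := fun l : ℕ => NW (a + m - l) l f f) (fun _ _ => NW_nonneg _ _ _)
    (mem_range.2 (Nat.lt_succ_self m))
  simpa [SW] using this

lemma rt_le (a : ℝ) (m : ℕ) (f : SV) : √(NW a m f f) ≤ √(SW a m f) :=
  Real.sqrt_le_sqrt (NW_le_SW a m f)

/-- The velocity estimates at one level, with one constant. -/
structure VB (Q : ℝ) (m : ℕ) (C : ℝ) : Prop where
  pos : 0 < C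
  rr : ∀ f g, |NW Q m f g| ≤ C * √(SW (Q + 1 / 2) m f) * √(SW (Q + 1 / 2) m g)
  nv : ∀ i f g, |NVW Q m i f g| ≤ C * √(SW (Q + 1 / 2) m f) * √(SW (Q + 1 / 2) m g)
  comm : ∀ m', m = m' + 1 → ∀ i f g, |NVW Q m i f g - NW Q m (mulV i f) g|
    ≤ C * √(SW (Q - 1 / 2) m' f) * √(SW (Q + 1 / 2) m g)
  mv : ∀ i f g, |NW Q m (mulV i f) g| ≤ C * √(SW (Q + 1 / 2) m f) * √(SW (Q + 1 / 2) m g)
  top : ∀ α f, |NW Q m (opT α f) f| ≤ C * √(SW (Q + 1 / 2) m f) * √(SW (Q + 1 / 2) m f)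
  low : ∀ α f g, |NW Q m (opT α f) g| ≤ C * √(SW (Q + 3 / 2) (m + 1) f) * √(SW (Q + 1 / 2) m g)

lemma exists_VB (hV : VHStmt) (Q : ℝ) (m : ℕ) : ∃ C, VB Q m C := by
  obtain ⟨C1, p1, h1⟩ := hV.comm Q (m - 1)
  obtain ⟨C2, p2, h2⟩ := hV.mv Q m
  obtain ⟨C3, p3, h3⟩ := hV.top Q m
  obtain ⟨C4, p4, h4⟩ := hV.low Q m
  have up : ∀ {v c w1 w2 z1 z2 : ℝ}, v ≤ c * √w1 * √w2 → c ≤ 1 + C1 + C2 + C3 + C4 → √w1 ≤ √z1 →
      √w2 ≤ √z2 → v ≤ (1 + C1 + C2 + C3 + C4) * √z1 * √z2 :=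
    fun hv hc a1 a2 => hv.trans (by gcongr)
  refine ⟨1 + C1 + C2 + C3 + C4, by positivity, fun f g => ?_, fun i f g => ?_,
    fun m' hm i f g => ?_, fun i f g => ?_, fun α f => ?_, fun α f g => ?_⟩
  · exact up (c := 1) (by simpa using hV.cs Q (Q + 1 / 2) (Q + 1 / 2) m (by linarith) f g)
      (by linarith) (rt_le _ _ _) (rt_le _ _ _)
  · exact up (c := 1) (by simpa using hV.nv Q m i f g) (by linarith) (rt_le _ _ _) (rt_le _ _ _)
  · subst hm
    rw [abs_sub_comm]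
    exact up (h1 i f g) (by linarith) (rt_le _ _ _) (rt_le _ _ _)
  · exact up (h2 i f g) (by linarith) le_rfl (rt_le _ _ _)
  · refine up (c := C3) ?_ (by linarith) le_rfl le_rfl
    rw [mul_assoc, Real.mul_self_sqrt (SW_nonneg _ _ _)]
    rcases α with l | p | p
    exacts [(h3 l l l f).1, (h3 p.1 p.1 p.2 f).2.1, (h3 p.1 p.2 p.2 f).2.2]
  · refine up (c := C4) ?_ (by linarith) le_rfl (rt_le _ _ _)
    rcases α with l | p | p
    exacts [(h4 l l l f g).1, (h4 p.1 p.1 p.2 f g).2.1, (h4 p.1 p.2 p.2 f g).2.2]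

/-- A nonnegative matrix gives a nonnegative form. -/
lemma matr (a : ℝ) (M : Ix → Ix → ℝ)
    (h : ∀ ξ : Ix → ℝ, 0 ≤ a * ∑ i, ξ i ^ 2 + ∑ p, ∑ i, M p i * (ξ p * ξ i))
    (Q : ℝ) (m : ℕ) (X : Ix → SV) :
    0 ≤ a * ∑ i, NW Q m (X i) (X i) + ∑ p, ∑ i, M p i * NW Q m (X i) (X p) := by
  have key : ∀ Y : Ix → SV,
      0 ≤ a * ∑ i, ipW Q (Y i) (Y i) + ∑ p, ∑ i, M p i * ipW Q (Y i) (Y p) := by
    intro Y
    have i0 := integrable_finsetSum univ fun i _ => integrable_ipW Q (Y i) (Y i)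
    have i1 := fun p => integrable_finsetSum univ fun i _ =>
      (integrable_ipW Q (Y i) (Y p)).const_mul (M p i)
    have i2 := integrable_finsetSum univ fun p _ => i1 p
    simp only [ipW_eq, ← integral_const_mul]
    simp only [← integral_finsetSum _ fun i _ => integrable_ipW Q (Y i) (Y i),
      ← integral_finsetSum _ fun i _ => (integrable_ipW Q (Y i) (Y _)).const_mul _]
    rw [← integral_finsetSum _ fun p _ => i1 p, ← integral_const_mul,
      ← integral_add (i0.const_mul a) i2]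
    refine integral_nonneg fun v => ?_
    have := mul_nonneg (by positivity : 0 ≤ (1 + ‖v‖ ^ 2) ^ Q) (h fun i => sqM v * Y i v)
    refine this.trans_eq ?_
    simp only [mul_add, mul_sum]
    congr 1
    · exact sum_congr rfl fun i _ => by ring
    · exact sum_congr rfl fun p _ => sum_congr rfl fun i _ => by ring
  have := sum_nonneg (s := words m) fun w _ => key fun i => apW w (X i)
  refine this.trans_eq ?_
  simp only [NW_eq, sum_add_distrib, mul_sum]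
  congr 1
  · exact sum_comm
  · rw [sum_comm (s := words m)]
    exact sum_congr rfl fun p _ => sum_comm

/-- The numbers and velocity functions that enter the inequality at one point. -/
structure Jet where
  U : Ix → List Ix → ℝ
  Cc : List Ix → ℝ
  t : TI → List Ix → ℝ
  σ : ℝ
  ω : ℝ
  μ : ℝ
  ωt : ℝ
  σt : ℝ
  γ : ℝ
  dω : Ix → ℝ
  dσ : Ix → ℝ
  dv : Ix → ℝ
  g : List Ix → SV

omit [Dim] in
lemma key_bound {σ c v K C W1 W2 b : ℝ} {p e N' q1 q2 : ℕ} (hσ : 0 < σ) (hK : 0 ≤ K)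
    (hC : 0 ≤ C) (hc : σ ^ p * |c| ≤ K * σ ^ e)
    (hv : |v| ≤ C * √W1 * √W2) (h1 : σ ^ q1 * √W1 ≤ b) (h2 : σ ^ q2 * √W2 ≤ b)
    (hq : N' + e = q1 + q2) : σ ^ (p + N') * |c * v| ≤ K * C * (b * b) := by
  have ha : 0 ≤ b := le_trans (by positivity) h1
  calc σ ^ (p + N') * |c * v| = (σ ^ p * |c|) * (σ ^ N' * |v|) := by rw [abs_mul, pow_add]; ring
    _ ≤ (K * σ ^ e) * (σ ^ N' * (C * √W1 * √W2)) := by gcongr
    _ = K * C * (σ ^ (N' + e) * √W1 * √W2) := by rw [pow_add]; ring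
    _ = K * C * ((σ ^ q1 * √W1) * (σ ^ q2 * √W2)) := by rw [hq, pow_add]; ring
    _ ≤ K * C * (b * b) := by gcongr

namespace Jet

variable (J : Jet)

/-- The hypotheses on a jet. -/
structure H (K : ℕ → ℝ) : Prop where
  σ_pos : 0 < J.σ
  ω_pos : 0 < J.ω
  μ_pos : 0 < J.μ
  hU : ∀ i w, 2 ≤ w.length → J.σ ^ w.length * |J.U i w| ≤ K w.length * (J.μ * J.σ)
  hC : ∀ w, J.σ ^ w.length * |J.Cc w| ≤ K w.length * (J.μ * J.σ)
  ht : ∀ α w, J.σ ^ w.length * |J.t α w| ≤ K w.length * J.μ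
  hdω : ∀ i, J.σ * |J.dω i| ≤ K 1 * J.ω
  hdσ : ∀ i, J.σ * |J.dσ i| ≤ K 1 * J.σ
  hω : J.ωt + ∑ i, J.dv i + J.γ ≤ K 0 * J.μ * J.ω
  rep : ∀ ξ : Ix → ℝ, 0 ≤ (-J.σt - ∑ i, J.U i [] * J.dσ i) * ∑ i, ξ i ^ 2
    + ∑ p, ∑ i, J.σ * J.U i [p] * (ξ p * ξ i)

variable (Q : ℝ)

def Nn (m : ℕ) (u w : List Ix) : ℝ := NW Q m (J.g u) (J.g w)

def Vv (m : ℕ) (i : Ix) (u w : List Ix) : ℝ := NVW Q m i (J.g u) (J.g w)

def Mv (m : ℕ) (i : Ix) (u w : List Ix) : ℝ := NW Q m (mulV i (J.g u)) (J.g w)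

def pU (m : ℕ) (i : Ix) (a b : List Ix) : ℝ := J.U i a * J.Nn Q m (i :: b) (a ++ b)

def pC (m : ℕ) (i : Ix) (a b : List Ix) : ℝ := J.Cc a * J.Mv Q m i (i :: b) (a ++ b)

def pT (m : ℕ) (α : TI) (a b : List Ix) : ℝ := J.t α a * NW Q m (opT α (J.g b)) (J.g (a ++ b))

/-- Pairing of the differentiated transport term with the differentiated function. -/
def A (m : ℕ) (u : List Ix) : ℝ :=
  ∑ i, SP u (J.pU Q m i) + ∑ i, SP u (J.pC Q m i) - ∑ α, SP u (J.pT Q m α)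

/-- Derivative of the flux. -/
def dJ (j m : ℕ) (i : Ix) (u : List Ix) : ℝ :=
  J.dv i * (J.σ ^ (2 * j) * J.Nn Q m u u)
    + J.U i [] * J.ω * (2 * j * J.σ ^ (2 * j - 1) * J.dσ i * J.Nn Q m u u
      + J.σ ^ (2 * j) * (2 * J.Nn Q m (i :: u) u))
    + ((J.dω i * J.Cc [] + J.ω * J.Cc [i]) * (J.σ ^ (2 * j) * J.Vv Q m i u u)
      + J.ω * J.Cc [] * (2 * j * J.σ ^ (2 * j - 1) * J.dσ i * J.Vv Q m i u u
        + J.σ ^ (2 * j) * (2 * J.Vv Q m i (i :: u) u)))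

/-- One term of the inequality. -/
def q (j m : ℕ) (u : List Ix) : ℝ :=
  (J.ωt * J.σ ^ (2 * j) + J.ω * (2 * j * J.σ ^ (2 * j - 1) * J.σt) + J.γ * J.σ ^ (2 * j))
    * J.Nn Q m u u - 2 * J.ω * J.σ ^ (2 * j) * J.A Q m u + ∑ i, J.dJ Q j m i u

/-- The part that has a sign. -/
def f1 (j m : ℕ) (u : List Ix) : ℝ :=
  J.ω * (2 * j * J.σ ^ (2 * j - 1)) * ((J.σt + ∑ i, J.U i [] * J.dσ i) * J.Nn Q m u u)
    - 2 * J.ω * J.σ ^ (2 * j) * ∑ i, O1 u (J.pU Q m i)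

/-- The other parts. -/
def err (j m : ℕ) (u : List Ix) : ℝ :=
  J.σ ^ (2 * j) * ((J.ωt + ∑ i, J.dv i + J.γ) * J.Nn Q m u u)
    + ∑ i, J.σ ^ (2 * j) * ((J.dω i * J.Cc [] + J.ω * J.Cc [i]) * J.Vv Q m i u u)
    + 2 * J.ω * (j * ∑ i, J.σ ^ (2 * j - 1) * (J.Cc [] * J.dσ i * J.Vv Q m i u u)
      + ∑ i, J.σ ^ (2 * j) * (J.Cc [] * (J.Vv Q m i (i :: u) u - J.Mv Q m i (i :: u) u))
      - ∑ i, J.σ ^ (2 * j) * (SP u (J.pU Q m i) - J.pU Q m i [] u - O1 u (J.pU Q m i))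
      - ∑ i, J.σ ^ (2 * j) * (SP u (J.pC Q m i) - J.pC Q m i [] u)
      + ∑ α, J.σ ^ (2 * j) * (SP u (J.pT Q m α) - J.pT Q m α [] u)
      + ∑ α, J.σ ^ (2 * j) * J.pT Q m α [] u)

lemma q_eq (j m : ℕ) (u : List Ix) : J.q Q j m u = J.f1 Q j m u + J.err Q j m u := by
  have e : ∑ α, J.σ ^ (2 * j) * (SP u (J.pT Q m α) - J.pT Q m α [] u)
      + ∑ α, J.σ ^ (2 * j) * J.pT Q m α [] u = J.σ ^ (2 * j) * ∑ α, SP u (J.pT Q m α) := by
    rw [← sum_add_distrib, mul_sum]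
    exact sum_congr rfl fun α _ => by ring
  have e2 : ∑ i, J.dJ Q j m i u - 2 * J.ω * J.σ ^ (2 * j) *
      (∑ i, SP u (J.pU Q m i) + ∑ i, SP u (J.pC Q m i)) =
      J.σ ^ (2 * j) * ((∑ i, J.dv i) * J.Nn Q m u u)
      + ∑ i, J.σ ^ (2 * j) * ((J.dω i * J.Cc [] + J.ω * J.Cc [i]) * J.Vv Q m i u u)
      + (J.ω * (2 * j * J.σ ^ (2 * j - 1)) * ((∑ i, J.U i [] * J.dσ i) * J.Nn Q m u u)
        - 2 * J.ω * J.σ ^ (2 * j) * ∑ i, O1 u (J.pU Q m i))
      + 2 * J.ω * (j * ∑ i, J.σ ^ (2 * j - 1) * (J.Cc [] * J.dσ i * J.Vv Q m i u u)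
        + ∑ i, J.σ ^ (2 * j) * (J.Cc [] * (J.Vv Q m i (i :: u) u - J.Mv Q m i (i :: u) u))
        - ∑ i, J.σ ^ (2 * j) * (SP u (J.pU Q m i) - J.pU Q m i [] u - O1 u (J.pU Q m i))
        - ∑ i, J.σ ^ (2 * j) * (SP u (J.pC Q m i) - J.pC Q m i [] u)) := by
    simp only [mul_add, mul_sub, mul_sum, sum_mul, ← sum_add_distrib, ← sum_sub_distrib]
    refine sum_congr rfl fun i _ => ?_
    simp only [dJ, pU, pC, List.nil_append]
    ring
  simp only [q, f1, err, A]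
  linear_combination e2 - 2 * J.ω * e

variable {J Q} {K : ℕ → ℝ}

lemma sum_f1 (h : J.H K) (j m : ℕ) : ∑ u ∈ words j, J.f1 Q j m u ≤ 0 := by
  rcases j with _ | j
  · simp [words, f1, O1]
  have hσ := h.σ_pos
  have hω := h.ω_pos
  have e1 : ∑ u ∈ words (j + 1), ∑ i, O1 u (J.pU Q m i) =
      ∑ b ∈ words j, (j + 1 : ℝ) * ∑ p, ∑ i, J.pU Q m i [p] b := by
    rw [sum_comm, ← mul_sum]
    simp only [sum_O1, ← mul_sum]
    rw [sum_comm]
    exact congrArg _ (sum_congr rfl fun b _ => sum_comm)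
  have e2 : ∀ φ : List Ix → ℝ,
      ∑ u ∈ words (j + 1), φ u = ∑ b ∈ words j, ∑ p, φ (p :: b) := fun φ => by
    rw [sum_words_succ, sum_comm]
  simp only [f1]
  rw [sum_sub_distrib, ← mul_sum, ← mul_sum, ← mul_sum, e1, e2, mul_sum, mul_sum, mul_sum,
    ← sum_sub_distrib]
  refine sum_nonpos fun b _ => ?_
  have := mul_nonneg (by positivity : 0 ≤ 2 * (j + 1 : ℝ) * J.ω * J.σ ^ (2 * j + 1))
    (matr _ _ h.rep Q m fun p => J.g (p :: b))
  have e3 : ∑ p, ∑ i, J.σ * J.U i [p] * NW Q m (J.g (i :: b)) (J.g (p :: b))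
      = J.σ * ∑ p, ∑ i, J.pU Q m i [p] b := by
    simp only [mul_sum, pU, Nn, List.singleton_append, mul_assoc]
  rw [e3] at this
  rw [show 2 * (j + 1) - 1 = 2 * j + 1 by omega, show 2 * (j + 1) = 2 * j + 1 + 1 by omega,
    pow_succ _ (2 * j + 1)]
  simp only [Nn]
  push_cast
  linarith

lemma H.K_nonneg (h : J.H K) (l : ℕ) : 0 ≤ K l := by
  have h1 := h.hC (List.replicate l 0)
  rw [List.length_replicate] at h1
  have h2 : 0 < J.μ * J.σ := mul_pos h.μ_pos h.σ_pos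
  have h3 : 0 ≤ J.σ ^ l * |J.Cc (List.replicate l 0)| := by have := h.σ_pos; positivity
  by_contra hn
  have := mul_neg_of_neg_of_pos (not_le.1 hn) h2
  linarith

lemma err_le (h : J.H K) {n j m : ℕ} {q Kn C b : ℝ} (hK : ∀ l, l ≤ n + 1 → K l ≤ Kn)
    (hK2 : K 1 * K 0 + K 1 ≤ Kn) (hV : VB (q - 2 * j - m) m C)
    (hb : ∀ (u : List Ix) (l : ℕ) (a : ℝ), u.length + l ≤ n → a ≤ q + 1 / 2 - 2 * u.length - l →
      J.σ ^ u.length * √(SW a l (J.g u)) ≤ b)
    (hjm : j + m ≤ n) (u : List Ix) (hu : u.length = j) :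
    J.err (q - 2 * j - m) j m u ≤ (1 + dd + 2 * (n * dd + 3 * dd + 2 * (dd + 2 * dd ^ 2)))
      * 2 ^ n * Kn * C * (J.μ * J.ω * (b * b)) := by
  have hσ := h.σ_pos
  have hω := h.ω_pos
  have hμ := h.μ_pos
  have k0 := h.K_nonneg 0
  have k1 := h.K_nonneg 1
  have hKn : 0 ≤ Kn := k0.trans (hK 0 (Nat.zero_le _))
  have hC := hV.pos.le
  set Q := q - 2 * j - m with hQ
  have hbu : J.σ ^ u.length * √(SW (Q + 1 / 2) m (J.g u)) ≤ b :=
    hb u m _ (by omega) (by rw [hu, hQ]; linarith)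
  have hb0 : 0 ≤ b := le_trans (by positivity) hbu
  set M := Kn * J.μ * C * (b * b) with hM
  have hM0 : 0 ≤ M := by positivity
  have hs : 0 < J.σ ^ (2 * j) := by positivity
  have h2n : (2 : ℝ) ^ u.length ≤ 2 ^ n := pow_le_pow_right₀ (by norm_num) (by omega)
  have h1n : M ≤ 2 ^ n * M := le_mul_of_one_le_left hM0 (one_le_pow₀ (by norm_num))
  have hKμ : ∀ l, l ≤ n + 1 → K l * (J.μ * J.σ) ≤ Kn * J.μ * J.σ ^ 1 := fun l hl => by
    rw [pow_one, mul_assoc]; gcongr; exact hK l hl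
  have hKμ0 : 0 ≤ Kn * J.μ := by positivity
  have fin : ∀ v : ℝ, |v| ≤ 2 ^ u.length * (M / J.σ ^ (2 * j)) →
      |J.σ ^ (2 * j) * v| ≤ 2 ^ n * M := fun v hv => by
    rw [abs_mul, abs_of_pos hs]
    calc _ ≤ J.σ ^ (2 * j) * (2 ^ u.length * (M / J.σ ^ (2 * j))) := by gcongr
      _ = 2 ^ u.length * M := by field_simp
      _ ≤ _ := by gcongr
  have hlen : ∀ (c d : List Ix) (k : ℕ), k ≤ c.length → c.length + d.length = u.length →
      (d.length : ℝ) + k ≤ j := fun c d k h1 h2 => by exact_mod_cast (by omega : d.length + k ≤ j)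
  have hcd : ∀ c d : List Ix, c.length + d.length = u.length →
      J.σ ^ (c ++ d).length * √(SW (Q + 1 / 2) m (J.g (c ++ d))) ≤ b := fun c d h2 =>
    hb _ m _ (by simp; omega) (by rw [List.length_append, h2, hu, hQ]; linarith)
  have hc0 : |J.Cc []| ≤ K 0 * (J.μ * J.σ) := by simpa using h.hC []
  have d0 : J.σ ^ (2 * j) * ((J.ωt + ∑ i, J.dv i + J.γ) * J.Nn Q m u u) ≤ J.ω * (2 ^ n * M) := by
    have := key_bound (c := K 0 * J.μ) (p := 0) (e := 0) (N' := 2 * j) hσ hKμ0 hC (by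
      rw [abs_of_nonneg (by positivity), pow_zero, one_mul, mul_one]
      gcongr; exact hK 0 (Nat.zero_le _)) (hV.rr (J.g u) (J.g u)) hbu hbu (by omega)
    rw [zero_add, abs_of_nonneg (mul_nonneg (by positivity) (NW_nonneg _ _ _))] at this
    calc _ ≤ J.σ ^ (2 * j) * (K 0 * J.μ * J.ω * J.Nn Q m u u) :=
          mul_le_mul_of_nonneg_left (mul_le_mul_of_nonneg_right h.hω (NW_nonneg _ _ _)) hs.le
      _ = J.ω * (J.σ ^ (2 * j) * (K 0 * J.μ * NW Q m (J.g u) (J.g u))) := by rw [Nn]; ring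
      _ ≤ _ := mul_le_mul_of_nonneg_left (this.trans h1n) hω.le
  have d1 : ∀ i, J.σ ^ (2 * j) * ((J.dω i * J.Cc [] + J.ω * J.Cc [i]) * J.Vv Q m i u u)
      ≤ J.ω * (2 ^ n * M) := by
    intro i
    have a2 : |J.Cc [i]| ≤ K 1 * J.μ := by
      have := h.hC [i]
      simp only [List.length_singleton, pow_one] at this
      exact le_of_mul_le_mul_left (by linarith) hσ
    have a3 : |J.dω i * J.Cc []| ≤ K 1 * K 0 * (J.μ * J.ω) := by
      rw [abs_mul]
      calc |J.dω i| * |J.Cc []| ≤ |J.dω i| * (K 0 * (J.μ * J.σ)) := by gcongr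
        _ = K 0 * J.μ * (J.σ * |J.dω i|) := by ring
        _ ≤ K 0 * J.μ * (K 1 * J.ω) := mul_le_mul_of_nonneg_left (h.hdω i) (by positivity)
        _ = _ := by ring
    have a4 : J.σ ^ 0 * |J.dω i * J.Cc [] + J.ω * J.Cc [i]| ≤ J.ω * (Kn * J.μ) * J.σ ^ 0 := by
      rw [pow_zero, one_mul, mul_one]
      refine (abs_add_le _ _).trans ?_
      rw [abs_mul J.ω, abs_of_pos hω]
      nlinarith [mul_le_mul_of_nonneg_left a2 hω.le,
        mul_le_mul_of_nonneg_right hK2 (mul_pos hμ hω).le]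
    have := key_bound (N' := 2 * j) hσ (by positivity) hC a4 (hV.nv i (J.g u) (J.g u)) hbu hbu
      (by omega)
    rw [zero_add] at this
    calc _ ≤ _ := mul_le_mul_of_nonneg_left (le_abs_self _) hs.le
      _ ≤ _ := this
      _ = J.ω * M := by rw [hM]; ring
      _ ≤ _ := by gcongr
  have e0 : (j : ℝ) * ∑ i, J.σ ^ (2 * j - 1) * (J.Cc [] * J.dσ i * J.Vv Q m i u u)
      ≤ n * (dd * (2 ^ n * M)) := by
    rcases Nat.eq_zero_or_pos j with hj | hj
    · rw [hj, Nat.cast_zero, zero_mul]; positivity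
    have a0 : (j : ℝ) ≤ n := by exact_mod_cast (by omega : j ≤ n)
    refine (mul_le_mul_of_nonneg_left (sum_le_Ix (c := 2 ^ n * M) fun i => ?_)
      (Nat.cast_nonneg j)).trans (by gcongr)
    have a2 : |J.dσ i| ≤ K 1 := le_of_mul_le_mul_left (by linarith [h.hdσ i]) hσ
    have a4 : J.σ ^ 0 * |J.Cc [] * J.dσ i| ≤ Kn * J.μ * J.σ ^ 1 := by
      rw [pow_zero, one_mul, pow_one, abs_mul]
      calc _ ≤ K 0 * (J.μ * J.σ) * K 1 := by gcongr
        _ = K 1 * K 0 * (J.μ * J.σ) := by ring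
        _ ≤ Kn * (J.μ * J.σ) := by gcongr; linarith
        _ = _ := by ring
    have := key_bound (N' := 2 * j - 1) hσ hKμ0 hC a4 (hV.nv i (J.g u) (J.g u)) hbu hbu
      (by omega)
    rw [zero_add] at this
    exact (mul_le_mul_of_nonneg_left (le_abs_self _) (by positivity)).trans (this.trans h1n)
  have e1 : ∀ i, J.σ ^ (2 * j) *
      (J.Cc [] * (J.Vv Q m i (i :: u) u - J.Mv Q m i (i :: u) u)) ≤ 2 ^ n * M := by
    intro i
    rcases m with _ | m'
    · have : J.Vv Q 0 i (i :: u) u - J.Mv Q 0 i (i :: u) u = 0 := by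
        simp [Vv, NVW, Mv, words, NW_zero]
      rw [this]; simp; positivity
    · have := key_bound (p := 0) (e := 1) (N' := 2 * j) hσ hKμ0 hC
        ((h.hC []).trans (hKμ 0 (Nat.zero_le _))) (hV.comm m' rfl i (J.g (i :: u)) (J.g u))
        (hb (i :: u) m' _ (by simp; omega) (by
          rw [List.length_cons, hu, hQ]; push_cast; linarith)) hbu (by simp; omega)
      rw [zero_add] at this
      exact (mul_le_mul_of_nonneg_left (le_abs_self _) hs.le).trans (this.trans h1n)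
  have e2 : ∀ i, |J.σ ^ (2 * j) * (SP u (J.pU Q m i) - J.pU Q m i [] u - O1 u (J.pU Q m i))|
      ≤ 2 ^ n * M := by
    intro i
    refine fin _ (abs_SP_sub2_le (by positivity) u _ fun c d hc hl => ?_)
    rw [le_div_iff₀ hs, mul_comm]
    have := key_bound (p := c.length) (e := 1) (N' := d.length + j) hσ hKμ0 hC
      ((h.hU i c hc).trans (hKμ _ (by omega))) (hV.rr (J.g (i :: d)) (J.g (c ++ d)))
      (hb (i :: d) m _ (by simp; omega) (by
        have := hlen c d 2 hc hl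
        rw [List.length_cons, hQ]; push_cast at this ⊢; linarith)) (hcd c d hl) (by simp; omega)
    rwa [show c.length + (d.length + j) = 2 * j by omega] at this
  have e3 : ∀ i, |J.σ ^ (2 * j) * (SP u (J.pC Q m i) - J.pC Q m i [] u)| ≤ 2 ^ n * M := by
    intro i
    refine fin _ (abs_SP_sub_le (by positivity) u _ fun c d hc hl => ?_)
    rw [le_div_iff₀ hs, mul_comm]
    have := key_bound (p := c.length) (e := 1) (N' := d.length + j) hσ hKμ0 hC
      ((h.hC c).trans (hKμ _ (by omega))) (hV.mv i (J.g (i :: d)) (J.g (c ++ d)))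
      (hb (i :: d) m _ (by simp; omega) (by
        have := hlen c d 1 hc hl
        rw [List.length_cons, hQ]; push_cast at this ⊢; linarith)) (hcd c d hl) (by simp; omega)
    rwa [show c.length + (d.length + j) = 2 * j by omega] at this
  have a0 : ∀ α (c : List Ix), c.length ≤ n → J.σ ^ c.length * |J.t α c| ≤ Kn * J.μ * J.σ ^ 0 :=
    fun α c hc => by
      rw [pow_zero, mul_one]
      exact (h.ht α c).trans (mul_le_mul_of_nonneg_right (hK _ (by omega)) hμ.le)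
  have e4 : ∀ α, |J.σ ^ (2 * j) * (SP u (J.pT Q m α) - J.pT Q m α [] u)| ≤ 2 ^ n * M := by
    intro α
    refine fin _ (abs_SP_sub_le (by positivity) u _ fun c d hc hl => ?_)
    rw [le_div_iff₀ hs, mul_comm]
    have := key_bound (p := c.length) (e := 0) (N' := d.length + j) hσ hKμ0 hC
      (a0 α c (by omega)) (hV.low α (J.g d) (J.g (c ++ d)))
      (hb d (m + 1) _ (by omega) (by
        have := hlen c d 1 hc hl
        rw [hQ]; push_cast at this ⊢; linarith)) (hcd c d hl) (by simp; omega)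
    rwa [show c.length + (d.length + j) = 2 * j by omega] at this
  have e5 : ∀ α, J.σ ^ (2 * j) * J.pT Q m α [] u ≤ 2 ^ n * M := by
    intro α
    have := key_bound (p := 0) (e := 0) (N' := 2 * j) hσ hKμ0 hC
      (a0 α [] (Nat.zero_le _)) (hV.top α (J.g u)) hbu hbu (by omega)
    rw [zero_add] at this
    exact (mul_le_mul_of_nonneg_left (le_abs_self _) hs.le).trans (this.trans h1n)
  have s0 := sum_le_Ix d1
  have s1 := sum_le_Ix e1
  have s2 := card_nsmul_le_sum univ _ _ fun i _ => (abs_le.1 (e2 i)).1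
  have s3 := card_nsmul_le_sum univ _ _ fun i _ => (abs_le.1 (e3 i)).1
  have s4 := sum_le_card_nsmul univ _ _ fun α _ => (abs_le.1 (e4 α)).2
  have s5 := sum_le_card_nsmul univ _ _ fun α _ => e5 α
  simp only [card_univ, Fintype.card_sum, Fintype.card_prod, Fintype.card_fin, nsmul_eq_mul]
    at s2 s3 s4 s5
  push_cast at s2 s3 s4 s5
  unfold err
  calc _ ≤ J.ω * (2 ^ n * M) + dd * (J.ω * (2 ^ n * M))
        + 2 * J.ω * ((n * dd + 3 * dd + 2 * (dd + 2 * dd ^ 2)) * (2 ^ n * M)) := by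
        refine add_le_add (add_le_add d0 s0) (mul_le_mul_of_nonneg_left ?_ (by positivity))
        linarith
    _ = _ := by rw [hM]; ring

/-- All terms of one level. -/
lemma level (hV : VHStmt) (K : ℕ → ℝ) (n : ℕ) (q : ℝ) (j m : ℕ) : ∃ C : ℝ, 0 ≤ C ∧
    ∀ (J : Jet) (b : ℝ), J.H K → j + m ≤ n →
      (∀ (u : List Ix) (l : ℕ) (a : ℝ), u.length + l ≤ n → a ≤ q + 1 / 2 - 2 * u.length - l →
        J.σ ^ u.length * √(SW a l (J.g u)) ≤ b) →
      ∑ u ∈ words j, J.q (q - 2 * u.length - m) j m u ≤ C * (J.μ * J.ω * (b * b)) := by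
  obtain ⟨C, hC⟩ := exists_VB hV (q - 2 * j - m) m
  have hC0 := hC.pos
  set S := ∑ l ∈ range (n + 2), |K l| with hS
  have hS0 : 0 ≤ S := sum_nonneg fun _ _ => abs_nonneg _
  refine ⟨dd ^ j * ((1 + dd + 2 * (n * dd + 3 * dd + 2 * (dd + 2 * dd ^ 2)))
      * 2 ^ n * (S + |K 1 * K 0 + K 1|) * C), by positivity, fun J b h hjm hb => ?_⟩
  rw [sum_congr rfl fun u hu => by rw [mem_words.1 hu, q_eq], sum_add_distrib, mul_assoc]
  refine (add_le_add (sum_f1 h j m) (sum_words_le fun u hu =>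
    err_le h (fun l hl => ?_) ?_ hC hb hjm u hu)).trans_eq (zero_add _)
  · exact ((le_abs_self _).trans (single_le_sum (f := fun l => |K l|) (fun _ _ => abs_nonneg _)
      (mem_range.2 (by omega)))).trans (le_add_of_nonneg_right (abs_nonneg _))
  · exact (le_abs_self _).trans (le_add_of_nonneg_left hS0)

end Jet

end Pool.Agent.BoltzM.HT
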