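import Pool.Agent.BoltzM.HE.Basic
import Pool.Agent.BoltzM.En.Et

/-! The time derivative of the weighted energy and the energy inequality of the fast part. -/

set_option autoImplicit false

open MeasureTheory Pool.Agent.BoltzM.BoltzC Finset

noncomputable section

namespace Pool.Agent.BoltzM

variable [Dim]

namespace EtH

open Et (smD_pow smC_const_mul smD_const_mul)

/-- The sum over the words of one level. -/
def lv (q : ℝ) (j m : ℕ) (G H : E3 → SV) (x : E3) : ℝ :=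
  ∑ u ∈ words j, NW (q - 2 * u.length - m) m (dXw u G x) (dXw u H x)

lemma smC_lv {g h : ℝ → E3 → SV} (hg : SmC g) (hh : SmC h) (q : ℝ) (j m : ℕ) :
    SmC fun s x => lv q j m (g s) (h s) x :=
  SmC.sum (g := fun u s x => ip (dXw u (g s) x) (RW (q - 2 * u.length - m) m (dXw u (h s) x))) _
    fun u _ => (hg.dXw u).ip ((hh.dXw u).clm (RW _ m))

lemma smD_lv {g g' : ℝ → E3 → SV} (hg : SmD g g') (q : ℝ) (j m : ℕ) :
    SmD (fun s x => lv q j m (g s) (g s) x) fun s x => 2 * lv q j m (g' s) (g s) x := by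
  refine (SmD.sum (g := fun u s x => ip (dXw u (g s) x)
    (RW (q - 2 * u.length - m) m (dXw u (g s) x))) (words j)
    fun u _ => (hg.dXw u).ip ((hg.dXw u).clm (RW _ m))).congr_deriv fun s x => ?_
  rw [lv, mul_sum]
  refine sum_congr rfl fun u _ => ?_
  have h := NW_comm (q - 2 * u.length - m) m (dXw u (g s) x) (dXw u (g' s) x)
  simp only [NW] at h ⊢
  rw [h]
  ring

lemma bh_eq (n : ℕ) (θ q : ℝ) (σ : E3 → ℝ) (G H : E3 → SV) (x : E3) :
    bh n θ q σ G H x = ∑ j ∈ range (n + 1), ∑ m ∈ range (n + 1 - j),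
      θ ^ (j + m) * (σ x ^ (2 * j) * lv q j m G H x) := by
  simp only [bh, lev, lv, mul_assoc]

/-- The contribution of the time derivative of the length scale. -/
def sp (n : ℕ) (θ q : ℝ) (σ σt : E3 → ℝ) (G : E3 → SV) (x : E3) : ℝ :=
  ∑ j ∈ range (n + 1), ∑ m ∈ range (n + 1 - j),
    θ ^ (j + m) * ((2 * j * σ x ^ (2 * j - 1) * σt x) * lv q j m G G x)

lemma et_eq (n : ℕ) (θ q : ℝ) (ω σ ωt σt : E3 → ℝ) (G : E3 → SV) (x : E3) :
    etH n θ q ω σ ωt σt G x = ωt x * bh n θ q σ G G x + ω x * sp n θ q σ σt G x := by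
  simp only [etH, sp, lv, mul_assoc]

lemma smC_bh (n : ℕ) (θ q : ℝ) {σ σt : ℝ → E3 → ℝ} {g h : ℝ → E3 → SV} (hσ : SmD σ σt)
    (hg : SmC g) (hh : SmC h) : SmC fun s x => bh n θ q (σ s) (g s) (h s) x := by
  simp only [bh_eq]
  exact SmC.sum (g := fun j s x => ∑ m ∈ range (n + 1 - j),
      θ ^ (j + m) * (σ s x ^ (2 * j) * lv q j m (g s) (h s) x)) _ fun j _ =>
    SmC.sum (g := fun m s x => θ ^ (j + m) * (σ s x ^ (2 * j) * lv q j m (g s) (h s) x)) _
      fun m _ => smC_const_mul ((smD_pow hσ _).sm.mul (smC_lv hg hh q j m)) _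

lemma smC_sp (n : ℕ) (θ q : ℝ) {σ σt : ℝ → E3 → ℝ} {g : ℝ → E3 → SV} (hσ : SmD σ σt)
    (hg : SmC g) : SmC fun s x => sp n θ q (σ s) (σt s) (g s) x := by
  refine SmC.sum (g := fun j s x => ∑ m ∈ range (n + 1 - j), θ ^ (j + m) *
      ((2 * j * σ s x ^ (2 * j - 1) * σt s x) * lv q j m (g s) (g s) x)) _ fun j _ =>
    SmC.sum (g := fun m s x => θ ^ (j + m) *
      ((2 * j * σ s x ^ (2 * j - 1) * σt s x) * lv q j m (g s) (g s) x)) _
      fun m _ => smC_const_mul (SmC.mul ?_ (smC_lv hg hg q j m)) _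
  refine (smD_pow hσ (2 * j)).sm'.congr fun s x => ?_
  push_cast
  ring

lemma smD_bh (n : ℕ) (θ q : ℝ) {σ σt : ℝ → E3 → ℝ} {g g' : ℝ → E3 → SV} (hσ : SmD σ σt)
    (hg : SmD g g') : SmD (fun s x => bh n θ q (σ s) (g s) (g s) x)
      fun s x => sp n θ q (σ s) (σt s) (g s) x + 2 * bh n θ q (σ s) (g' s) (g s) x := by
  simp only [bh_eq]
  refine (SmD.sum (g := fun j s x => ∑ m ∈ range (n + 1 - j),
      θ ^ (j + m) * (σ s x ^ (2 * j) * lv q j m (g s) (g s) x)) (range (n + 1)) fun j _ =>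
    SmD.sum (g := fun m s x => θ ^ (j + m) * (σ s x ^ (2 * j) * lv q j m (g s) (g s) x))
      (range (n + 1 - j))
      fun m _ => smD_const_mul ((smD_pow hσ _).mul (smD_lv hg q j m)) _).congr_deriv fun s x => ?_
  rw [sp, mul_sum, ← sum_add_distrib]
  refine sum_congr rfl fun j _ => ?_
  rw [mul_sum, ← sum_add_distrib]
  refine sum_congr rfl fun m _ => ?_
  push_cast
  ring

lemma sm_tr {F : Fld} (hF : F.Reg) {G : E3 → SV} (hG : Sm G) : Sm (F.tr G) :=
  (Sm.sum univ fun i _ => ((hF.u i).1.smul (hG.dX i)).add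
    (hF.c.1.smul ((hG.dX i).clm (mulV i)))).add
  (((Sm.sum univ fun j _ => (hF.b0 j).1.smul (hG.clm (ap j))).add
    (Sm.sum univ fun i _ => Sm.sum univ fun j _ =>
      (hF.b1 i j).1.smul ((hG.clm (ap j)).clm (mulV i)))).add
    (Sm.sum univ fun i _ => Sm.sum univ fun j _ =>
      (hF.b2 i).1.smul (((hG.clm (ap j)).clm (mulV j)).clm (mulV i)))).neg

end EtH

open EtH Et in
theorem etH_stmt : EtHStmt := by
  intro n θ q ω ωt σ σt g g' hω hσ hg
  have h1 : SmC fun s x => etH n θ q (ω s) (σ s) (ωt s) (σt s) (g s) x := by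
    simp only [EtH.et_eq]
    exact (hω.sm'.mul (smC_bh n θ q hσ hg.sm hg.sm)).add (hω.sm.mul (EtH.smC_sp n θ q hσ hg.sm))
  have h2 : SmC fun s x => ω s x * bh n θ q (σ s) (g' s) (g s) x :=
    hω.sm.mul (smC_bh n θ q hσ hg.sm' hg.sm)
  refine ⟨h1.continuous_tint.add (continuous_const.mul h2.continuous_tint), fun s => ?_⟩
  have h3 := (hω.mul (smD_bh n θ q hσ hg)).hasDerivAt_tint s
  refine h3.congr_deriv ?_
  have h4 := tint_add (h1.cont_slice s) ((smC_const_mul h2 2).cont_slice s)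
  rw [EnH, ← tint_const_mul]
  refine Eq.trans (tint_congr fun x => ?_) h4
  rw [EtH.et_eq]
  ring

open HE in
theorem m4H (h1 : EtHStmt) (h2 : TrHStmt) (h3 : GainHStmt) (h4 : JwHStmt) : M4HStmt := by
  intro Q X K n q hq
  obtain ⟨N0, hN⟩ := h3 Q X K n q hq
  refine ⟨N0, fun N hN0 => ?_⟩
  obtain ⟨θ1, c, hθ1, hθ1', hc, hg⟩ := hN N hN0
  obtain ⟨θ2, hθ2, hj⟩ := h4 K n q
  refine ⟨min θ1 θ2, lt_min hθ1 hθ2, (min_le_left _ _).trans hθ1', fun θ hθ hθ' => ?_⟩
  have t1 := hθ'.trans (min_le_left _ _)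
  have t2 := hθ'.trans (min_le_right _ _)
  obtain ⟨C, hC, ht⟩ := h2 K n θ q hθ (t1.trans hθ1')
  refine ⟨C / c, c, by positivity, hc, fun ω ωt σ σt g g' hω hσ hgg pg => ?_⟩
  obtain ⟨e1, e2⟩ := h1 n θ q ω ωt σ σt g g' hω hσ hgg
  refine ⟨_, e1, e2, fun s lam η F μ γ k hl hη hF hB hW cγ sk bk hk => ?_⟩
  have sg := hgg.sm.slice s
  have sg' := hgg.sm'.slice s
  have cω := hW.hω.sm.cont
  have cσ := hW.hσ.sm.cont
  have k0 : ∀ x, 0 ≤ k x := fun x => (mul_pos (div_pos hC hc) (hW.hμ.pos x)).le.trans (hk x)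
  have sL : Sm fun x => k x • (Q.L (g s x) + N • Sq (g s x)) :=
    sk.smul ((sg.clm Q.L).add ((sg.clm Sq).const_smul N))
  have sJ : Sm fun x => k x • Jw 4 (g s x) := sk.smul (sg.clm (Jw 4))
  have cy := (cω.mul sk.cont).mul (continuous_YH X (n := n) (θ := θ) (r := q) cσ sg)
  have a1 := ht F lam (ω s) (σ s) μ (ωt s) (σt s) γ (g s) hl hF hB hW (hω.sm'.cont_slice s)
    (hσ.sm'.cont_slice s) cγ sg (pg s)
  have a2 : c * tint (fun x => ω s x * k x * YH X n θ q (σ s) (g s) x)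
      ≤ EnH n θ q (ω s) (σ s) (fun x => k x • (Q.L (g s x) + N • Sq (g s x))) (g s) := by
    rw [← tint_const_mul]
    refine tint_mono (continuous_const.mul cy) (cont_wbh cω cσ sL sg) fun x => ?_
    have := mul_le_mul_of_nonneg_left
      (hg θ hθ t1 (σ s) k (g s) sk sg hW.hσ.pos k0 bk x) (hW.hω.pos x).le
    linarith
  have a3 : C * tint (fun x => μ x * ω s x * bh n θ (q + 1 / 2) (σ s) (g s) (g s) x)
      ≤ c * tint (fun x => ω s x * k x * YH X n θ q (σ s) (g s) x) := by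
    rw [← tint_const_mul, ← tint_const_mul]
    refine tint_mono (continuous_const.mul (cont_wbh (hW.hμ.sm.cont.mul cω) cσ sg sg))
      (continuous_const.mul cy) fun x => ?_
    have b1 := bh_le_YH X (n := n) (θ := θ) (q := q + 1 / 2) (r := q) (σ := σ s) (G := g s) hθ.le
      (by omega) (by linarith) x
    have b2 : C * μ x ≤ k x * c := by
      have := hk x
      rwa [div_mul_eq_mul_div, div_le_iff₀ hc] at this
    have b3 := mul_le_mul b2 b1 (bh_nonneg hθ.le x) (mul_nonneg (k0 x) hc.le)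
    have := mul_le_mul_of_nonneg_left b3 (hW.hω.pos x).le
    linarith
  have a4 : 0 ≤ η * EnH n θ q (ω s) (σ s) (fun x => k x • Jw 4 (g s x)) (g s) :=
    mul_nonneg hη (tint_nonneg fun x => mul_nonneg (hW.hω.pos x).le
      (hj θ hθ t2 (σ s) k (g s) sk sg hW.hσ.pos k0 bk x))
  have e : (fun x => g' s x + F.tr (g s) x
      + k x • (Q.L (g s x) + N • Sq (g s x) + η • Jw 4 (g s x))) = fun x => g' s x + F.tr (g s) x
      + k x • (Q.L (g s x) + N • Sq (g s x)) + η • k x • Jw 4 (g s x) := funext fun x => by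
    rw [smul_add _ _ (η • _), smul_comm (k x) η, add_assoc (g' s x + F.tr (g s) x)]
  have st := EtH.sm_tr hF sg
  rw [e, EnH_add_left cω cσ ((sg'.add st).add sL) (sJ.const_smul η) sg,
    EnH_add_left cω cσ (sg'.add st) sL sg, EnH_add_left cω cσ sg' st sg, EnH_smul_left sJ]
  linarith

end Pool.Agent.BoltzM
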