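import Pool.Agent.BoltzM.HE.Basic
import Pool.Agent.BoltzM.Alg.Sob

/-! Pointwise bound by the energy with polynomial weights. -/

set_option autoImplicit false

open MeasureTheory Pool.Agent.BoltzM.BoltzC Finset

noncomputable section

namespace Pool.Agent.BoltzM

variable [Dim]

namespace HE

/-- The bilinear form of `NW`. -/
def nW (q : ℝ) (m : ℕ) : SV →ₗ[ℝ] SV →ₗ[ℝ] ℝ := ip.compl₂ (RW q m : SV →ₗ[ℝ] SV)

lemma nW_apply (q : ℝ) (m : ℕ) (f g : SV) : nW q m f g = NW q m f g := rfl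

lemma continuous_nW (q : ℝ) (m : ℕ) : Continuous fun p : SV × SV => nW q m p.1 p.2 :=
  continuous_ip.comp (continuous_fst.prodMk ((RW q m).continuous.comp continuous_snd))

lemma tint_term_le_EnH {n : ℕ} {θ p q : ℝ} (hθ : 0 < θ) (hθ1 : θ ≤ 1) {ω σ : E3 → ℝ}
    {G : E3 → SV} (hω : Continuous ω) (hω0 : ∀ y, 0 ≤ ω y) (hσ : Continuous σ) (hG : Sm G)
    (u : List Ix) (m : ℕ) (hum : u.length + m ≤ n) (hp : p ≤ q - 2 * u.length - m) :
    tint (fun y => ω y * σ y ^ (2 * u.length) * NW p m (dXw u G y) (dXw u G y)) ≤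
      (θ ^ n)⁻¹ * EnH n θ q ω σ G G := by
  rw [EnH, ← tint_const_mul]
  have hc : Continuous fun y => NW p m (dXw u G y) (dXw u G y) :=
    ((hG.dXw u).ip ((hG.dXw u).clm (RW p m))).cont
  refine tint_mono (by fun_prop) (continuous_const.mul (cont_wbh hω hσ hG hG)) fun y => ?_
  have h1 := term_le_bh (n := n) (q := q) (σ := σ) (G := G) hθ.le u m hum y
  have h2 : θ ^ n ≤ θ ^ (u.length + m) := pow_le_pow_of_le_one hθ.le hθ1 hum
  have h3 : 0 ≤ σ y ^ (2 * u.length) := by rw [pow_mul']; positivity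
  have h4 := NW_mono hp m (dXw u G y)
  have h5 := NW_nonneg p m (dXw u G y)
  rw [le_inv_mul_iff₀ (by positivity), mul_assoc, mul_left_comm]
  refine mul_le_mul_of_nonneg_left (le_trans ?_ h1) (hω0 y)
  rw [mul_assoc]
  gcongr

/-- Pointwise bound of one term. -/
lemma sob_termH (K : ℝ) (N : ℕ) {θ : ℝ} (hθ : 0 < θ) (hθ1 : θ ≤ 1) : ∃ C : ℝ, 0 < C ∧
    ∀ (q : ℝ) (ω σ : E3 → ℝ) (G : E3 → SV), Slow K σ ω → Slow K σ σ → (∀ x, σ x ≤ K) → Sm G →
      Per G → ∀ (u : List Ix) (m : ℕ), u.length + m ≤ N → ∀ x,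
        σ x ^ dd * ω x * (σ x ^ (2 * u.length) *
          NW (q - 2 * dd - 2 * u.length - m) m (dXw u G x) (dXw u G x))
          ≤ C * EnH (N + dd) θ q ω σ G G := by
  by_cases hK : 0 < K
  swap
  · exact ⟨1, one_pos, fun q ω σ G _ hσ hle => absurd ((hσ.pos 0).trans_le (hle 0)) hK⟩
  obtain ⟨D, hD⟩ : ∃ D : ℝ, D = 2 * dd * dd * K := ⟨_, rfl⟩
  have hd2 := two_le_dr
  have hd0 := dr_pos
  have hD0 : 0 < D := by rw [hD]; positivity
  have hKD : K ≤ D := by
    rw [hD]
    refine le_mul_of_one_le_left hK.le ?_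
    nlinarith
  obtain ⟨M, hM⟩ : ∃ M : ℝ, M = ∑ i ∈ range (dd + 1), D ^ dd / D ^ (2 * i) := ⟨_, rfl⟩
  have hM0 : 0 < M := by rw [hM]; exact sum_pos (fun i _ => by positivity) (by simp)
  obtain ⟨c, hc⟩ : ∃ c : ℝ, c = 3 * 4 ^ (N + dd) * M := ⟨_, rfl⟩
  have hc0 : 0 < c := by rw [hc]; positivity
  obtain ⟨S, hS⟩ : ∃ S : ℝ, S = ∑ i ∈ range (dd + 1), ∑ _v ∈ words i, (θ ^ (N + dd))⁻¹ := ⟨_, rfl⟩
  have hS0 : 0 ≤ S := by
    rw [hS]; exact sum_nonneg fun _ _ => sum_nonneg fun _ _ => by positivity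
  refine ⟨c * (3 ^ dd * S) + 1, by positivity, fun q ω σ G hω hσ hle hG pG u m hum x => ?_⟩
  have hsx := hσ.pos x
  have hox := hω.pos x
  have hE : 0 ≤ EnH (N + dd) θ q ω σ G G := EnH_nonneg hθ.le fun y => (hω.pos y).le
  obtain ⟨p, hp⟩ : ∃ p : ℝ, p = q - 2 * dd - 2 * u.length - m := ⟨_, rfl⟩
  rw [← hp]
  have key := sobolev_weighted (nW p m) (continuous_nW p m) (NW_comm p m) (NW_nonneg p m)
    (hG.dXw u) (pG.dXw u)
    (w := fun i y => ω y * σ y ^ (2 * (u.length + i)))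
    (fun i => hω.per.map₂ hσ.per fun a b => a * b ^ (2 * (u.length + i)))
    (fun i => hω.sm.cont.mul (hσ.sm.cont.pow _))
    (fun i y => by have := hω.pos y; have := hσ.pos y; positivity)
    (L := σ x / D) (w₀ := c⁻¹ * (σ x ^ dd * ω x * σ x ^ (2 * u.length))) (by positivity)
    (by rw [div_le_one hD0]; linarith [hle x]) (by positivity) x (fun i hi y hy => by
      have hy' : y ∈ Metric.closedBall x (σ x / (2 * dd * K)) := by
        have := cube_subset_closedBall x _ hy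
        rwa [abs_of_pos (by positivity), show dd * (σ x / D) = σ x / (2 * dd * K) by
          rw [hD]; field_simp] at this
      have h1 := (hσ.scale_cmp hK hy').1
      have h2 := (hω.weight_cmp hσ hK hy').1
      have h3 : D ^ dd / D ^ (2 * i) ≤ M := by
        rw [hM]
        exact single_le_sum (f := fun i => D ^ dd / D ^ (2 * i)) (fun i _ => by positivity)
          (mem_range.2 hi)
      have h4 : (4 : ℝ) ^ (u.length + i) ≤ 4 ^ (N + dd) :=
        pow_le_pow_right₀ (by norm_num) (by omega)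
      have h5 : σ x ^ (2 * (u.length + i)) ≤ 4 ^ (N + dd) * σ y ^ (2 * (u.length + i)) := by
        calc σ x ^ (2 * (u.length + i)) ≤ (2 * σ y) ^ (2 * (u.length + i)) := by
              gcongr; linarith
          _ = 4 ^ (u.length + i) * σ y ^ (2 * (u.length + i)) := by
              rw [mul_pow, pow_mul]; norm_num
          _ ≤ _ := by have := hσ.pos y; gcongr
      have hoy := hω.pos y
      have hsy := hσ.pos y
      calc c⁻¹ * (σ x ^ dd * ω x * σ x ^ (2 * u.length)) * ((σ x / D) ^ (2 * i) / (σ x / D) ^ dd)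
          = c⁻¹ * (ω x * σ x ^ (2 * (u.length + i)) * (D ^ dd / D ^ (2 * i))) := by
            rw [mul_add, pow_add, div_pow, div_pow]; field_simp
        _ ≤ c⁻¹ * (3 * ω y * (4 ^ (N + dd) * σ y ^ (2 * (u.length + i))) * M) := by gcongr
        _ = ω y * σ y ^ (2 * (u.length + i)) := by rw [hc]; field_simp)
  simp only [nW_apply] at key
  have h6 : ∑ i ∈ range (dd + 1), ∑ v ∈ words i, (tint fun y => ω y * σ y ^ (2 * (u.length + i)) *
      NW p m (dXw v (dXw u G) y) (dXw v (dXw u G) y)) ≤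
      ∑ i ∈ range (dd + 1), ∑ _v ∈ words i, (θ ^ (N + dd))⁻¹ * EnH (N + dd) θ q ω σ G G := by
    refine sum_le_sum fun i hi => sum_le_sum fun v hv => ?_
    have hv' := mem_words.1 hv
    have hi' := mem_range.1 hi
    have hi2 : (i : ℝ) ≤ dd := Nat.cast_le.2 (by omega)
    have := tint_term_le_EnH (n := N + dd) (p := p) (q := q) hθ hθ1 hω.sm.cont
      (fun y => (hω.pos y).le) hσ.sm.cont hG (u ++ v) m (by rw [List.length_append]; omega)
      (by rw [List.length_append, hv', hp]; push_cast; linarith)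
    rwa [List.length_append, hv', dXw_append] at this
  simp only [← sum_mul] at h6
  rw [← hS] at h6
  have h7 := key.trans (mul_le_mul_of_nonneg_left h6 (by positivity))
  rw [mul_assoc, inv_mul_le_iff₀ hc0] at h7
  calc _ = σ x ^ dd * ω x * σ x ^ (2 * u.length) * NW p m (dXw u G x) (dXw u G x) := by ring
    _ ≤ _ := h7
    _ ≤ _ := by nlinarith

end HE

open HE in
theorem sobH : SobHStmt := by
  intro K n θ q hn hθ hθ1
  obtain ⟨N, rfl⟩ : ∃ N, n = N + dd := ⟨n - dd, by omega⟩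
  obtain ⟨C, hC, h⟩ := sob_termH K N hθ hθ1
  refine ⟨(∑ j ∈ range (N + 1), ∑ _m ∈ range (N + 1 - j), ∑ _u ∈ words j, C) + 1,
    add_pos_of_nonneg_of_pos (sum_nonneg fun _ _ => sum_nonneg fun _ _ =>
      sum_nonneg fun _ _ => hC.le) one_pos, fun ω σ G hω hσ hle hG pG x => ?_⟩
  have hE : 0 ≤ EnH (N + dd) θ q ω σ G G := EnH_nonneg hθ.le fun y => (hω.pos y).le
  simp only [loH, Nat.add_sub_cancel, bh, lev, one_pow, one_mul, mul_sum, add_mul, sum_mul]
  refine le_trans (sum_le_sum fun j hj => sum_le_sum fun m hm => sum_le_sum fun u hu => ?_)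
    (le_add_of_nonneg_right hE)
  have hu' := mem_words.1 hu
  have hj' := mem_range.1 hj
  have hm' := mem_range.1 hm
  have := h q ω σ G hω hσ hle hG pG u m (by omega) x
  rw [← hu']
  exact this

end Pool.Agent.BoltzM
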