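import Pool.Agent.BoltzM.HE.Jet
import Pool.Agent.BoltzM.KK.BB

/-!
The transport inequality for the weighted energies on the torus.
-/

set_option autoImplicit false

open Pool.Agent.BoltzM.BoltzC Finset
open Pool.Agent.MP_187b32_an.PM (NF QF)

noncomputable section

namespace Pool.Agent.BoltzM

variable [Dim]

namespace HT

lemma sm_pow {σ : E3 → ℝ} (hσ : Sm σ) (k : ℕ) : Sm fun y => σ y ^ k := by
  induction k with
  | zero => simpa using Sm.const (1 : ℝ)
  | succ k ih => simpa [pow_succ] using ih.mul hσ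

lemma dX_pow' {σ : E3 → ℝ} (hσ : Sm σ) (k : ℕ) (i : Ix) (x : E3) :
    dX i (fun y => σ y ^ k) x = k * σ x ^ (k - 1) * dX i σ x := by
  apply dX_eq
  have := ((hσ.dif i x).hasDerivAt.fun_pow k).hd
  simpa only [zero_smul, add_zero] using this

lemma sm_ip_clm {G H : E3 → SV} (hG : Sm G) (hH : Sm H) (A B : SV →L[ℝ] SV) :
    Sm fun y => ip (A (G y)) (B (H y)) := Sm.bilin ip continuous_ip (hG.clm A) (hH.clm B)

lemma dX_ip_clm {H : E3 → SV} (hH : Sm H) (A B : SV →L[ℝ] SV) (i : Ix) (x : E3) :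
    dX i (fun y => ip (A (H y)) (B (H y))) x =
      ip (A (dX i H x)) (B (H x)) + ip (A (H x)) (B (dX i H x)) := by
  rw [dX_bilin ip continuous_ip (hH.clm A).dif (hH.clm B).dif, dX_clm hH.dif, dX_clm hH.dif]

lemma sm_NW {G H : E3 → SV} (hG : Sm G) (hH : Sm H) (Q : ℝ) (m : ℕ) :
    Sm fun y => NW Q m (G y) (H y) := sm_ip_clm hG hH (ContinuousLinearMap.id ℝ SV) (RW Q m)

lemma dX_NW {H : E3 → SV} (hH : Sm H) (Q : ℝ) (m : ℕ) (i : Ix) (x : E3) :
    dX i (fun y => NW Q m (H y) (H y)) x = 2 * NW Q m (dX i H x) (H x) := by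
  have := dX_ip_clm hH (ContinuousLinearMap.id ℝ SV) (RW Q m) i x
  refine this.trans ?_
  change NW Q m (dX i H x) (H x) + NW Q m (H x) (dX i H x) = _
  rw [NW_comm Q m (H x)]
  ring

lemma sm_NV {H : E3 → SV} (hH : Sm H) (Q : ℝ) (m : ℕ) (i : Ix) :
    Sm fun y => NVW Q m i (H y) (H y) :=
  Sm.sum (words m) fun w _ => sm_ip_clm hH hH ((mulV i).comp (apW w)) ((WQ Q).comp (apW w))

lemma ipW_mulV (Q : ℝ) (i : Ix) (f g : SV) : ipW Q (mulV i f) g = ipW Q (mulV i g) f := by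
  simp only [ipW_eq, mulV_apply]
  congr 1; funext v; ring

lemma dX_NV {H : E3 → SV} (hH : Sm H) (Q : ℝ) (m : ℕ) (i k : Ix) (x : E3) :
    dX k (fun y => NVW Q m i (H y) (H y)) x = 2 * NVW Q m i (dX k H x) (H x) := by
  have h1 := congrFun (dX_sum (words m)
    (G := fun w y => ip (((mulV i).comp (apW w)) (H y)) (((WQ Q).comp (apW w)) (H y)))
    (fun w _ => (sm_ip_clm hH hH _ _).dif) k) x
  refine h1.trans ?_
  rw [NVW, mul_sum]
  refine sum_congr rfl fun w _ => ?_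
  rw [dX_ip_clm hH]
  change ipW Q (mulV i (apW w (dX k H x))) (apW w (H x))
    + ipW Q (mulV i (apW w (H x))) (apW w (dX k H x)) = _
  rw [ipW_mulV Q i (apW w (H x))]
  ring

lemma ip_dXw_smul {a : E3 → ℝ} {H : E3 → SV} (ha : Sm a) (hH : Sm H) (A : SV →L[ℝ] SV)
    (u : List Ix) (x : E3) (h : SV) :
    ip (dXw u (fun y => a y • A (H y)) x) h =
      SP u fun p q => dXw p a x * ip (A (dXw q H x)) h := by
  rw [dXw_smul ha (hH.clm A)]
  simp only [map_list_sum_ip, SP, dXw_clm hH, map_smul, LinearMap.smul_apply, smul_eq_mul]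

lemma sm_tv {F : Fld} (h : F.Reg) (α : TI) : Sm (tv F α) := by
  rcases α with l | p | p
  · exact (h.b0 l).1
  · exact (h.b1 p.1 p.2).1
  · exact (h.b2 p.1).1

lemma tr_eq (F : Fld) (G : E3 → SV) : F.tr G = fun x =>
    (∑ i, F.u i x • ContinuousLinearMap.id ℝ SV (dX i G x) + ∑ i, F.c x • mulV i (dX i G x))
      - ∑ α, tv F α x • opT α (G x) := by
  funext x
  rw [Fld.tr, vel_eq, sum_add_distrib, sub_eq_add_neg]
  rfl

lemma sm_tr {F : Fld} (h : F.Reg) {G : E3 → SV} (hG : Sm G) : Sm (F.tr G) := by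
  rw [tr_eq]
  exact ((Sm.sum _ fun i _ => (h.u i).1.smul ((hG.dX i).clm _)).add
    (Sm.sum _ fun i _ => h.c.1.smul ((hG.dX i).clm _))).sub
      (Sm.sum _ fun α _ => (sm_tv h α).smul (hG.clm _))

/-- The jet of the data at a point. -/
def jet (F : Fld) (ω σ μ ωt σt γ : E3 → ℝ) (G : E3 → SV) (x : E3) : Jet where
  U i w := dXw w (F.u i) x
  Cc w := dXw w F.c x
  t α w := dXw w (tv F α) x
  σ := σ x
  ω := ω x
  μ := μ x
  ωt := ωt x
  σt := σt x
  γ := γ x
  dω i := dX i ω x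
  dσ i := dX i σ x
  dv i := dX i (fun y => F.u i y * ω y) x
  g u := dXw u G x

variable {F : Fld} {K : ℕ → ℝ} {lam : ℝ} {ω σ μ ωt σt γ : E3 → ℝ} {G : E3 → SV}

lemma jet_H (hl : 0 ≤ lam) (hB : F.Bd K σ μ) (hW : WtBd F K lam ω σ μ ωt σt γ) (x : E3) :
    (jet F ω σ μ ωt σt γ G x).H K where
  σ_pos := hW.hσ.pos x
  ω_pos := hW.hω.pos x
  μ_pos := hW.hμ.pos x
  hU i w hw := hB.u i w hw x
  hC w := hB.c w (Nat.zero_le _) x
  ht α w := by
    rcases α with l | p | p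
    · exact hB.b0 l w (Nat.zero_le _) x
    · exact hB.b1 p.1 p.2 w (Nat.zero_le _) x
    · exact hB.b2 p.1 w (Nat.zero_le _) x
  hdω i := hW.hω.bd i x
  hdσ i := hW.hσ.bd i x
  hω := hW.dω x
  rep ξ := by
    have h := (mul_nonneg (mul_nonneg (mul_nonneg hl (hW.hμ.pos x).le) (hW.hσ.pos x).le)
      (MP_187b32_an.PM.NF_nonneg ξ 0)).trans (hW.rep x ξ 0)
    change 0 ≤ (-σt x - ∑ i, F.u i x * dX i σ x) * ∑ i, ξ i ^ 2
      + ∑ p, ∑ i, σ x * dX p (F.u i) x * (ξ p * ξ i)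
    simpa [QF, NF] using h

lemma jet_A (h : F.Reg) (hG : Sm G) (Q : ℝ) (m : ℕ) (u : List Ix) (x : E3) :
    NW Q m (dXw u (F.tr G) x) (dXw u G x) = (jet F ω σ μ ωt σt γ G x).A Q m u := by
  have s1 : ∀ i, Sm fun x => F.u i x • ContinuousLinearMap.id ℝ SV (dX i G x) := fun i =>
    (h.u i).1.smul ((hG.dX i).clm _)
  have s2 : ∀ i, Sm fun x => F.c x • mulV i (dX i G x) := fun i => h.c.1.smul ((hG.dX i).clm _)
  have s3 : ∀ α, Sm fun x => tv F α x • opT α (G x) := fun α => (sm_tv h α).smul (hG.clm _)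
  rw [NW, tr_eq, dXw_sub ((Sm.sum _ fun i _ => s1 i).add (Sm.sum _ fun i _ => s2 i))
    (Sm.sum _ fun α _ => s3 α), dXw_add (Sm.sum _ fun i _ => s1 i) (Sm.sum _ fun i _ => s2 i),
    dXw_sum _ fun i _ => s1 i, dXw_sum _ fun i _ => s2 i, dXw_sum _ fun α _ => s3 α]
  simp only [map_sub, map_add, map_sum, LinearMap.sub_apply, LinearMap.add_apply,
    LinearMap.sum_apply]
  unfold Jet.A
  congr 1
  · congr 1
    · refine sum_congr rfl fun i _ => ?_
      rw [ip_dXw_smul (h.u i).1 (hG.dX i)]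
      exact SP_congr u _ _ fun a b hab => by rw [← dXw_perm hG hab]; rfl
    · refine sum_congr rfl fun i _ => ?_
      rw [ip_dXw_smul h.c.1 (hG.dX i)]
      exact SP_congr u _ _ fun a b hab => by rw [← dXw_perm hG hab]; rfl
  · refine sum_congr rfl fun α _ => ?_
    rw [ip_dXw_smul (sm_tv h α) hG]
    exact SP_congr u _ _ fun a b hab => by rw [← dXw_perm hG hab]; rfl

/-- The flux of one term. -/
def flux (F : Fld) (ω σ : E3 → ℝ) (G : E3 → SV) (Q : ℝ) (j m : ℕ) (i : Ix) (u : List Ix)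
    (y : E3) : ℝ :=
  F.u i y * ω y * (σ y ^ (2 * j) * NW Q m (dXw u G y) (dXw u G y))
    + ω y * F.c y * (σ y ^ (2 * j) * NVW Q m i (dXw u G y) (dXw u G y))

lemma sm_flux (h : F.Reg) (hω : Sm ω) (hσ : Sm σ) (hG : Sm G) (Q : ℝ) (j m : ℕ) (i : Ix)
    (u : List Ix) : Sm (flux F ω σ G Q j m i u) :=
  (((h.u i).1.mul hω).mul ((sm_pow hσ _).mul (sm_NW (hG.dXw u) (hG.dXw u) Q m))).add
    ((hω.mul h.c.1).mul ((sm_pow hσ _).mul (sm_NV (hG.dXw u) Q m i)))

lemma per_flux (h : F.Reg) (hω : Per ω) (hσ : Per σ) (hG : Per G) (Q : ℝ) (j m : ℕ) (i : Ix)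
    (u : List Ix) : Per (flux F ω σ G Q j m i u) := fun k x => by
  simp only [flux, (h.u i).2 k x, h.c.2 k x, hω k x, hσ k x, hG.dXw u k x]

lemma dX_flux (h : F.Reg) (hω : Sm ω) (hσ : Sm σ) (hG : Sm G) (Q : ℝ) (j m : ℕ) (i : Ix)
    (u : List Ix) (x : E3) :
    dX i (flux F ω σ G Q j m i u) x = (jet F ω σ μ ωt σt γ G x).dJ Q j m i u := by
  have a0 := sm_NW (hG.dXw u) (hG.dXw u) Q m
  have a1 := (sm_pow hσ (2 * j)).mul a0
  have a2 := (sm_pow hσ (2 * j)).mul (sm_NV (hG.dXw u) Q m i)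
  unfold flux
  rw [dX_add (((h.u i).1.mul hω).mul a1).dif ((hω.mul h.c.1).mul a2).dif,
    dX_mul ((h.u i).1.mul hω).dif a1.dif, dX_mul (hω.mul h.c.1).dif a2.dif,
    dX_mul (sm_pow hσ _).dif a0.dif,
    dX_mul (sm_pow hσ _).dif (sm_NV (hG.dXw u) Q m i).dif, dX_mul hω.dif h.c.1.dif]
  simp only [dX_pow' hσ, dX_NW (hG.dXw u), dX_NV (hG.dXw u), ← dXw_dX hG]
  push_cast
  rfl

lemma jet_sum (h : F.Reg) (hω : Sm ω) (hσ : Sm σ) (hG : Sm G) (n : ℕ) (θ q : ℝ) (x : E3) :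
    etH n θ q ω σ ωt σt G x + γ x * bh n θ q σ G G x - 2 * (ω x * bh n θ q σ (F.tr G) G x)
      + ∑ j ∈ range (n + 1), ∑ m ∈ range (n + 1 - j), θ ^ (j + m) *
          ∑ u ∈ words j, ∑ i, dX i (flux F ω σ G (q - 2 * u.length - m) j m i u) x
      = ∑ j ∈ range (n + 1), ∑ m ∈ range (n + 1 - j), θ ^ (j + m) *
          ∑ u ∈ words j, (jet F ω σ μ ωt σt γ G x).q (q - 2 * u.length - m) j m u := by
  simp only [etH, bh, lev, mul_sum, ← sum_add_distrib, ← sum_sub_distrib]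
  refine sum_congr rfl fun j _ => sum_congr rfl fun m _ => sum_congr rfl fun u _ => ?_
  rw [jet_A (ω := ω) (σ := σ) (μ := μ) (ωt := ωt) (σt := σt) (γ := γ) h hG, ← mul_sum]
  simp only [dX_flux (μ := μ) (ωt := ωt) (σt := σt) (γ := γ) h hω hσ hG]
  unfold Jet.q
  change _ = θ ^ (j + m) * ((ωt x * σ x ^ (2 * j) + ω x * (2 * j * σ x ^ (2 * j - 1) * σt x)
    + γ x * σ x ^ (2 * j)) * NW _ m (dXw u G x) (dXw u G x) - 2 * ω x * σ x ^ (2 * j) * _ + _)
  ring

lemma continuous_bh {H : E3 → SV} (hσ : Continuous σ) (hG : Sm G) (hH : Sm H) (n : ℕ) (θ q : ℝ) :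
    Continuous (bh n θ q σ G H) := by
  unfold bh lev
  exact continuous_finsetSum _ fun j _ => continuous_finsetSum _ fun m _ =>
    (continuous_const.mul (hσ.pow _)).mul (continuous_finsetSum _ fun u _ =>
      (sm_NW (hG.dXw u) (hH.dXw u) _ m).cont)

lemma continuous_etH (hω : Continuous ω) (hσ : Continuous σ) (hωt : Continuous ωt)
    (hσt : Continuous σt) (hG : Sm G) (n : ℕ) (θ q : ℝ) :
    Continuous (etH n θ q ω σ ωt σt G) := by
  unfold etH
  exact (hωt.mul (continuous_bh hσ hG hG n θ q)).add (hω.mul (continuous_finsetSum _ fun j _ =>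
    continuous_finsetSum _ fun m _ => (continuous_const.mul
      ((continuous_const.mul (hσ.pow _)).mul hσt)).mul (continuous_finsetSum _ fun u _ =>
        (sm_NW (hG.dXw u) (hG.dXw u) _ m).cont)))

/-- One jet component is bounded by the energy density. -/
lemma rho_le {n : ℕ} {θ q : ℝ} (hθ : 0 < θ) (hθ1 : θ ≤ 1) (x : E3) (u : List Ix) (l : ℕ) (a : ℝ)
    (hl : u.length + l ≤ n) (ha : a ≤ q - 2 * u.length - l) :
    σ x ^ u.length * √(SW a l (dXw u G x)) ≤ √((n + 1) / θ ^ n * bh n θ q σ G G x) := by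
  refine Real.le_sqrt_of_sq_le ?_
  rw [mul_pow, Real.sq_sqrt (SW_nonneg _ _ _), ← pow_mul, mul_comm u.length, SW, mul_sum]
  have h0 : 0 ≤ bh n θ q σ G G x := KK.lev_nonneg hθ.le fun _ _ => NW_nonneg _ _ _
  refine (sum_le_card_nsmul _ _ (bh n θ q σ G G x / θ ^ n) fun k hk => ?_).trans ?_
  · have hk' := mem_range.1 hk
    have h1 := KK.term_le_lev (n := n) (σ := σ x) hθ.le
      (φ := fun u m => NW (q - 2 * u.length - m) m (dXw u G x) (dXw u G x))
      (fun _ _ => NW_nonneg _ _ _) u k (by omega)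
    have h2 : θ ^ n ≤ θ ^ (u.length + k) := pow_le_pow_of_le_one hθ.le hθ1 (by omega)
    have h3 := NW_mono (by linarith : a + l - k ≤ q - 2 * u.length - k) k (dXw u G x)
    have h4 := NW_nonneg (a + l - k) k (dXw u G x)
    have h5 : 0 ≤ σ x ^ (2 * u.length) := by rw [pow_mul']; positivity
    rw [le_div_iff₀' (by positivity), ← mul_assoc]
    exact le_trans (by gcongr) h1
  · have h2 : ((l + 1 : ℕ) : ℝ) ≤ n + 1 := by exact_mod_cast (by omega : l + 1 ≤ n + 1)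
    rw [card_range, nsmul_eq_mul, div_mul_eq_mul_div, mul_div_assoc]
    gcongr

/-- The pointwise inequality. -/
lemma point_le (hV : VHStmt) (K : ℕ → ℝ) (n : ℕ) (θ q : ℝ) (hθ : 0 < θ) (hθ1 : θ ≤ 1) :
    ∃ C : ℝ, 0 < C ∧ ∀ (F : Fld) (lam : ℝ) (ω σ μ ωt σt γ : E3 → ℝ) (G : E3 → SV), 0 ≤ lam →
      F.Bd K σ μ → WtBd F K lam ω σ μ ωt σt γ → ∀ x,
      ∑ j ∈ range (n + 1), ∑ m ∈ range (n + 1 - j), θ ^ (j + m) *
          ∑ u ∈ words j, (jet F ω σ μ ωt σt γ G x).q (q - 2 * u.length - m) j m u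
        ≤ C * (μ x * ω x * bh n θ (q + 1 / 2) σ G G x) := by
  choose c hc0 hc using Jet.level hV K n q
  set S := ∑ j ∈ range (n + 1), ∑ m ∈ range (n + 1 - j), c j m with hS
  have hS0 : 0 ≤ S := sum_nonneg fun _ _ => sum_nonneg fun _ _ => hc0 _ _
  refine ⟨(S + 1) * ((n + 1) / θ ^ n), by positivity,
    fun F lam ω σ μ ωt σt γ G hl hB hW x => ?_⟩
  have hμ := hW.hμ.pos x
  have hω := hW.hω.pos x
  have h0 : 0 ≤ bh n θ (q + 1 / 2) σ G G x := KK.lev_nonneg hθ.le fun _ _ => NW_nonneg _ _ _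
  set Y := μ x * ω x * ((n + 1) / θ ^ n * bh n θ (q + 1 / 2) σ G G x) with hY
  have hY0 : 0 ≤ Y := by positivity
  calc _ ≤ ∑ j ∈ range (n + 1), ∑ m ∈ range (n + 1 - j), c j m * Y := by
        refine sum_le_sum fun j hj => sum_le_sum fun m hm => ?_
        have := hc j m _ _ (jet_H (G := G) hl hB hW x)
          (by have := mem_range.1 hj; have := mem_range.1 hm; omega)
          (rho_le (σ := σ) (G := G) (q := q + 1 / 2) hθ hθ1 x)
        rw [Real.mul_self_sqrt (by positivity)] at this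
        exact (mul_le_mul_of_nonneg_left this (by positivity)).trans (mul_le_of_le_one_left
          (mul_nonneg (hc0 j m) hY0) (pow_le_one₀ hθ.le hθ1))
    _ = S * Y := by simp only [hS, sum_mul]
    _ ≤ (S + 1) * Y := by gcongr; linarith
    _ = _ := by rw [hY]; ring

end HT

open HT in
theorem trH (hV : VHStmt) : TrHStmt := by
  intro K n θ q hθ hθ1
  obtain ⟨C, hC, h0⟩ := point_le hV K n θ q hθ hθ1
  refine ⟨C, hC, fun F lam ω σ μ ωt σt γ G hlam hR hB hW hωt hσt hγ hG hP => ?_⟩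
  have hω := hW.hω.sm
  have hσ := hW.hσ.sm
  have c1 := continuous_etH hω.cont hσ.cont hωt hσt hG n θ q
  have c2 : Continuous fun x => γ x * bh n θ q σ G G x :=
    hγ.mul (continuous_bh hσ.cont hG hG n θ q)
  have c3 : Continuous fun x => ω x * bh n θ q σ (F.tr G) G x :=
    hω.cont.mul (continuous_bh hσ.cont (sm_tr hR hG) hG n θ q)
  have c4 : ∀ Q j m i u, Continuous (dX i (flux F ω σ G Q j m i u)) := fun Q j m i u =>
    ((sm_flux hR hω hσ hG Q j m i u).dX i).cont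
  have c5 : ∀ j m : ℕ, Continuous fun x => θ ^ (j + m) *
      ∑ u ∈ words j, ∑ i, dX i (flux F ω σ G (q - 2 * u.length - m) j m i u) x := fun j m =>
    continuous_const.mul (continuous_finsetSum _ fun u _ => continuous_finsetSum _ fun i _ =>
      c4 _ j m i u)
  have c6 : Continuous fun x => ∑ j ∈ range (n + 1), ∑ m ∈ range (n + 1 - j), θ ^ (j + m) *
      ∑ u ∈ words j, ∑ i, dX i (flux F ω σ G (q - 2 * u.length - m) j m i u) x :=
    continuous_finsetSum _ fun j _ => continuous_finsetSum _ fun m _ => c5 j m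
  have cy : Continuous fun x => μ x * ω x * bh n θ (q + 1 / 2) σ G G x :=
    (hW.hμ.sm.cont.mul hω.cont).mul (continuous_bh hσ.cont hG hG n θ _)
  have hdiv : tint (fun x => ∑ j ∈ range (n + 1), ∑ m ∈ range (n + 1 - j), θ ^ (j + m) *
      ∑ u ∈ words j, ∑ i, dX i (flux F ω σ G (q - 2 * u.length - m) j m i u) x) = 0 := by
    rw [tint_sum _ fun j _ => continuous_finsetSum _ fun m _ => c5 j m]
    refine sum_eq_zero fun j _ => ?_
    rw [tint_sum _ fun m _ => c5 j m]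
    refine sum_eq_zero fun m _ => ?_
    rw [tint_const_mul, tint_sum _ fun u _ => continuous_finsetSum _ fun i _ => c4 _ j m i u]
    refine mul_eq_zero_of_right _ (sum_eq_zero fun u _ => ?_)
    rw [tint_sum _ fun i _ => c4 _ j m i u]
    exact sum_eq_zero fun i _ => tint_dX (sm_flux hR hω hσ hG _ j m i u)
      (per_flux hR hW.hω.per hW.hσ.per hP _ j m i u) i
  have main := tint_mono (((c1.add c2).sub (continuous_const.mul c3)).add c6)
    (continuous_const.mul cy)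
    fun x => (jet_sum (μ := μ) (ωt := ωt) (σt := σt) (γ := γ) hR hω hσ hG n θ q x).trans_le
      (h0 F lam ω σ μ ωt σt γ G hlam hB hW x)
  erw [tint_add ((c1.add c2).sub (continuous_const.mul c3)) c6,
    tint_sub (c1.add c2) (continuous_const.mul c3), tint_add c1 c2, tint_const_mul, hdiv,
    tint_const_mul] at main
  unfold EnH
  linarith

end Pool.Agent.BoltzM
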