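import Pool.Agent.BoltzM.Spec.Hot

/-! Velocity estimates for the weighted forms: multipliers and pointwise bounds. -/

set_option autoImplicit false

open MeasureTheory Pool.Agent.BoltzM.BoltzC Finset

noncomputable section

namespace Pool.Agent.BoltzM

variable [Dim]

namespace Vel2

lemma dV_Jw (r : ℝ) (j : Ix) (f : SV) :
    dV j (Jw r f) = Jw r (dV j f) + (2 * r) • mulV j (Jw (r - 1) f) := by
  ext v
  have h0 : (Jw r f : E → ℝ) = fun v => (1 + ‖v‖ ^ 2) ^ r * f v := funext (Jw_apply r f)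
  have h1 := (((hasStrictFDerivAt_norm_sq v).hasFDerivAt.const_add 1).rpow_const (p := r)
    (Or.inl (by positivity))).mul (f.hasFDerivAt v)
  rw [dV_apply, h0]
  erw [h1.fderiv]
  simp [dV_apply, inner_ev]
  ring

lemma ap_Jw (r : ℝ) (j : Ix) (f : SV) :
    ap j (Jw r f) = Jw r (ap j f) + (-(2 * r)) • mulV j (Jw (r - 1) f) := by
  ext v
  have := congrArg (fun g : SV => g v) (dV_Jw r j f)
  simp only [dV_apply, add_apply, smul_apply, mulV_apply, Jw_apply,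
    smul_eq_mul] at this
  simp only [ap_apply, add_apply, smul_apply, mulV_apply, Jw_apply,
    smul_eq_mul, this]
  ring

lemma fderiv_Sq (j : Ix) (f : SV) (v : E) : fderiv ℝ (Sq f) v (ev j) = -Sq (ap j f) v := by
  have h0 : (Sq f : E → ℝ) = fun v => sqM v * f v := funext (Sq_apply f)
  have h1 := (hasFDerivAt_sqM v).mul (f.hasFDerivAt v)
  rw [h0]
  erw [h1.fderiv]
  simp [ap_apply, inner_ev]
  ring

lemma ap_Sq (j : Ix) (f : SV) : ap j (Sq f) = Sq (ap j f) + (1 / 2 : ℝ) • mulV j (Sq f) := by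
  ext v
  simp only [ap_apply j (Sq f), fderiv_Sq, add_apply, smul_apply,
    mulV_apply, smul_eq_mul]
  ring

/-- Multipliers of growth `(1 + |V|^2)^a` relative to `G`. -/
inductive MC (G : SV →L[ℝ] SV) : ℝ → (SV →L[ℝ] SV) → Prop
  | base (r : ℝ) : MC G r ((Jw r).comp G)
  | mul (i : Ix) {a : ℝ} {B : SV →L[ℝ] SV} : MC G a B → MC G (a + 1 / 2) ((mulV i).comp B)
  | add {a : ℝ} {B B' : SV →L[ℝ] SV} : MC G a B → MC G a B' → MC G a (B + B')
  | smul (c : ℝ) {a : ℝ} {B : SV →L[ℝ] SV} : MC G a B → MC G a (c • B)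
  | mono {a b : ℝ} {B : SV →L[ℝ] SV} : MC G a B → a ≤ b → MC G b B

variable {G : SV →L[ℝ] SV} {a : ℝ} {B : SV →L[ℝ] SV}

lemma MC.bd (h : MC G a B) :
    ∃ C : ℝ, 0 ≤ C ∧ ∀ f v, |B f v| ≤ C * ((1 + ‖v‖ ^ 2) ^ a * |G f v|) := by
  induction h with
  | base r =>
    refine ⟨1, zero_le_one, fun f v => le_of_eq ?_⟩
    rw [ContinuousLinearMap.comp_apply, Jw_apply, abs_mul, one_mul, abs_of_nonneg (by positivity)]
  | @mul i a B _ ih =>
    obtain ⟨C, hC, h⟩ := ih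
    refine ⟨C, hC, fun f v => ?_⟩
    have h1 : |v i| ≤ (1 + ‖v‖ ^ 2) ^ (1 / 2 : ℝ) := by
      rw [← Real.sqrt_eq_rpow]
      have : |v i| ≤ ‖v‖ := by simpa using PiLp.norm_apply_le v i
      exact this.trans (Real.le_sqrt_of_sq_le (by linarith))
    rw [ContinuousLinearMap.comp_apply, mulV_apply, abs_mul, Real.rpow_add (by positivity)]
    calc _ ≤ (1 + ‖v‖ ^ 2) ^ (1 / 2 : ℝ) * (C * ((1 + ‖v‖ ^ 2) ^ a * |G f v|)) :=
          mul_le_mul h1 (h f v) (abs_nonneg _) (by positivity)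
      _ = _ := by ring
  | add _ _ h1 h2 =>
    obtain ⟨C, hC, h1⟩ := h1
    obtain ⟨D, hD, h2⟩ := h2
    refine ⟨C + D, by positivity, fun f v => ?_⟩
    rw [add_apply, add_apply]
    linarith [abs_add_le (_ : ℝ) _ |>.trans (add_le_add (h1 f v) (h2 f v))]
  | smul c _ h1 =>
    obtain ⟨C, hC, h1⟩ := h1
    refine ⟨|c| * C, by positivity, fun f v => ?_⟩
    rw [smul_apply, smul_apply, smul_eq_mul, abs_mul, mul_assoc]
    exact mul_le_mul_of_nonneg_left (h1 f v) (abs_nonneg c)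
  | mono _ hab h1 =>
    obtain ⟨C, hC, h1⟩ := h1
    refine ⟨C, hC, fun f v => (h1 f v).trans ?_⟩
    gcongr
    exact le_add_of_nonneg_right (sq_nonneg _)

/-- The commutators of `G` with the creation operators cost `δ`. -/
def Cm (G : SV →L[ℝ] SV) (δ : ℝ) : Prop := 0 ≤ δ ∧ ∀ r j, ∃ B', MC G (r + δ) B' ∧
  ∀ f, Jw r (ap j (G f)) = Jw r (G (ap j f)) + B' f

lemma cm_id : Cm (ContinuousLinearMap.id ℝ SV) 0 :=
  ⟨le_rfl, fun r _ => ⟨_, (MC.base (r + 0)).smul 0, fun f => by simp⟩⟩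

lemma cm_Sq : Cm Sq (1 / 2) :=
  ⟨by norm_num, fun r j => ⟨_, ((MC.base r).mul j).smul (1 / 2), fun f => by
    ext v
    simp [ap_Sq]
    ring⟩⟩

lemma MC.ad {δ : ℝ} (hG : Cm G δ) (j : Ix) (h : MC G a B) :
    ∃ B', MC G (a + δ) B' ∧ ∀ f, ap j (B f) = B (ap j f) + B' f := by
  have hδ := hG.1
  induction h with
  | base r =>
    obtain ⟨B', h1, h2⟩ := hG.2 r j
    refine ⟨_, h1.add ((((MC.base (r - 1)).mul j).smul (-(2 * r))).mono (by linarith)), fun f => ?_⟩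
    simp only [ContinuousLinearMap.comp_apply, add_apply,
      smul_apply, ap_Jw, h2, add_assoc]
  | @mul i a B hB ih =>
    obtain ⟨B', h1, h2⟩ := ih
    refine ⟨_, ((h1.mul i).mono (by linarith)).add
      ((hB.smul (-if j = i then (1 : ℝ) else 0)).mono (by linarith)), fun f => ?_⟩
    simp only [ContinuousLinearMap.comp_apply, add_apply,
      smul_apply, ap_mulV, h2, map_add]
    module
  | add _ _ h1 h2 =>
    obtain ⟨B1, h1, e1⟩ := h1
    obtain ⟨B2, h2, e2⟩ := h2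
    refine ⟨_, h1.add h2, fun f => ?_⟩
    simp only [add_apply, map_add, e1, e2]
    abel
  | smul c _ h1 =>
    obtain ⟨B1, h1, e1⟩ := h1
    refine ⟨_, h1.smul c, fun f => ?_⟩
    simp only [smul_apply, map_smul, e1, smul_add]
  | mono _ hab h1 =>
    obtain ⟨B1, h1, e1⟩ := h1
    exact ⟨_, h1.mono (by linarith), e1⟩

lemma NW_succ (q : ℝ) (m : ℕ) (f : SV) : NW q (m + 1) f f = ∑ j, NW q m (ap j f) (ap j f) := by
  simp only [NW_eq, sum_words_succ, apW_cons, apW_ap]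

/-- The squared norm of `A f`. -/
def TT (A : SV →L[ℝ] SV) (f : SV) : ℝ := ip (A f) (A f)

lemma TT_add (A : SV →L[ℝ] SV) (f g : SV) : TT A (f + g) ≤ 2 * TT A f + 2 * TT A g := by
  rw [TT, map_add A]; exact ip_add_self_le _ _

/-- The class of `G` maps the weight `s a` to the norm of `A`. -/
def Bd (A G : SV →L[ℝ] SV) (s : ℝ → ℝ) : Prop :=
  ∀ a B, MC G a B → ∃ C : ℝ, 0 ≤ C ∧ ∀ h, TT A (B h) ≤ C * ipW (s a) h h

variable {A : SV →L[ℝ] SV} {s : ℝ → ℝ} {δ : ℝ}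

lemma full_of (hb : Bd A G s) (h : MC G a B) {m : ℕ}
    (hc : ∃ C : ℝ, 0 ≤ C ∧ ∀ f, ∑ w ∈ words m, TT A (apW w (B f) - B (apW w f))
      ≤ C * ∑ l ∈ range m, NW (s (a + (m - l) * δ)) l f f) :
    ∃ C : ℝ, 0 < C ∧ ∀ f, ∑ w ∈ words m, TT A (apW w (B f))
      ≤ C * ∑ l ∈ range (m + 1), NW (s (a + (m - l) * δ)) l f f := by
  obtain ⟨C, hC, hc⟩ := hc
  obtain ⟨D, hD, hd⟩ := hb a B h
  refine ⟨2 * C + 2 * D + 1, by positivity, fun f => ?_⟩
  have h1 : ∑ w ∈ words m, TT A (apW w (B f)) ≤ ∑ w ∈ words m,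
      (2 * TT A (apW w (B f) - B (apW w f)) + 2 * (D * ipW (s a) (apW w f) (apW w f))) :=
    sum_le_sum fun w _ => by
      have := TT_add A (apW w (B f) - B (apW w f)) (B (apW w f))
      rw [sub_add_cancel] at this
      linarith [hd (apW w f)]
  rw [sum_add_distrib, ← mul_sum, ← mul_sum, ← mul_sum, ← NW_eq] at h1
  rw [sum_range_succ, sub_self, zero_mul, add_zero]
  have h2 : 0 ≤ ∑ l ∈ range m, NW (s (a + (m - l) * δ)) l f f := sum_nonneg fun _ _ => NW_nonneg _ _ _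
  have h3 := NW_nonneg (s a) m f
  nlinarith [hc f, mul_nonneg hC h3, mul_nonneg hD h2]

lemma comm (hG : Cm G δ) (hb : Bd A G s) (m : ℕ) : ∀ {a B}, MC G a B →
    ∃ C : ℝ, 0 ≤ C ∧ ∀ f, ∑ w ∈ words m, TT A (apW w (B f) - B (apW w f))
      ≤ C * ∑ l ∈ range m, NW (s (a + (m - l) * δ)) l f f := by
  induction m with
  | zero => exact fun _ => ⟨0, le_rfl, fun f => by simp [words, TT]⟩
  | succ m ih =>
    intro a B h
    obtain ⟨C, hC, hc⟩ := ih h
    choose B' h1 h2 using fun j => h.ad hG j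
    choose D hD hd using fun j => full_of hb (h1 j) (ih (h1 j))
    have hD' : 0 ≤ ∑ j, D j := sum_nonneg fun j _ => (hD j).le
    refine ⟨2 * C + 2 * ∑ j, D j, by positivity, fun f => ?_⟩
    set S := ∑ l ∈ range (m + 1), NW (s (a + ((m + 1 : ℕ) - l) * δ)) l f f with hS
    have e1 : ∑ l ∈ range (m + 1), NW (s (a + δ + (m - l) * δ)) l f f = S :=
      sum_congr rfl fun l _ => by
        rw [show a + δ + (m - l) * δ = a + ((m + 1 : ℕ) - l) * δ by push_cast; ring]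
    have e2 : ∑ j, ∑ l ∈ range m, NW (s (a + (m - l) * δ)) l (ap j f) (ap j f) ≤ S := by
      rw [sum_comm, hS, sum_range_succ']
      refine le_add_of_le_of_nonneg (le_of_eq (sum_congr rfl fun l _ => ?_)) (NW_nonneg _ _ _)
      rw [NW_succ, show ((m + 1 : ℕ) : ℝ) - (l + 1 : ℕ) = m - l by push_cast; ring]
    rw [sum_words_succ]
    calc _ ≤ ∑ j, (2 * (C * ∑ l ∈ range m, NW (s (a + (m - l) * δ)) l (ap j f) (ap j f))
          + 2 * (D j * S)) := by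
          refine sum_le_sum fun j _ => le_trans (sum_le_sum (g := fun w =>
            2 * TT A (apW w (B (ap j f)) - B (apW w (ap j f))) + 2 * TT A (apW w (B' j f)))
            fun w _ => ?_) ?_
          · rw [apW_cons, apW_cons, ← apW_ap, ← apW_ap, h2, map_add, add_sub_right_comm]
            exact TT_add _ _ _
          · rw [sum_add_distrib, ← mul_sum, ← mul_sum, ← e1]
            linarith [hc (ap j f), hd j f]
      _ ≤ _ := by
          rw [sum_add_distrib, ← mul_sum, ← mul_sum, ← mul_sum, ← sum_mul]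
          linarith [mul_le_mul_of_nonneg_left e2 hC]

lemma full (hG : Cm G δ) (hb : Bd A G s) (m : ℕ) (h : MC G a B) :
    ∃ C : ℝ, 0 < C ∧ ∀ f, ∑ w ∈ words m, TT A (apW w (B f))
      ≤ C * ∑ l ∈ range (m + 1), NW (s (a + (m - l) * δ)) l f f := full_of hb h (comm hG hb m h)

/-- The operator of the weight `q`. -/
def AW (q : ℝ) : SV →L[ℝ] SV := (Jw (q / 2)).comp Sq

lemma ip_AW (a b : ℝ) (f g : SV) : ip (AW a f) (AW b g) = ipW (a / 2 + b / 2) f g := by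
  simp only [ipW_eq, ip_def, AW, ContinuousLinearMap.comp_apply, Jw_apply, Sq_apply]
  congr 1; funext v
  rw [Real.rpow_add (by positivity)]
  ring

lemma TT_AW (q : ℝ) (f : SV) : TT (AW q) f = ipW q f f := by rw [TT, ip_AW, add_halves]

lemma abs_sum_le (a b : ℝ) (m : ℕ) (F : List Ix → SV) (g : SV) :
    |∑ w ∈ words m, ipW (a / 2 + b / 2) (F w) (apW w g)|
      ≤ √(∑ w ∈ words m, TT (AW a) (F w)) * √(NW b m g g) := by
  refine (abs_sum_le_sum_abs _ _).trans ((sum_le_sum fun w _ => ?_).trans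
    (NW_eq b m g g ▸ Real.sum_sqrt_mul_sqrt_le _ (fun _ => ip_self_nonneg _)
      fun _ => ipW_nonneg _ _))
  rw [← ip_AW, ← TT_AW]
  exact abs_ip_le _ _

lemma TT_le {A' : SV →L[ℝ] SV} {f g : SV} {C : ℝ} (h : ∀ v, |A f v| ≤ C * |A' g v|) :
    TT A f ≤ C ^ 2 * TT A' g := by
  rw [TT, TT, ip_def, ip_def, ← integral_const_mul]
  refine integral_mono (integrable_mul _ _) ((integrable_mul _ _).const_mul _) fun v => ?_
  have := mul_self_le_mul_self (abs_nonneg _) (h v)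
  rw [abs_mul_abs_self, mul_mul_mul_comm, abs_mul_abs_self, ← sq C] at this
  exact this

lemma rpow_sqM_le (r : ℝ) : ∃ C : ℝ, 0 < C ∧ ∀ v : E, (1 + ‖v‖ ^ 2) ^ r * sqM v ≤ C := by
  obtain ⟨n, hn⟩ := exists_nat_ge r
  refine ⟨_, Real.exp_pos _, fun v => le_trans ?_ (pow_mul_sqM_le (2 * n) v)⟩
  refine mul_le_mul_of_nonneg_right ?_ (sqM_pos v).le
  calc _ ≤ (1 + ‖v‖ ^ 2) ^ (n : ℝ) :=
        Real.rpow_le_rpow_of_exponent_le (le_add_of_nonneg_right (sq_nonneg _)) hn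
    _ ≤ _ := by
        rw [Real.rpow_natCast, pow_mul]
        gcongr
        nlinarith [norm_nonneg v]

lemma abs_AW (q : ℝ) (f : SV) (v : E) : |AW q f v| = (1 + ‖v‖ ^ 2) ^ (q / 2) * (sqM v * |f v|) := by
  rw [AW, ContinuousLinearMap.comp_apply, Jw_apply, Sq_apply, abs_mul, abs_mul,
    abs_of_nonneg (by positivity), abs_of_pos (sqM_pos v)]

lemma bd_id (q : ℝ) : Bd (AW q) (ContinuousLinearMap.id ℝ SV) fun a => q + 2 * a := fun a B h => by
  obtain ⟨C, hC, h⟩ := h.bd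
  refine ⟨C ^ 2, sq_nonneg _, fun f => TT_AW _ f ▸ TT_le fun v => ?_⟩
  have := sqM_pos v
  rw [abs_AW, abs_AW, show (q + 2 * a) / 2 = q / 2 + a by ring, Real.rpow_add (by positivity)]
  calc _ ≤ (1 + ‖v‖ ^ 2) ^ (q / 2) * (sqM v * (C * ((1 + ‖v‖ ^ 2) ^ a * |f v|))) := by
        gcongr; exact h f v
    _ = _ := by ring

lemma bd_Sq (q q' : ℝ) : Bd (AW q) Sq fun _ => q' := fun a B h => by
  obtain ⟨C, hC, h⟩ := h.bd
  obtain ⟨D, hD, hd⟩ := rpow_sqM_le (q / 2 + a - q' / 2)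
  refine ⟨(C * D) ^ 2, sq_nonneg _, fun f => TT_AW _ f ▸ TT_le fun v => ?_⟩
  have := sqM_pos v
  have h1 := h f v
  rw [Sq_apply, abs_mul, abs_of_pos this] at h1
  have e : (1 + ‖v‖ ^ 2) ^ (q / 2) * (1 + ‖v‖ ^ 2) ^ a
      = (1 + ‖v‖ ^ 2) ^ (q / 2 + a - q' / 2) * (1 + ‖v‖ ^ 2) ^ (q' / 2) := by
    rw [← Real.rpow_add (by positivity), ← Real.rpow_add (by positivity), sub_add_cancel]
  rw [abs_AW, abs_AW]
  calc _ ≤ (1 + ‖v‖ ^ 2) ^ (q / 2) * (sqM v * (C * ((1 + ‖v‖ ^ 2) ^ a * (sqM v * |f v|)))) := by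
        gcongr
    _ = C * ((1 + ‖v‖ ^ 2) ^ (q / 2 + a - q' / 2) * sqM v)
        * ((1 + ‖v‖ ^ 2) ^ (q' / 2) * (sqM v * |f v|)) := by
        linear_combination (C * sqM v * sqM v * |f v|) * e
    _ ≤ _ := by gcongr; exact hd v

lemma bd_A : Bd (ContinuousLinearMap.id ℝ SV) Sq fun a => 2 * a := fun a B h => by
  obtain ⟨C, hC, h⟩ := h.bd
  refine ⟨C ^ 2, sq_nonneg _, fun f => TT_AW _ f ▸ TT_le fun v => ?_⟩
  have h1 := h f v
  rw [Sq_apply, abs_mul, abs_of_pos (sqM_pos v)] at h1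
  rwa [abs_AW, mul_div_cancel_left₀ a two_ne_zero]

lemma mc_Sq : MC Sq 0 Sq := by
  have := MC.base (G := Sq) 0
  rwa [show (Jw 0).comp Sq = Sq from ContinuousLinearMap.ext fun f => Jw_zero _] at this

omit [Dim] in
lemma sqrt_le {x C y : ℝ} (h : x ≤ C * y) (hC : 0 ≤ C) : √x ≤ (√C + 1) * √y :=
  (Real.sqrt_le_sqrt h).trans (by
    rw [Real.sqrt_mul hC]; nlinarith [Real.sqrt_nonneg y])

end Vel2

open Vel2

theorem vh_sqc (q q' : ℝ) (m : ℕ) : ∃ C : ℝ, 0 < C ∧ ∀ f g,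
    |NW q m (Sq f) g - ∑ w ∈ words m, ipW q (Sq (apW w f)) (apW w g)|
      ≤ C * √(∑ l ∈ range m, NW q' l f f) * √(NW q m g g) := by
  obtain ⟨C, hC, h⟩ := comm cm_Sq (bd_Sq q q') m mc_Sq
  refine ⟨√C + 1, by positivity, fun f g => ?_⟩
  have h1 := abs_sum_le q q m (fun w => apW w (Sq f) - Sq (apW w f)) g
  simp only [add_halves, ipW, map_sub, LinearMap.sub_apply, sum_sub_distrib] at h1
  rw [NW_eq]
  exact h1.trans (mul_le_mul_of_nonneg_right (sqrt_le (h f) hC) (Real.sqrt_nonneg _))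

theorem vh_sqb (q q' : ℝ) (m : ℕ) :
    ∃ C : ℝ, 0 < C ∧ ∀ f, NW q m (Sq f) (Sq f) ≤ C * bW q' m f := by
  obtain ⟨C, hC, h⟩ := full cm_Sq (bd_Sq q q') m mc_Sq
  exact ⟨C, hC, fun f => by simpa only [NW_eq q, TT_AW, bW] using h f⟩

theorem vh_sqA (q : ℝ) (m : ℕ) :
    ∃ C : ℝ, 0 < C ∧ ∀ f, nA m (Jw q (Sq f)) ≤ C * SW (2 * q) m f := by
  obtain ⟨C, hC, h⟩ := full cm_Sq bd_A m (MC.base q)
  refine ⟨C, hC, fun f => (h f).trans (le_of_eq ?_)⟩
  congr 1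
  exact sum_congr rfl fun l _ => by congr 1; ring

theorem vh_jwc (q : ℝ) (m : ℕ) : ∃ C : ℝ, 0 < C ∧ ∀ f g, |NW q m (Jw 4 f) g - NW (q + 4) m f g|
    ≤ C * √(∑ l ∈ range m, NW (q + 4) l f f) * √(NW (q + 4) m g g) := by
  obtain ⟨C, hC, h⟩ := comm cm_id (bd_id (q - 4)) m (MC.base 4)
  refine ⟨√C + 1, by positivity, fun f g => ?_⟩
  have h1 := abs_sum_le (q - 4) (q + 4) m (fun w => apW w (Jw 4 f) - Jw 4 (apW w f)) g
  have h2 := h f
  simp only [mul_zero, add_zero, show q - 4 + 2 * 4 = q + 4 by ring] at h2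
  simp only [show (q - 4) / 2 + (q + 4) / 2 = q by ring, ipW, map_sub, LinearMap.sub_apply,
    sum_sub_distrib] at h1
  rw [NW_eq, NW_eq]
  simp only [← ipW_Jw]
  exact h1.trans (mul_le_mul_of_nonneg_right (sqrt_le h2 hC) (Real.sqrt_nonneg _))

theorem vh_jwb (q : ℝ) (m : ℕ) :
    ∃ C : ℝ, 0 < C ∧ ∀ f, NW q m (Jw 4 f) (Jw 4 f) ≤ C * bW (q + 8) m f := by
  obtain ⟨C, hC, h⟩ := full cm_id (bd_id q) m (MC.base 4)
  refine ⟨C, hC, fun f => ?_⟩
  have h2 := h f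
  simp only [mul_zero, add_zero, show q + 2 * 4 = q + 8 by ring, TT_AW] at h2
  rwa [NW_eq]

theorem vh_gauss (q : ℝ) : ∃ C : ℝ, 0 < C ∧ ∀ m f, NW q m f f ≤ C * nA m f := by
  obtain ⟨C, hC, h⟩ := rpow_sqM_le (q / 2)
  refine ⟨C ^ 2, by positivity, fun m f => ?_⟩
  rw [NW_eq, nA, mul_sum]
  refine sum_le_sum fun w _ => TT_AW q _ ▸ TT_le (A' := ContinuousLinearMap.id ℝ SV) fun v => ?_
  rw [abs_AW, ← mul_assoc]
  exact mul_le_mul_of_nonneg_right (h v) (abs_nonneg _)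

theorem vh_ds (q : ℝ) (m : ℕ) :
    ∃ C : ℝ, 0 < C ∧ ∀ f, NW q m (Ds f) (Ds f) ≤ C * nA m (f - PP f) := by
  obtain ⟨C, hC, h1⟩ := vh_jwb q m
  obtain ⟨D, hD, h2⟩ := vh_gauss (q + 8)
  set K : Hx → ℝ := fun a => √(ip (Jw 4 (eH a)) (Jw 4 (eH a))) with hK
  have hK0 : ∀ a, 0 ≤ K a := fun a => Real.sqrt_nonneg _
  set L := ∑ a, ∑ b, K a * K b * |NW q m (eH a) (eH b)| with hL
  have hL0 : 0 ≤ L := sum_nonneg fun a _ => sum_nonneg fun b _ =>
    mul_nonneg (mul_nonneg (hK0 a) (hK0 b)) (abs_nonneg _)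
  refine ⟨2 * (C * ((m + 1) * D)) + 2 * L, by positivity, fun f => ?_⟩
  rw [Ds_apply]
  generalize f - PP f = h
  have a1 : bW (q + 8) m h ≤ (m + 1) * D * nA m h := by
    refine (sum_le_card_nsmul _ _ (D * nA m h) fun l hl => (h2 l h).trans
      (mul_le_mul_of_nonneg_left (nA_mono (Nat.lt_succ_iff.1 (mem_range.1 hl)) h) hD.le)).trans ?_
    simp [mul_assoc]
  have a2 : ∀ a, |ip (eH a) (Jw 4 h)| ≤ K a * √(ip h h) := fun a => by
    have : ip (eH a) (Jw 4 h) = ip (Jw 4 (eH a)) h := by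
      simp only [ip_def, Jw_apply]
      congr 1; funext v; ring
    rw [this]
    exact abs_ip_le _ _
  have a3 : NW q m (PP (Jw 4 h)) (PP (Jw 4 h)) ≤ L * ip h h := by
    rw [PP_apply, hL]
    simp only [NW, map_sum, map_smul, LinearMap.sum_apply, LinearMap.smul_apply, smul_eq_mul,
      sum_mul, mul_sum]
    rw [sum_comm]
    refine sum_le_sum fun a _ => sum_le_sum fun b _ => (le_abs_self _).trans ?_
    rw [abs_mul, abs_mul]
    calc _ ≤ K b * √(ip h h) * (K a * √(ip h h) * |ip (eH a) (RW q m (eH b))|) := by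
          have := hK0 b
          gcongr
          exacts [a2 b, a2 a]
      _ = K a * K b * |ip (eH a) (RW q m (eH b))| * (√(ip h h) * √(ip h h)) := by ring
      _ = _ := by rw [Real.mul_self_sqrt (ip_self_nonneg h)]
  have a4 : ip h h ≤ nA m h := nA_zero h ▸ nA_mono (Nat.zero_le m) h
  have a5 : NW q m (Jw 4 h - PP (Jw 4 h)) (Jw 4 h - PP (Jw 4 h))
      ≤ 2 * NW q m (Jw 4 h) (Jw 4 h) + 2 * NW q m (PP (Jw 4 h)) (PP (Jw 4 h)) := by
    simp only [NW_eq, ← TT_AW, mul_sum, ← sum_add_distrib]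
    refine sum_le_sum fun w _ => ?_
    simp only [TT, map_sub (apW w), map_sub (AW q)]
    exact ip_sub_self_le _ _
  linarith [h1 h, mul_le_mul_of_nonneg_left a1 hC.le, mul_le_mul_of_nonneg_left a4 hL0]

lemma Vel2.val (p : ℕ) : ∃ C : ℝ, 0 < C ∧ ∀ f V,
    (1 + ‖V‖) ^ p * |Sq f V| ≤ C * √(bW (p + dd) dd f) := by
  obtain ⟨C, hC, h1⟩ := weighted_le_nA 0
  obtain ⟨D, hD, h2⟩ := vh_sqA (p / 2) dd
  refine ⟨2 ^ p * (C * (√D + 1)), by positivity, fun f V => ?_⟩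
  have a1 := (h1 (Jw (p / 2) (Sq f)) V).1
  have a2 := (h2 f).trans (mul_le_mul_of_nonneg_left (SW_le_bW _ _ f) hD.le)
  rw [mul_div_cancel₀ _ two_ne_zero] at a2
  rw [pow_zero, one_mul, zero_add, Jw_apply, abs_mul, abs_of_nonneg (by positivity)] at a1
  have a3 : (1 + ‖V‖) ^ p ≤ 2 ^ p * (1 + ‖V‖ ^ 2) ^ (p / 2 : ℝ) := by
    rw [div_eq_inv_mul, Real.rpow_mul (by positivity), Real.rpow_natCast, ← mul_pow, ← one_div,
      ← Real.sqrt_eq_rpow]
    gcongr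
    have b1 : 1 ≤ √(1 + ‖V‖ ^ 2) := Real.one_le_sqrt.2 (le_add_of_nonneg_right (sq_nonneg _))
    have b2 : ‖V‖ ≤ √(1 + ‖V‖ ^ 2) := Real.le_sqrt_of_sq_le (by linarith)
    linarith
  calc _ ≤ 2 ^ p * (1 + ‖V‖ ^ 2) ^ (p / 2 : ℝ) * |Sq f V| := by gcongr
    _ ≤ 2 ^ p * (C * ((√D + 1) * √(bW (p + dd) dd f))) := by
        rw [mul_assoc]
        exact mul_le_mul_of_nonneg_left
          (a1.trans (mul_le_mul_of_nonneg_left (sqrt_le a2 hD.le) hC.le)) (by positivity)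
    _ = _ := by ring

theorem vh_sup (p : ℕ) : ∃ C : ℝ, 0 < C ∧ ∀ f, PW p (C * √(bW (p + dd + 1) (dd + 1) f)) f ∧
    Coll.Nice p (C * √(bW (p + dd + 1) (dd + 1) f)) fun v => sqM v * f v := by
  obtain ⟨C, hC, h⟩ := Vel2.val p
  have hd := two_le_dr
  refine ⟨2 ^ p * (dd * C), by positivity, fun f => ?_⟩
  set X := √(bW (p + dd + 1) (dd + 1) f) with hX
  have hX0 : 0 ≤ X := Real.sqrt_nonneg _
  have a1 : ∀ V, (1 + ‖V‖) ^ p * |Sq f V| ≤ dd * C * X := fun V => by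
    have := (h f V).trans (mul_le_mul_of_nonneg_left (Real.sqrt_le_sqrt
      (bW_mono (q' := p + dd + 1) (by linarith) (Nat.le_succ _) f)) hC.le)
    nlinarith [mul_nonneg hC.le hX0]
  have a2 : ∀ V, (1 + ‖V‖) ^ p * ‖fderiv ℝ (Sq f) V‖ ≤ dd * C * X := fun V => by
    have b1 : ‖fderiv ℝ (Sq f) V‖ ≤ ∑ j, |Sq (ap j f) V| := by
      rw [fderiv_eq_sum]
      refine (norm_sum_le _ _).trans (sum_le_sum fun j _ => ?_)
      rw [norm_smul, fderiv_Sq, Real.norm_eq_abs, abs_neg]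
      refine mul_le_of_le_one_right (abs_nonneg _)
        (ContinuousLinearMap.opNorm_le_bound _ zero_le_one fun z => ?_)
      simpa using PiLp.norm_apply_le z j
    refine (mul_le_mul_of_nonneg_left b1 (by positivity)).trans ?_
    rw [mul_sum, mul_assoc]
    refine sum_le_Ix fun j => (h _ V).trans (mul_le_mul_of_nonneg_left (Real.sqrt_le_sqrt ?_) hC.le)
    rw [bW, bW, sum_range_succ' _ (dd + 1)]
    refine le_add_of_le_of_nonneg (sum_le_sum fun l _ => ?_) (NW_nonneg _ _ _)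
    rw [NW_succ]
    exact (NW_mono (by linarith) _ _).trans (single_le_sum
      (f := fun j => NW (p + dd + 1) l (ap j f) (ap j f)) (fun _ _ => NW_nonneg _ _ _) (mem_univ j))
  have a3 : dd * C * X ≤ 2 ^ p * (dd * C) * X := by
    rw [mul_assoc (2 ^ p)]
    exact le_mul_of_one_le_left (by positivity) (one_le_pow₀ one_le_two)
  refine ⟨fun V => ⟨(a1 V).trans a3, (a2 V).trans a3⟩, ?_⟩
  rw [← funext (Sq_apply f), mul_assoc (2 ^ p)]
  exact Coll.nice_of_fderiv (Sq f).differentiable a1 a2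

end Pool.Agent.BoltzM
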