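import Pool.Agent.BoltzM.HE.Vel1
import Pool.Agent.BoltzM.HE.Vel2

/-! Velocity estimates for the weighted forms. -/

set_option autoImplicit false

namespace Pool.Agent.BoltzM

variable [Dim]

theorem vhStmt : VHStmt :=
  ⟨vh_cs, vh_nv, vh_comm, vh_mv, vh_top, vh_low, vh_sqc, vh_sqb, vh_sqA, vh_jwc, vh_jwb, vh_gauss,
    vh_ds, vh_sup⟩

end Pool.Agent.BoltzM
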