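import Pool.Agent.BoltzM.Spec.Hot

/-!
Velocity estimates for the weighted forms, part 1: the fields `cs nv comm mv top low` of `VHStmt`.
-/

set_option autoImplicit false

open MeasureTheory Pool.Agent.BoltzM.BoltzC Finset

noncomputable section

namespace Pool.Agent.BoltzM

variable [Dim]

namespace VH1

/-! ### The weighted scalar product -/

lemma ipW_split (q r : ℝ) (f g : SV) : ipW q f g = ip (Jw (q - r) (Sq f)) (Jw r (Sq g)) := by
  rw [ipW_eq, ip_def]
  congr 1; funext v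
  simp only [Jw_apply, Sq_apply]
  rw [show (1 + ‖v‖ ^ 2) ^ q = (1 + ‖v‖ ^ 2) ^ (q - r) * (1 + ‖v‖ ^ 2) ^ r by
    rw [← Real.rpow_add (by positivity), sub_add_cancel]]
  ring

lemma ipW_half (a : ℝ) (f g : SV) : ipW a f g = ip (Jw (a / 2) (Sq f)) (Jw (a / 2) (Sq g)) := by
  rw [ipW_split a (a / 2), show a - a / 2 = a / 2 by ring]

lemma abs_ipW_le {q a b : ℝ} (h : 2 * q ≤ a + b) (f g : SV) :
    |ipW q f g| ≤ √(ipW a f f) * √(ipW b g g) := by
  rw [ipW_split q (b / 2)]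
  refine (abs_ip_le _ _).trans ?_
  rw [← ipW_half b, show q - b / 2 = (2 * q - b) / 2 by ring, ← ipW_half]
  gcongr
  exact ipW_mono (by linarith) f

lemma ipW_add_left (q : ℝ) (f f' g : SV) : ipW q (f + f') g = ipW q f g + ipW q f' g := by
  simp only [ipW, map_add, LinearMap.add_apply]

lemma ipW_sub_left (q : ℝ) (f f' g : SV) : ipW q (f - f') g = ipW q f g - ipW q f' g := by
  simp only [ipW, map_sub, LinearMap.sub_apply]

lemma ipW_sub_right (q : ℝ) (f g g' : SV) : ipW q f (g - g') = ipW q f g - ipW q f g' := by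
  simp only [ipW, map_sub]

lemma ipW_smul_right (q c : ℝ) (f g : SV) : ipW q f (c • g) = c * ipW q f g := by
  simp only [ipW, map_smul, smul_eq_mul]

lemma ipW_add_self_le (q : ℝ) (f g : SV) :
    ipW q (f + g) (f + g) ≤ 2 * ipW q f f + 2 * ipW q g g := by
  simp only [ipW_half q, map_add (Jw _), map_add Sq]
  exact ip_add_self_le _ _

lemma ipW_sub_self_le (q : ℝ) (f g : SV) :
    ipW q (f - g) (f - g) ≤ 2 * ipW q f f + 2 * ipW q g g := by
  simp only [ipW_half q, map_sub (Jw _), map_sub Sq]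
  exact ip_sub_self_le _ _

lemma ipW_mulV (q : ℝ) (i : Ix) (f g : SV) : ipW q (mulV i f) g = ipW q f (mulV i g) := by
  simp only [ipW_eq, mulV_apply]
  congr 1; funext v; ring

lemma ipW_mulV_le {a b : ℝ} (h : a + 1 ≤ b) (i : Ix) (f : SV) :
    ipW a (mulV i f) (mulV i f) ≤ ipW b f f := by
  refine le_trans ?_ (ipW_mono h f)
  rw [ipW_eq, ipW_eq]
  refine integral_mono (integrable_ipW a _ _) (integrable_ipW (a + 1) f f) fun v => ?_
  have h1 : |v i| ≤ ‖v‖ := by simpa using PiLp.norm_apply_le v i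
  have h2 : v i ^ 2 ≤ 1 + ‖v‖ ^ 2 := by
    have := pow_le_pow_left₀ (abs_nonneg _) h1 2
    rw [sq_abs] at this
    linarith
  have h3 : 0 ≤ (1 + ‖v‖ ^ 2) ^ a * (sqM v * f v) ^ 2 := by positivity
  simp only [mulV_apply]
  rw [Real.rpow_add_one (by positivity)]
  nlinarith [mul_le_mul_of_nonneg_right h2 h3]

lemma Sq_ap (l : Ix) (f : SV) : Sq (ap l f) = -dV l (Sq f) := by
  ext v
  have h0 : (Sq f : E3 → ℝ) = fun v => sqM v * f v := funext (Sq_apply f)
  have h1 := (hasFDerivAt_sqM v).fun_mul (f.hasFDerivAt v)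
  rw [neg_apply, dV_apply, h0, h1.fderiv, Sq_apply, ap_apply]
  simp [inner_ev]
  ring

lemma dV_Jw (l : Ix) (q : ℝ) (f : SV) :
    dV l (Jw q f) = Jw q (dV l f) + (2 * q) • mulV l (Jw (q - 1) f) := by
  ext v
  have h0 : (Jw q f : E3 → ℝ) = fun v => (1 + ‖v‖ ^ 2) ^ q * f v := funext (Jw_apply q f)
  have hp : (0 : ℝ) < 1 + ‖v‖ ^ 2 := by positivity
  have h2 := ((hasStrictFDerivAt_norm_sq v).hasFDerivAt.const_add 1).rpow_const
    (p := q) (Or.inl hp.ne')
  have h1 := h2.fun_mul (f.hasFDerivAt v)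
  rw [dV_apply, h0, h1.fderiv]
  simp [inner_ev, dV_apply]
  ring

/-- Integration by parts. -/
lemma ipW_ap (q : ℝ) (l : Ix) (f g : SV) :
    ipW q (ap l f) g = -ipW q f (ap l g) + 2 * q * ipW (q - 1) (mulV l f) g := by
  have e1 : ipW q (ap l f) g = ip (Sq f) (dV l (Jw q (Sq g))) := by
    rw [ipW_split q q, sub_self, Jw_zero, Sq_ap, map_neg, LinearMap.neg_apply, ip_dV, neg_neg]
  have e2 : ipW q f (ap l g) = -ip (Sq f) (Jw q (dV l (Sq g))) := by
    rw [ipW_split q q, sub_self, Jw_zero, Sq_ap, map_neg, map_neg]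
  have e3 : ipW (q - 1) (mulV l f) g = ip (Sq f) (mulV l (Jw (q - 1) (Sq g))) := by
    rw [ipW_eq, ip_def]
    congr 1; funext v
    simp only [mulV_apply, Jw_apply, Sq_apply]
    ring
  rw [e1, e2, e3, dV_Jw, map_add, map_smul, smul_eq_mul, neg_neg]

/-! ### Words -/

lemma ipW_apW_le {a b : ℝ} (h : a ≤ b) (w : List Ix) (f : SV) :
    ipW a (apW w f) (apW w f) ≤ NW b w.length f f := by
  rw [NW_eq]
  exact (ipW_mono h _).trans (single_le_sum (f := fun w => ipW b (apW w f) (apW w f))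
    (fun _ _ => ipW_nonneg _ _) (mem_words.2 rfl))

lemma NW_ap (a : ℝ) (m : ℕ) (k : Ix) (f : SV) :
    NW a m (ap k f) (ap k f) ≤ NW a (m + 1) f f := by
  rw [NW_eq, NW_eq, sum_words_succ]
  simp only [apW_ap, apW_cons]
  exact single_le_sum (f := fun j => ∑ w ∈ words m, ipW a (ap j (apW w f)) (ap j (apW w f)))
    (fun _ _ => sum_nonneg fun _ _ => ipW_nonneg _ _) (mem_univ k)

/-- Words of length less than `n`; weight and length add up to `c`. -/
def W (c : ℝ) (n : ℕ) (f : SV) : ℝ := ∑ l ∈ range n, NW (c - l) l f f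

lemma SW_eq (q : ℝ) (m : ℕ) (f : SV) : SW q m f = W (q + m) (m + 1) f := rfl

lemma W_nonneg (c : ℝ) (n : ℕ) (f : SV) : 0 ≤ W c n f := sum_nonneg fun _ _ => NW_nonneg _ _ _

lemma W_mono {c c' : ℝ} {n k : ℕ} (hc : c ≤ c') (h : n ≤ k) (f : SV) : W c n f ≤ W c' k f :=
  (sum_le_sum fun _ _ => NW_mono (by linarith) _ _).trans
    (sum_le_sum_of_subset_of_nonneg (range_mono h) fun _ _ _ => NW_nonneg _ _ _)

lemma NW_le_W {a c : ℝ} {m : ℕ} (h : a + m ≤ c) (f : SV) : NW a m f f ≤ W c (m + 1) f :=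
  (NW_mono (by linarith) m f).trans (single_le_sum (f := fun l : ℕ => NW (c - l) l f f)
    (fun _ _ => NW_nonneg _ _ _) (self_mem_range_succ m))

lemma W_ap {c c' : ℝ} (h : c + 1 ≤ c') (n : ℕ) (k : Ix) (f : SV) :
    W c n (ap k f) ≤ W c' (n + 1) f := by
  rw [W, W, sum_range_succ']
  refine le_add_of_le_of_nonneg (sum_le_sum fun l _ => ?_) (NW_nonneg _ _ _)
  exact (NW_ap _ l k f).trans (NW_mono (by push_cast; linarith) _ _)

/-- `A` is bounded in the norm of weight `a` by the functional `N`. -/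
def Bd (a : ℝ) (N : SV → ℝ) (A : SV → SV) : Prop :=
  ∃ C : ℝ, 0 < C ∧ ∀ f, ipW a (A f) (A f) ≤ C * N f

lemma Bd.zero (a : ℝ) {N : SV → ℝ} (hN : ∀ f, 0 ≤ N f) : Bd a N fun _ => 0 :=
  ⟨1, one_pos, fun f => by simpa [ipW] using hN f⟩

lemma Bd.comp {a : ℝ} {N N' : SV → ℝ} {A : SV → SV} (hA : Bd a N A) (T : SV → SV)
    (h : ∀ f, N (T f) ≤ N' f) : Bd a N' fun f => A (T f) := by
  obtain ⟨C, hC, hA⟩ := hA
  exact ⟨C, hC, fun f => (hA _).trans (mul_le_mul_of_nonneg_left (h f) hC.le)⟩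

lemma Bd.mono {a : ℝ} {N N' : SV → ℝ} {A : SV → SV} (hA : Bd a N A) (h : ∀ f, N f ≤ N' f) :
    Bd a N' A := hA.comp (fun f => f) h

lemma Bd.of_eq {a : ℝ} {N : SV → ℝ} {A B : SV → SV} (hA : Bd a N A) (h : ∀ f, B f = A f) :
    Bd a N B := by
  rwa [show B = A from funext h]

lemma Bd.add {a : ℝ} {N : SV → ℝ} {A B : SV → SV} (hA : Bd a N A) (hB : Bd a N B) :
    Bd a N fun f => A f + B f := by
  obtain ⟨C, hC, hA⟩ := hA
  obtain ⟨D, hD, hB⟩ := hB
  exact ⟨2 * C + 2 * D, by positivity, fun f => by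
    linarith [ipW_add_self_le a (A f) (B f), hA f, hB f]⟩

lemma Bd.sub {a : ℝ} {N : SV → ℝ} {A B : SV → SV} (hA : Bd a N A) (hB : Bd a N B) :
    Bd a N fun f => A f - B f := by
  obtain ⟨C, hC, hA⟩ := hA
  obtain ⟨D, hD, hB⟩ := hB
  exact ⟨2 * C + 2 * D, by positivity, fun f => by
    linarith [ipW_sub_self_le a (A f) (B f), hA f, hB f]⟩

lemma Bd.ite {a : ℝ} {N : SV → ℝ} {A : SV → SV} (hA : Bd a N A) (hN : ∀ f, 0 ≤ N f) (p : Prop)
    [Decidable p] : Bd a N fun f => (if p then (1 : ℝ) else 0) • A f := by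
  split_ifs
  · simpa using hA
  · simpa using Bd.zero a hN

lemma b0 {a c : ℝ} (w : List Ix) (h : a + w.length ≤ c) :
    Bd a (W c (w.length + 1)) fun f => apW w f :=
  ⟨1, one_pos, fun f => by rw [one_mul]; exact (ipW_apW_le le_rfl w f).trans (NW_le_W h f)⟩

lemma b1 {a c : ℝ} (i : Ix) (w : List Ix) (h : a + 1 + w.length ≤ c) :
    Bd a (W c (w.length + 1)) fun f => mulV i (apW w f) :=
  ⟨1, one_pos, fun f => by
    rw [one_mul]
    exact (ipW_mulV_le le_rfl _ _).trans ((ipW_apW_le le_rfl w f).trans (NW_le_W h f))⟩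

lemma b2 {a c : ℝ} (i j : Ix) (w : List Ix) (h : a + 1 + 1 + w.length ≤ c) :
    Bd a (W c (w.length + 1)) fun f => mulV i (mulV j (apW w f)) :=
  ⟨1, one_pos, fun f => by
    rw [one_mul]
    exact (ipW_mulV_le le_rfl _ _).trans ((ipW_mulV_le le_rfl _ _).trans
      ((ipW_apW_le le_rfl w f).trans (NW_le_W h f)))⟩

lemma comm_cons (i k : Ix) (w : List Ix) (f : SV) :
    apW (k :: w) (mulV i f) - mulV i (apW (k :: w) f)
      = apW w (mulV i (ap k f)) - mulV i (apW w (ap k f))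
        - (if k = i then (1 : ℝ) else 0) • apW w f := by
  rw [apW_cons, apW_cons, ← apW_ap, ← apW_ap, ap_mulV, map_sub, map_smul]
  abel

/-- The commutator with one multiplication only contains words with one letter less. -/
lemma c1x (a : ℝ) (i : Ix) (w : List Ix) (k : Ix) : Bd a (fun f => NW a w.length f f)
    fun f => apW (k :: w) (mulV i f) - mulV i (apW (k :: w) f) := by
  have h0 : ∀ w : List Ix, Bd a (fun f => NW a w.length f f) fun f => apW w f := fun w =>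
    ⟨1, one_pos, fun f => by rw [one_mul]; exact ipW_apW_le le_rfl w f⟩
  induction w generalizing k with
  | nil =>
    refine ((Bd.zero a fun f => NW_nonneg _ _ f).sub
      ((h0 []).ite (fun f => NW_nonneg _ _ f) (k = i))).of_eq fun f => ?_
    rw [comm_cons, apW_nil, apW_nil, sub_self]
  | cons j w ih =>
    exact (((ih j).comp (fun f => ap k f) fun f => NW_ap a _ k f).sub
      ((h0 (j :: w)).ite (fun f => NW_nonneg _ _ f) (k = i))).of_eq fun f => comm_cons i k _ f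

lemma c1 {a c : ℝ} (i : Ix) (w : List Ix) (h : a + w.length ≤ c + 1) :
    Bd a (W c w.length) fun f => apW w (mulV i f) - mulV i (apW w f) := by
  cases w with
  | nil => simpa using Bd.zero a (W_nonneg c 0)
  | cons k w =>
    refine (c1x a i w k).mono fun f => NW_le_W ?_ f
    rw [List.length_cons] at h
    push_cast at h
    linarith

lemma d1 {a c : ℝ} (i : Ix) (w : List Ix) (h : a + 1 + w.length ≤ c) :
    Bd a (W c (w.length + 1)) fun f => apW w (mulV i f) :=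
  (((c1 (c := c) i w (by linarith)).mono (W_mono le_rfl (Nat.le_succ _))).add
    (b1 i w h)).of_eq fun _ => (sub_add_cancel _ _).symm

lemma c2 {a : ℝ} (i j : Ix) (w : List Ix) : ∀ c : ℝ, a + w.length ≤ c → Bd a (W c w.length)
    fun f => apW w (mulV i (mulV j f)) - mulV i (mulV j (apW w f)) := by
  induction w with
  | nil => intro c _; simpa using Bd.zero a (W_nonneg c 0)
  | cons k w ih =>
    intro c h
    rw [List.length_cons] at h ⊢
    push_cast at h
    refine ((((ih (c - 1) (by linarith)).comp (fun f => ap k f)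
      (W_ap (c' := c) (by linarith) _ k)).sub
      ((d1 i w (by linarith)).ite (W_nonneg _ _) (k = j))).sub
      ((d1 j w (by linarith)).ite (W_nonneg _ _) (k = i))).of_eq fun f => ?_
    rw [apW_cons, apW_cons, ← apW_ap, ← apW_ap, ap_mulV, ap_mulV]
    simp only [map_sub, map_smul]
    abel

lemma d2 {a c : ℝ} (i j : Ix) (w : List Ix) (h : a + 1 + 1 + w.length ≤ c) :
    Bd a (W c (w.length + 1)) fun f => apW w (mulV i (mulV j f)) :=
  (((c2 i j w c (by linarith)).mono (W_mono le_rfl (Nat.le_succ _))).add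
    (b2 i j w h)).of_eq fun _ => (sub_add_cancel _ _).symm

/-! ### Bilinear bounds -/

omit [Dim] in
lemma unif {ι : Type} [Fintype ι] {P : ι → ℝ → Prop}
    (hm : ∀ i C D, C ≤ D → P i C → P i D) (h : ∀ i, ∃ C : ℝ, 0 < C ∧ P i C) :
    ∃ C : ℝ, 0 < C ∧ ∀ i, P i C := by
  choose C hC h using h
  have h0 := sum_nonneg (s := univ) fun i _ => (hC i).le
  refine ⟨1 + ∑ i, C i, by positivity, fun i => hm i _ _ ?_ (h i)⟩
  have := single_le_sum (f := C) (fun i _ => (hC i).le) (mem_univ i)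
  linarith

/-- The pairing of a family of bounded operators with the words of length `m`. -/
lemma pair {q : ℝ} {m : ℕ} {N : SV → ℝ} {A : List Ix → SV → SV}
    (h : ∀ w, w.length = m → Bd (q - 1 / 2) N (A w)) : ∃ C : ℝ, 0 < C ∧ ∀ f g,
      |∑ w ∈ words m, ipW q (A w f) (apW w g)| ≤ C * √(N f) * √(NW (q + 1 / 2) m g g) := by
  choose! C hC hb using h
  have h0 : 0 ≤ ∑ w ∈ words m, √(C w) := sum_nonneg fun _ _ => Real.sqrt_nonneg _
  refine ⟨1 + ∑ w ∈ words m, √(C w), by positivity, fun f g => ?_⟩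
  calc _ ≤ ∑ w ∈ words m, √(C w) * √(N f) * √(NW (q + 1 / 2) m g g) := by
        refine (abs_sum_le_sum_abs _ _).trans (sum_le_sum fun w hw => ?_)
        have hl := mem_words.1 hw
        refine (abs_ipW_le (a := q - 1 / 2) (b := q + 1 / 2) (by linarith) _ _).trans ?_
        rw [← Real.sqrt_mul (hC w hl).le]
        gcongr
        · exact hb w hl f
        · exact hl ▸ ipW_apW_le le_rfl w g
    _ = (∑ w ∈ words m, √(C w)) * √(N f) * √(NW (q + 1 / 2) m g g) := by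
        rw [sum_mul, sum_mul]
    _ ≤ _ := by gcongr; linarith

lemma sum_pair {q a b : ℝ} {m : ℕ} {B : SV → SV}
    (hB : ∀ p r, |ipW q (B p) r| ≤ √(ipW a p p) * √(ipW b r r)) (f g : SV) :
    |∑ w ∈ words m, ipW q (B (apW w f)) (apW w g)| ≤ √(NW a m f f) * √(NW b m g g) := by
  rw [NW_eq, NW_eq]
  exact (abs_sum_le_sum_abs _ _).trans ((sum_le_sum fun w _ => hB _ _).trans
    (Real.sum_sqrt_mul_sqrt_le _ (fun _ => ipW_nonneg _ _) (fun _ => ipW_nonneg _ _)))

/-! ### The top order terms -/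

lemma abs_pair {q a b B : ℝ} (h : 2 * q ≤ a + b) {x y : SV} (ha : ipW a x x ≤ B)
    (hb : ipW b y y ≤ B) : |ipW q x y| ≤ B := by
  refine (abs_ipW_le h _ _).trans ?_
  conv_rhs => rw [← Real.mul_self_sqrt ((ipW_nonneg a x).trans ha)]
  gcongr

omit [Dim] in
lemma abs_mul_le {q x B : ℝ} (h : |x| ≤ B) : -(|q| * B) ≤ q * x ∧ q * x ≤ |q| * B :=
  abs_le.1 (by rw [abs_mul]; gcongr)

lemma t0 (q : ℝ) (l : Ix) (p : SV) :
    |ipW q (ap l p) p| ≤ (|q| + 1) * ipW (q + 1 / 2) p p := by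
  have h1 := ipW_ap q l p p
  rw [ipW_comm q p] at h1
  have h2 := abs_mul_le (q := q) (abs_pair (q := q - 1) (a := q - 1 / 2) (by linarith)
    (ipW_mulV_le (b := q + 1 / 2) (by linarith) l p) le_rfl)
  have := ipW_nonneg (q + 1 / 2) p
  rw [abs_le]
  constructor <;> linarith [h2.1, h2.2]

lemma t1 (q : ℝ) (i l : Ix) (p : SV) :
    |ipW q (mulV i (ap l p)) p| ≤ (|q| + 1) * ipW (q + 1 / 2) p p := by
  have h1 := ipW_ap q l p (mulV i p)
  rw [ap_mulV, ipW_sub_right, ipW_smul_right, ← ipW_mulV, ipW_comm q p (mulV i _)] at h1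
  have h2 := abs_mul_le (q := q) (abs_pair (q := q - 1) (a := q - 1 / 2) (b := q - 1 / 2)
    (by linarith) (ipW_mulV_le (b := q + 1 / 2) (by linarith) l p)
    (ipW_mulV_le (b := q + 1 / 2) (by linarith) i p))
  have h3 : ipW q p p ≤ ipW (q + 1 / 2) p p := ipW_mono (by linarith) p
  have h4 := ipW_nonneg q p
  rw [abs_le]
  split_ifs at h1 <;> constructor <;> linarith [h2.1, h2.2]

lemma t2 (q : ℝ) (i j l : Ix) (p : SV) :
    |ipW q (mulV i (mulV j (ap l p))) p| ≤ (|q| + 1) * ipW (q + 1 / 2) p p := by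
  have h1 := ipW_ap q l p (mulV j (mulV i p))
  rw [ap_mulV, ap_mulV, ← ipW_mulV, ← ipW_mulV, map_sub (mulV j), map_smul, ipW_sub_right,
    ipW_sub_right, ipW_smul_right, ipW_smul_right, mulV_comm j i,
    ipW_comm q p (mulV i (mulV j _))] at h1
  have h2 := abs_mul_le (q := q) (abs_pair (q := q - 1) (a := q - 1 / 2) (b := q - 3 / 2)
    (by linarith) (ipW_mulV_le (b := q + 1 / 2) (by linarith) l p)
    ((ipW_mulV_le (b := q - 1 / 2) (by linarith) j (mulV i p)).trans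
      (ipW_mulV_le (b := q + 1 / 2) (by linarith) i p)))
  have h3 := abs_le.1 (abs_pair (q := q) (a := q + 1 / 2) (b := q - 1 / 2) (by linarith) le_rfl
    (ipW_mulV_le (b := q + 1 / 2) (by linarith) i p))
  have h4 := abs_le.1 (abs_pair (q := q) (a := q + 1 / 2) (b := q - 1 / 2) (by linarith) le_rfl
    (ipW_mulV_le (b := q + 1 / 2) (by linarith) j p))
  have := ipW_nonneg (q + 1 / 2) p
  rw [abs_le]
  split_ifs at h1 <;> constructor <;> linarith [h2.1, h2.2, h3.1, h3.2, h4.1, h4.2]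

lemma top_of {q : ℝ} {m : ℕ} {T : SV → SV}
    (hT : ∀ p, |ipW q (T p) p| ≤ (|q| + 1) * ipW (q + 1 / 2) p p)
    (hc : ∀ w : List Ix, w.length = m → Bd (q - 1 / 2) (W (q + 1 / 2 + m) (m + 1))
      fun f => apW w (T f) - T (apW w f)) :
    ∃ C : ℝ, 0 < C ∧ ∀ f, |NW q m (T f) f| ≤ C * SW (q + 1 / 2) m f := by
  obtain ⟨C, hC, h⟩ := pair (A := fun w f => apW w (T f) - T (apW w f)) hc
  refine ⟨C + (|q| + 1), by positivity, fun f => ?_⟩
  have h0 : NW (q + 1 / 2) m f f ≤ W (q + 1 / 2 + m) (m + 1) f := NW_le_W le_rfl f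
  have h1 : |∑ w ∈ words m, ipW q (apW w (T f) - T (apW w f)) (apW w f)|
      ≤ C * W (q + 1 / 2 + m) (m + 1) f := by
    refine (h f f).trans ?_
    conv_rhs => rw [← Real.mul_self_sqrt (W_nonneg (q + 1 / 2 + m) (m + 1) f), ← mul_assoc]
    gcongr
  simp only [ipW_sub_left, sum_sub_distrib] at h1
  have h2 : |∑ w ∈ words m, ipW q (T (apW w f)) (apW w f)|
      ≤ (|q| + 1) * W (q + 1 / 2 + m) (m + 1) f := by
    refine (abs_sum_le_sum_abs _ _).trans ((sum_le_sum fun w _ => hT _).trans ?_)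
    rw [← mul_sum, ← NW_eq]
    gcongr
  rw [NW_eq, SW_eq, abs_le]
  rw [abs_le] at h1 h2
  constructor <;> linarith [h1.1, h1.2, h2.1, h2.2]

end VH1

open VH1

theorem vh_cs (q a b : ℝ) (m : ℕ) (h : 2 * q ≤ a + b) (f g : SV) :
    |NW q m f g| ≤ √(NW a m f f) * √(NW b m g g) := by
  rw [NW_eq q]
  exact sum_pair (B := fun p => p) (abs_ipW_le h) f g

theorem vh_nv (q : ℝ) (m : ℕ) (i : Ix) (f g : SV) :
    |NVW q m i f g| ≤ √(NW (q + 1 / 2) m f f) * √(NW (q + 1 / 2) m g g) := by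
  refine sum_pair (B := fun p => mulV i p) (fun p r => ?_) f g
  refine (abs_ipW_le (a := q - 1 / 2) (b := q + 1 / 2) (by linarith) _ _).trans ?_
  gcongr
  exact ipW_mulV_le (by linarith) i p

theorem vh_comm (q : ℝ) (m : ℕ) : ∃ C : ℝ, 0 < C ∧ ∀ i f g,
    |NW q (m + 1) (mulV i f) g - NVW q (m + 1) i f g|
      ≤ C * √(NW (q - 1 / 2) m f f) * √(NW (q + 1 / 2) (m + 1) g g) := by
  refine unif (fun i C D hCD h f g => (h f g).trans (by gcongr)) fun i => ?_
  obtain ⟨C, hC, h⟩ := pair (q := q) (m := m + 1) (N := fun f => NW (q - 1 / 2) m f f)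
    (A := fun w f => apW w (mulV i f) - mulV i (apW w f)) fun w hw => by
      cases w with
      | nil => simp at hw
      | cons k w =>
        have := c1x (q - 1 / 2) i w k
        rwa [show w.length = m by simpa using hw] at this
  refine ⟨C, hC, fun f g => ?_⟩
  have := h f g
  simp only [ipW_sub_left, sum_sub_distrib] at this
  rw [NW_eq q]
  exact this

theorem vh_mv (q : ℝ) (m : ℕ) : ∃ C : ℝ, 0 < C ∧ ∀ i f g,
    |NW q m (mulV i f) g| ≤ C * √(SW (q + 1 / 2) m f) * √(NW (q + 1 / 2) m g g) := by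
  refine unif (fun i C D hCD h f g => (h f g).trans (by gcongr)) fun i => ?_
  obtain ⟨C, hC, h⟩ := pair (q := q) (m := m) (N := W (q + 1 / 2 + m) (m + 1))
    (A := fun w f => apW w (mulV i f)) fun w hw => hw ▸ d1 i w (by linarith)
  exact ⟨C, hC, fun f g => by rw [NW_eq q]; exact h f g⟩

theorem vh_top (q : ℝ) (m : ℕ) : ∃ C : ℝ, 0 < C ∧ ∀ i j l f,
    |NW q m (ap l f) f| ≤ C * SW (q + 1 / 2) m f ∧
    |NW q m (mulV i (ap l f)) f| ≤ C * SW (q + 1 / 2) m f ∧
    |NW q m (mulV i (mulV j (ap l f))) f| ≤ C * SW (q + 1 / 2) m f := by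
  suffices H : ∃ C : ℝ, 0 < C ∧ ∀ p : Ix × Ix × Ix, ∀ f,
      |NW q m (ap p.2.2 f) f| ≤ C * SW (q + 1 / 2) m f ∧
      |NW q m (mulV p.1 (ap p.2.2 f)) f| ≤ C * SW (q + 1 / 2) m f ∧
      |NW q m (mulV p.1 (mulV p.2.1 (ap p.2.2 f))) f| ≤ C * SW (q + 1 / 2) m f by
    obtain ⟨C, hC, h⟩ := H
    exact ⟨C, hC, fun i j l => h (i, j, l)⟩
  have hW := SW_nonneg (q + 1 / 2) m
  refine unif (fun i C D hCD h f => ⟨(h f).1.trans (by gcongr; exact hW f),
    (h f).2.1.trans (by gcongr; exact hW f), (h f).2.2.trans (by gcongr; exact hW f)⟩)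
    fun ⟨i, j, l⟩ => ?_
  obtain ⟨C₀, hC₀, h₀⟩ := top_of (m := m) (T := fun f => ap l f) (t0 q l) fun w _ =>
    (Bd.zero _ (W_nonneg _ _)).of_eq fun f => by rw [apW_ap, sub_self]
  obtain ⟨C₁, hC₁, h₁⟩ := top_of (m := m) (T := fun f => mulV i (ap l f)) (t1 q i l) fun w hw =>
    ((c1 (c := q - 1 / 2 + m) i w (by rw [hw]; linarith)).comp (fun f => ap l f)
      (hw ▸ W_ap (by linarith) _ l)).of_eq fun f => by rw [apW_ap]
  obtain ⟨C₂, hC₂, h₂⟩ := top_of (m := m) (T := fun f => mulV i (mulV j (ap l f))) (t2 q i j l)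
    fun w hw => ((c2 i j w (q - 1 / 2 + m) (by rw [hw])).comp (fun f => ap l f)
      (hw ▸ W_ap (by linarith) _ l)).of_eq fun f => by rw [apW_ap]
  refine ⟨C₀ + C₁ + C₂, by positivity, fun f => ?_⟩
  have := hW f
  refine ⟨(h₀ f).trans ?_, (h₁ f).trans ?_, (h₂ f).trans ?_⟩ <;> gcongr <;> linarith

theorem vh_low (q : ℝ) (m : ℕ) : ∃ C : ℝ, 0 < C ∧ ∀ i j l f g,
    |NW q m (ap l f) g| ≤ C * √(SW (q + 3 / 2) (m + 1) f) * √(NW (q + 1 / 2) m g g) ∧
    |NW q m (mulV i (ap l f)) g| ≤ C * √(SW (q + 3 / 2) (m + 1) f) * √(NW (q + 1 / 2) m g g) ∧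
    |NW q m (mulV i (mulV j (ap l f))) g|
      ≤ C * √(SW (q + 3 / 2) (m + 1) f) * √(NW (q + 1 / 2) m g g) := by
  suffices H : ∃ C : ℝ, 0 < C ∧ ∀ p : Ix × Ix × Ix, ∀ f g,
      |NW q m (ap p.2.2 f) g| ≤ C * √(SW (q + 3 / 2) (m + 1) f) * √(NW (q + 1 / 2) m g g) ∧
      |NW q m (mulV p.1 (ap p.2.2 f)) g|
        ≤ C * √(SW (q + 3 / 2) (m + 1) f) * √(NW (q + 1 / 2) m g g) ∧
      |NW q m (mulV p.1 (mulV p.2.1 (ap p.2.2 f))) g|
        ≤ C * √(SW (q + 3 / 2) (m + 1) f) * √(NW (q + 1 / 2) m g g) by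
    obtain ⟨C, hC, h⟩ := H
    exact ⟨C, hC, fun i j l => h (i, j, l)⟩
  refine unif (fun i C D hCD h f g => ⟨(h f g).1.trans (by gcongr), (h f g).2.1.trans (by gcongr),
    (h f g).2.2.trans (by gcongr)⟩) fun ⟨i, j, l⟩ => ?_
  have hW : ∀ f, W (q + 3 / 2 + m) (m + 1) (ap l f) ≤ SW (q + 3 / 2) (m + 1) f :=
    W_ap (by push_cast; linarith) _ l
  obtain ⟨C₀, hC₀, h₀⟩ := pair (q := q) (m := m) (N := SW (q + 3 / 2) (m + 1))
    (A := fun w f => apW w (ap l f)) fun w hw =>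
      (hw ▸ b0 (c := q + 3 / 2 + m) w (by rw [hw]; linarith)).comp (fun f => ap l f) hW
  obtain ⟨C₁, hC₁, h₁⟩ := pair (q := q) (m := m) (N := SW (q + 3 / 2) (m + 1))
    (A := fun w f => apW w (mulV i (ap l f))) fun w hw =>
      (hw ▸ d1 (c := q + 3 / 2 + m) i w (by rw [hw]; linarith)).comp (fun f => ap l f) hW
  obtain ⟨C₂, hC₂, h₂⟩ := pair (q := q) (m := m) (N := SW (q + 3 / 2) (m + 1))
    (A := fun w f => apW w (mulV i (mulV j (ap l f)))) fun w hw =>
      (hw ▸ d2 (c := q + 3 / 2 + m) i j w (by rw [hw]; linarith)).comp (fun f => ap l f) hW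
  refine ⟨C₀ + C₁ + C₂, by positivity, fun f g => ?_⟩
  simp only [NW_eq q]
  refine ⟨(h₀ f g).trans ?_, (h₁ f g).trans ?_, (h₂ f g).trans ?_⟩ <;> gcongr <;> linarith

end Pool.Agent.BoltzM
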